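import Pool.Agent.Helper13.Swan.Reduce

set_option autoImplicit false

namespace Pool.Agent.Helper13.Swan

open Finset

theorem exists_central_of_normal {G : Type*} [Group G] [Finite G] (hG : IsPGroup 2 G)
    (B : Subgroup G) [B.Normal] (hB : B ≠ ⊥) :
    ∃ c ∈ B, c ≠ 1 ∧ (∀ g, g * c = c * g) ∧ c * c = 1 := by
  haveI : Fact (Nat.Prime 2) := ⟨Nat.prime_two⟩
  have hG' : IsPGroup 2 (ConjAct G) := hG.of_equiv ConjAct.toConjAct
  have hBne : Nontrivial B := by
    rw [Subgroup.nontrivial_iff_ne_bot]; exact hB
  have hdvd : 2 ∣ Nat.card B := by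
    rcases (hG.to_subgroup B).card_eq_or_dvd with h | h
    · have := Finite.one_lt_card_iff_nontrivial.2 hBne
      omega
    · exact h
  obtain ⟨b, hb, hb1⟩ := hG'.exists_fixed_point_of_prime_dvd_card_of_fixed_point (α := B) hdvd
    (a := 1) (by
      intro g
      ext
      rw [ConjAct.Subgroup.val_conj_smul]
      simp)
  have hbc : ∀ g : G, g * b = b * g := by
    intro g
    have h1 := hb (ConjAct.toConjAct g)
    have h2 := congrArg Subtype.val h1
    rw [ConjAct.Subgroup.val_conj_smul, ConjAct.toConjAct_smul] at h2
    have h3 : g * b = (g * b * g⁻¹) * g := by group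
    rw [h3, h2]
  have hb1' : (b : G) ≠ 1 := by
    intro h
    apply hb1
    ext
    exact h.symm
  obtain ⟨k, hk⟩ := (isPGroup_iff_pow_pow_eq_one.1 hG) (b : G)
  -- minimal exponent
  classical
  have hex : ∃ k, (b : G) ^ 2 ^ k = 1 := ⟨k, hk⟩
  have hspec := Nat.find_spec hex
  set m := Nat.find hex with hm
  have hm0 : m ≠ 0 := by
    intro h
    rw [h, pow_zero, pow_one] at hspec
    exact hb1' hspec
  obtain ⟨m', hm'⟩ := Nat.exists_eq_succ_of_ne_zero hm0
  refine ⟨(b : G) ^ 2 ^ m', B.pow_mem b.2 _, ?_, ?_, ?_⟩
  · intro h
    exact Nat.find_min hex (m := m') (by omega) h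
  · intro g
    exact (Commute.pow_right (hbc g) _)
  · rw [← pow_add, ← two_mul, ← pow_succ']
    rw [hm'] at hspec
    exact hspec

theorem exists_index_two_step {P : Type*} [Group P] [Finite P] (hP : IsPGroup 2 P)
    {A B : Subgroup P} (hA : A.Normal) (hB : B.Normal) (hAB : A < B) :
    ∃ C : Subgroup P, C.Normal ∧ A < C ∧ C ≤ B ∧
      ∀ a ∈ C, ∀ b ∈ C, a ∉ A → b ∉ A → a * b ∈ A := by
  let π := QuotientGroup.mk' A
  have hBn : (B.map π).Normal := hB.map π (QuotientGroup.mk'_surjective A)
  have hBne : B.map π ≠ ⊥ := by
    intro h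
    rw [Subgroup.map_eq_bot_iff, QuotientGroup.ker_mk'] at h
    exact absurd h (not_le_of_gt hAB)
  obtain ⟨c, hcB, hc1, hcc, hc2⟩ := exists_central_of_normal (hP.to_quotient A) (B.map π) hBne
  have hzn : (Subgroup.zpowers c).Normal := by
    constructor
    intro x hx g
    have : g * x * g⁻¹ = x := by
      obtain ⟨n, rfl⟩ := Subgroup.mem_zpowers_iff.1 hx
      have : Commute g (c ^ n) := Commute.zpow_right (hcc g) n
      rw [this.eq, mul_inv_cancel_right]
    rw [this]; exact hx
  have hz : ∀ x ∈ Subgroup.zpowers c, x = 1 ∨ x = c := by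
    intro x hx
    obtain ⟨n, rfl⟩ := Subgroup.mem_zpowers_iff.1 hx
    rcases Int.even_or_odd' n with ⟨m, hm | hm⟩
    · left
      rw [hm, zpow_mul, zpow_two, hc2, one_zpow]
    · right
      rw [hm, zpow_add, zpow_mul, zpow_two, hc2, one_zpow, one_mul, zpow_one]
  refine ⟨(Subgroup.zpowers c).comap π, hzn.comap π, ?_, ?_, ?_⟩
  · rw [lt_iff_le_and_ne]
    constructor
    · intro a ha
      rw [Subgroup.mem_comap]
      have : π a = 1 := (QuotientGroup.eq_one_iff a).2 ha
      rw [this]; exact Subgroup.one_mem _
    · intro h
      obtain ⟨b, hb, hbc⟩ := hcB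
      have : b ∈ (Subgroup.zpowers c).comap π := by
        rw [Subgroup.mem_comap, hbc]; exact Subgroup.mem_zpowers c
      rw [← h] at this
      apply hc1
      rw [← hbc]
      exact (QuotientGroup.eq_one_iff b).2 this
  · intro x hx
    rw [Subgroup.mem_comap] at hx
    have hxB : π x ∈ B.map π := by
      rcases hz _ hx with h | h
      · rw [h]; exact Subgroup.one_mem _
      · rw [h]; exact hcB
    obtain ⟨b, hb, hbx⟩ := hxB
    have h1 : b⁻¹ * x ∈ A := (QuotientGroup.eq (s := A)).1 hbx
    have h2 : b * (b⁻¹ * x) ∈ B := B.mul_mem hb (hAB.le h1)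
    rwa [mul_inv_cancel_left] at h2
  · intro a ha b hb haA hbA
    rw [Subgroup.mem_comap] at ha hb
    have h1 : π a = c := by
      rcases hz _ ha with h | h
      · exact absurd ((QuotientGroup.eq_one_iff a).1 h) haA
      · exact h
    have h2 : π b = c := by
      rcases hz _ hb with h | h
      · exact absurd ((QuotientGroup.eq_one_iff b).1 h) hbA
      · exact h
    have h3 : π (a * b) = 1 := by rw [map_mul, h1, h2, hc2]
    exact (QuotientGroup.eq_one_iff _).1 h3

/-- A chain of normal subgroups ending at `A` and containing all `R i ≤ A`. -/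
def HasChain {P : Type*} [Group P] (R : ℕ → Subgroup P) (A : Subgroup P) : Prop :=
  ∃ (N : ℕ → Subgroup P) (m : ℕ), N 0 = ⊥ ∧ Monotone N ∧ (∀ r, (N r).Normal) ∧
    (∀ r, ∀ a ∈ N (r + 1), ∀ b ∈ N (r + 1), a ∉ N r → b ∉ N r → a * b ∈ N r) ∧
    (∀ r, m ≤ r → N r = A) ∧ ∀ i, R i ≤ A → ∃ r, N r = R i

theorem exists_chain {P : Type*} [Group P] [Finite P] (hP : IsPGroup 2 P) {R : ℕ → Subgroup P}
    (hR : Antitone R) (hRn : ∀ i, (R i).Normal) : HasChain R ⊤ := by
  have key : ∀ n : ℕ, ∀ A : Subgroup P, A.Normal → (∀ i, R i ≤ A ∨ A ≤ R i) → HasChain R A →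
      Nat.card P - Nat.card A = n → HasChain R ⊤ := by
    intro n
    induction n using Nat.strong_induction_on with
    | _ n ih =>
      intro A hA hcomp hch hn
      by_cases hAt : A = ⊤
      · rw [← hAt]; exact hch
      · -- the smallest member strictly above `A`
        have hexB : ∃ B : Subgroup P, B.Normal ∧ A < B ∧ ∀ i, A < R i → B ≤ R i := by
          by_cases hex : ∃ i, A < R i
          · -- take the largest index
            have hbd : ∃ B, (∃ i, A < R i ∧ R i = B) ∧ ∀ i, A < R i → B ≤ R i := by
              have hfin : {B : Subgroup P | ∃ i, A < R i ∧ R i = B}.Finite := Set.toFinite _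
              have hne : {B : Subgroup P | ∃ i, A < R i ∧ R i = B}.Nonempty := by
                obtain ⟨i, hi⟩ := hex
                exact ⟨R i, i, hi, rfl⟩
              obtain ⟨B, hB, hmin⟩ := Set.exists_min_image _ (fun B : Subgroup P => Nat.card B)
                hfin hne
              refine ⟨B, hB, ?_⟩
              intro i hi
              obtain ⟨j, hj, rfl⟩ := hB
              rcases le_total i j with h | h
              · exact hR h
              · have h1 : R i ≤ R j := hR h
                have h2 := hmin (R i) ⟨i, hi, rfl⟩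
                have h3 : R i = R j := Subgroup.eq_of_le_of_card_ge h1 h2
                rw [h3]
            obtain ⟨B, ⟨i, hi, rfl⟩, hB⟩ := hbd
            exact ⟨R i, hRn i, hi, hB⟩
          · push Not at hex
            exact ⟨⊤, inferInstance, lt_top_iff_ne_top.2 hAt, fun i hi => absurd hi (hex i)⟩
        obtain ⟨B, hB, hAB, hBmin⟩ := hexB
        obtain ⟨C, hC, hAC, hCB, hidx⟩ := exists_index_two_step hP hA hB hAB
        have hcard : Nat.card A < Nat.card C := by
          by_contra hc
          push Not at hc
          exact hAC.ne (Subgroup.eq_of_le_of_card_ge hAC.le hc)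
        have hcardP : Nat.card C ≤ Nat.card P := Subgroup.card_le_card_group C
        have hcompA : ∀ i, R i ≤ A ∨ C ≤ R i := by
          intro i
          rcases hcomp i with h | h
          · exact Or.inl h
          · rcases h.eq_or_lt with h1 | h1
            · exact Or.inl h1.symm.le
            · exact Or.inr (hCB.trans (hBmin i h1))
        apply ih (Nat.card P - Nat.card C) (by omega) C hC _ _ rfl
        · intro i
          rcases hcompA i with h | h
          · exact Or.inl (h.trans hAC.le)
          · exact Or.inr h
        · obtain ⟨N, m, h0, hmono, hnorm, hidxN, htop, hall⟩ := hch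
          classical
          refine ⟨fun r => if r ≤ m then N r else C, m + 1, ?_, ?_, ?_, ?_, ?_, ?_⟩
          · simp [h0]
          · intro r s hrs
            dsimp only
            split_ifs with h1 h2
            · exact hmono hrs
            · refine le_trans ?_ hAC.le
              rw [← htop m le_rfl]
              exact hmono h1
            · omega
            · exact le_rfl
          · intro r
            dsimp only
            split_ifs
            · exact hnorm r
            · exact hC
          · intro r a ha b hb haN hbN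
            dsimp only at ha hb haN hbN ⊢
            by_cases h1 : r + 1 ≤ m
            · have h2 : r ≤ m := by omega
              rw [if_pos h1] at ha hb
              rw [if_pos h2] at haN hbN ⊢
              exact hidxN r a ha b hb haN hbN
            · rw [if_neg h1] at ha hb
              by_cases h2 : r ≤ m
              · have h3 : r = m := by omega
                rw [if_pos h2] at haN hbN ⊢
                rw [h3, htop m le_rfl] at haN hbN ⊢
                exact hidx a ha b hb haN hbN
              · rw [if_neg h2] at haN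
                exact absurd ha haN
          · intro r hr
            dsimp only
            rw [if_neg (by omega)]
          · intro i hi
            rcases hcompA i with h | h
            · obtain ⟨r, hr⟩ := hall i h
              by_cases hrm : r ≤ m
              · exact ⟨r, by dsimp only; rw [if_pos hrm, hr]⟩
              · refine ⟨m, ?_⟩
                dsimp only
                rw [if_pos le_rfl, htop m le_rfl, ← hr, htop r (by omega)]
            · refine ⟨m + 1, ?_⟩
              dsimp only
              rw [if_neg (by omega)]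
              exact le_antisymm h hi
  apply key _ ⊥ inferInstance (fun i => Or.inr bot_le) _ rfl
  refine ⟨fun _ => ⊥, 0, rfl, fun _ _ _ => le_rfl, fun _ => inferInstance, ?_, fun _ _ => rfl, ?_⟩
  · intro r a ha b hb haN
    exact absurd ha haN
  · intro i hi
    exact ⟨0, (le_bot_iff.1 hi).symm⟩

/-- Nonnegativity of the filtration sum, assuming the key inequality for all linear characters of
subgroups. -/
theorem main_rep.{u, v} {P : Type u} [Group P] [Fintype P] (hP : IsPGroup 2 P)
    {R : ℕ → Subgroup P} (hR : Antitone R) (hRn : ∀ i, (R i).Normal) (L : ℕ)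
    (hkey : ∀ f : P → ℂ, f 1 = 1 → (∀ a b, f a ≠ 0 → f (a * b) = f a * f b) → KeyIneq R L f)
    (V : Type v) [AddCommGroup V] [Module ℂ V] [FiniteDimensional ℂ V]
    (ρ : Representation ℂ P V) : ∃ z : ℕ, S R L ρ = (z : ℂ) := by
  obtain ⟨N, m, h0, hmono, hnorm, hidx, htop, hall⟩ := exists_chain hP hR hRn
  exact rep_nonneg h0 hmono hnorm hidx (htop m le_rfl) hR (fun i _ => hall i le_top) L
    (fun f hf => hkey f hf.one hf.mul) _ V ρ rfl

end Pool.Agent.Helper13.Swan
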