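import Mathlib

set_option autoImplicit false

namespace Pool.Agent.Helper13.Swan

open Finset

/-- A finite module over a precomplete ring is precomplete. -/
theorem precomplete_of_finite {R M : Type*} [CommRing R] [AddCommGroup M] [Module R M]
    [Module.Finite R M] (I : Ideal R) (hI : IsPrecomplete I R) : IsPrecomplete I M := by
  classical
  obtain ⟨n, s, hs⟩ := Module.Finite.exists_fin (R := R) (M := M)
  constructor
  intro f hf
  have h1 : ∀ m : ℕ, ∃ a : Fin n → R, (∀ i, a i ∈ I ^ m) ∧ ∑ i, a i • s i = f (m + 1) - f m := by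
    intro m
    have h2 := hf (Nat.le_succ m)
    rw [SModEq.comm, SModEq.sub_mem, ← hs] at h2
    obtain ⟨a, ha, hsum⟩ := (Submodule.mem_ideal_smul_span_iff_exists_sum (I ^ m) s _).1 h2
    refine ⟨a, ha, ?_⟩
    rw [← hsum, Finsupp.sum_fintype]
    intro i
    exact zero_smul _ _
  choose a ha hsum using h1
  -- partial sums of coefficients
  have hcauchy : ∀ i : Fin n, ∃ l : R, ∀ m, (∑ k ∈ range m, a k i) - l ∈ I ^ m := by
    intro i
    obtain ⟨l, hl⟩ := hI.prec' (fun m => ∑ k ∈ range m, a k i) (by
      intro p q hpq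
      rw [SModEq.comm, SModEq.sub_mem, smul_eq_mul, Ideal.mul_top]
      rw [← Finset.sum_Ico_eq_sub _ hpq]
      apply Ideal.sum_mem
      intro k hk
      rw [mem_Ico] at hk
      exact Ideal.pow_le_pow_right hk.1 (ha k i))
    refine ⟨l, ?_⟩
    intro m
    have := hl m
    rw [SModEq.sub_mem, smul_eq_mul, Ideal.mul_top] at this
    exact this
  choose l hl using hcauchy
  refine ⟨f 0 + ∑ i, l i • s i, ?_⟩
  intro m
  rw [SModEq.sub_mem]
  have h3 : f m = f 0 + ∑ i, (∑ k ∈ range m, a k i) • s i := by
    induction m with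
    | zero => simp
    | succ m ih =>
      have h4 : f (m + 1) = f m + ∑ i, a m i • s i := by rw [hsum]; abel
      rw [h4, ih, add_assoc, ← Finset.sum_add_distrib]
      congr 1
      apply Finset.sum_congr rfl
      intro i _
      rw [Finset.sum_range_succ, add_smul]
  have h5 : f m - (f 0 + ∑ i, l i • s i) = ∑ i, ((∑ k ∈ range m, a k i) - l i) • s i := by
    rw [h3]
    simp only [sub_smul, Finset.sum_sub_distrib]
    abel
  rw [h5]
  apply Submodule.sum_mem
  intro i _
  exact Submodule.smul_mem_smul (hl i m) Submodule.mem_top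

/-- Completeness only depends on the ideal up to powers. -/
theorem adicComplete_of_pow_le {R : Type*} [CommRing R] {I J : Ideal R} {e : ℕ} (he : 1 ≤ e)
    (h1 : J ^ e ≤ I) (h2 : I ≤ J) (hI : IsAdicComplete I R) : IsAdicComplete J R := by
  have hH : IsHausdorff J R := by
    constructor
    intro x hx
    apply hI.haus'
    intro n
    have h3 := hx (e * n)
    rw [SModEq.zero, smul_eq_mul, Ideal.mul_top] at h3 ⊢
    rw [pow_mul] at h3
    exact Ideal.pow_right_mono h1 n h3
  have hP : IsPrecomplete J R := by
    constructor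
    intro f hf
    have hf' : ∀ {m n}, m ≤ n → f m - f n ∈ J ^ m := by
      intro m n hmn
      have h3 := hf hmn
      rwa [SModEq.sub_mem, smul_eq_mul, Ideal.mul_top] at h3
    obtain ⟨l, hl⟩ := hI.prec' (fun m => f (e * m)) (by
      intro p q hpq
      rw [SModEq.sub_mem, smul_eq_mul, Ideal.mul_top]
      have h3 := hf' (Nat.mul_le_mul_left e hpq)
      rw [pow_mul] at h3
      exact Ideal.pow_right_mono h1 p h3)
    refine ⟨l, ?_⟩
    intro m
    have h3 := hl m
    rw [SModEq.sub_mem, smul_eq_mul, Ideal.mul_top] at h3 ⊢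
    have h4 := hf' (show m ≤ e * m from Nat.le_mul_of_pos_left m he)
    have h5 := Ideal.add_mem _ h4 (Ideal.pow_right_mono h2 m h3)
    rwa [sub_add_sub_cancel] at h5
  exact { toIsHausdorff := hH, toIsPrecomplete := hP }

/-- A finite extension of a complete Noetherian ring is complete, when it is a domain. -/
theorem adicComplete_of_finite {R S : Type*} [CommRing R] [CommRing S] [Algebra R S]
    [IsDomain S] [IsNoetherianRing S] [Module.Finite R S] (I : Ideal R)
    (hI : IsAdicComplete I R) (h : I.map (algebraMap R S) ≠ ⊤) :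
    IsAdicComplete (I.map (algebraMap R S)) S := by
  have h1 : IsPrecomplete I S := precomplete_of_finite I hI.toIsPrecomplete
  have h2 : IsPrecomplete (I.map (algebraMap R S)) S := IsPrecomplete.map_algebraMap_iff.2 h1
  have h3 : IsHausdorff (I.map (algebraMap R S)) S := IsHausdorff.of_isDomain _ h
  exact { toIsHausdorff := h3, toIsPrecomplete := h2 }

/-- Uniqueness of Hensel roots. -/
theorem hensel_unique {S : Type*} [CommRing S] [IsDomain S] [IsLocalRing S] {f : Polynomial S}
    {a b : S} (ha : f.eval a = 0) (hb : f.eval b = 0)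
    (hab : b - a ∈ IsLocalRing.maximalIdeal S)
    (hu : IsUnit (f.derivative.eval a)) : a = b := by
  obtain ⟨k, hk⟩ := Polynomial.binomExpansion f a (b - a)
  rw [add_sub_cancel, ha, hb, zero_add] at hk
  have h1 : (b - a) * (f.derivative.eval a + k * (b - a)) = 0 := by
    rw [hk]; ring
  have h2 : IsUnit (f.derivative.eval a + k * (b - a)) := by
    by_contra hc
    have h3 : f.derivative.eval a + k * (b - a) ∈ IsLocalRing.maximalIdeal S := hc
    have h4 : k * (b - a) ∈ IsLocalRing.maximalIdeal S := Ideal.mul_mem_left _ _ hab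
    have h5 := Ideal.sub_mem _ h3 h4
    rw [add_sub_cancel_right] at h5
    exact h5 hu
  rcases mul_eq_zero.1 h1 with h | h
  · exact (sub_eq_zero.1 h).symm
  · exact absurd h h2.ne_zero

/-- An integral finite local extension: locality of `S` from maximality of the extended ideal. -/
theorem isLocal_of_map_maximal {R S : Type*} [CommRing R] [IsLocalRing R] [CommRing S]
    [Algebra R S] [Algebra.IsIntegral R S]
    (h : ((IsLocalRing.maximalIdeal R).map (algebraMap R S)).IsMaximal) :
    IsLocalRing S := by
  apply IsLocalRing.of_unique_max_ideal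
  refine ⟨_, h, ?_⟩
  intro J hJ
  have h1 : (J.comap (algebraMap R S)).IsMaximal :=
    Ideal.isMaximal_comap_of_isIntegral_of_isMaximal J
  have h2 : J.comap (algebraMap R S) = IsLocalRing.maximalIdeal R := IsLocalRing.eq_maximalIdeal h1
  have h3 : (IsLocalRing.maximalIdeal R).map (algebraMap R S) ≤ J := by
    rw [Ideal.map_le_iff_le_comap, h2]
  exact (h.eq_of_le hJ.ne_top h3).symm

end Pool.Agent.Helper13.Swan
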