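import Pool.Agent.Helper13.Swan.LF2

set_option autoImplicit false

namespace Pool.Agent.Helper13.Swan

open IsLocalRing ValuativeRel

/-- The ring of integers of `E`: the integral closure in `E` of the valuation ring `𝒪[F]` of `F`,
as a subring of `E`. -/
noncomputable def intRing (F : Type*) [Field F] [ValuativeRel F] (E : Type*) [Field E]
    [Algebra F E] : Subring E := (integralClosure 𝒪[F] E).toSubring

/-- The identity, as a ring isomorphism. -/
def intEquiv (F : Type*) [Field F] [ValuativeRel F] (E : Type*) [Field E]
    [Algebra F E] : intRing F E ≃+* OE F E where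
  toFun x := ⟨x.1, x.2⟩
  invFun x := ⟨x.1, x.2⟩
  left_inv _ := rfl
  right_inv _ := rfl
  map_add' _ _ := rfl
  map_mul' _ _ := rfl

variable (F : Type*) [Field F] [ValuativeRel F] [TopologicalSpace F]
  [IsNonarchimedeanLocalField F] (E : Type*) [Field E] [Algebra F E]
  [FiniteDimensional F E] [IsGalois F E]

/-- The ring of integers of `E` is a local ring. -/
instance instLocalInt : IsLocalRing (intRing F E) := (intEquiv F E).symm.isLocalRing

/-- The `i`-th power of the maximal ideal of the ring of integers of `E`, as a subset of `E`. -/
def maxPow (i : ℕ) : Set E := {e | ∃ y ∈ maximalIdeal (intRing F E) ^ i, (y : E) = e}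

end Pool.Agent.Helper13.Swan
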