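import Pool.Agent.Helper13.Swan.LF3

set_option autoImplicit false

namespace Pool.Agent.Helper13.Swan

variable (F : Type*) [Field F] [ValuativeRel F] [TopologicalSpace F]
  [IsNonarchimedeanLocalField F] (E : Type*) [Field E] [Algebra F E]
  [FiniteDimensional F E] [IsGalois F E]

/-- The lower-numbering ramification groups: `G_i` consists of the `σ` in `Gal(E/F)` such that
`σ x ≡ x` modulo the `(i+1)`-st power of the maximal ideal of the ring of integers of `E`, for all
`x` in the ring of integers of `E`. -/
def ramGroup (i : ℕ) : Subgroup (E ≃ₐ[F] E) where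
  carrier := {σ | ∀ x ∈ intRing F E, σ x - x ∈ maxPow F E (i + 1)}
  one_mem' := (mem_lowerRam' F E i 1).1 (lowerRam F E i).one_mem
  mul_mem' ha hb := (mem_lowerRam' F E i _).1
    ((lowerRam F E i).mul_mem ((mem_lowerRam' F E i _).2 ha) ((mem_lowerRam' F E i _).2 hb))
  inv_mem' ha := (mem_lowerRam' F E i _).1
    ((lowerRam F E i).inv_mem ((mem_lowerRam' F E i _).2 ha))

end Pool.Agent.Helper13.Swan
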