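import Mathlib

set_option autoImplicit false

namespace Pool.Agent.Helper13.Swan

open TensorProduct

section

variable (V : Type*) [AddCommGroup V] [Module ℂ V]

/-- The subspace of `V ⊗ V` spanned by the tensors `x ⊗ y - y ⊗ x`. -/
def symSub : Submodule ℂ (V ⊗[ℂ] V) :=
  Submodule.span ℂ {t | ∃ x y : V, t = x ⊗ₜ[ℂ] y - y ⊗ₜ[ℂ] x}

/-- The subspace of `V ⊗ V` spanned by the tensors `x ⊗ x`. -/
def altSub : Submodule ℂ (V ⊗[ℂ] V) :=
  Submodule.span ℂ {t | ∃ x : V, t = x ⊗ₜ[ℂ] x}

/-- The symmetric square of `V`. -/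
abbrev SymSq : Type _ := (V ⊗[ℂ] V) ⧸ symSub V

/-- The exterior square of `V`. -/
abbrev AltSq : Type _ := (V ⊗[ℂ] V) ⧸ altSub V

variable {V}

theorem symSub_le (f : V →ₗ[ℂ] V) : symSub V ≤ (symSub V).comap (TensorProduct.map f f) := by
  unfold symSub
  rw [Submodule.span_le]
  rintro _ ⟨x, y, rfl⟩
  rw [SetLike.mem_coe, Submodule.mem_comap, map_sub, TensorProduct.map_tmul,
    TensorProduct.map_tmul]
  exact Submodule.subset_span ⟨f x, f y, rfl⟩

theorem altSub_le (f : V →ₗ[ℂ] V) : altSub V ≤ (altSub V).comap (TensorProduct.map f f) := by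
  unfold altSub
  rw [Submodule.span_le]
  rintro _ ⟨x, rfl⟩
  rw [SetLike.mem_coe, Submodule.mem_comap, TensorProduct.map_tmul]
  exact Submodule.subset_span ⟨f x, rfl⟩

/-- The endomorphism of the symmetric square induced by an endomorphism `f`. -/
noncomputable def symMap (f : V →ₗ[ℂ] V) : SymSq V →ₗ[ℂ] SymSq V :=
  (symSub V).mapQ (symSub V) (TensorProduct.map f f) (symSub_le f)

/-- The endomorphism of the exterior square induced by an endomorphism `f`. -/
noncomputable def altMap (f : V →ₗ[ℂ] V) : AltSq V →ₗ[ℂ] AltSq V :=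
  (altSub V).mapQ (altSub V) (TensorProduct.map f f) (altSub_le f)

theorem symMap_one : symMap (1 : V →ₗ[ℂ] V) = 1 := by
  unfold symMap
  apply Submodule.linearMap_qext
  ext x y
  simp

theorem symMap_mul (f g : V →ₗ[ℂ] V) : symMap (f * g) = symMap f * symMap g := by
  unfold symMap
  apply Submodule.linearMap_qext
  ext x y
  simp

theorem altMap_one : altMap (1 : V →ₗ[ℂ] V) = 1 := by
  unfold altMap
  apply Submodule.linearMap_qext
  ext x y
  simp

theorem altMap_mul (f g : V →ₗ[ℂ] V) : altMap (f * g) = altMap f * altMap g := by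
  unfold altMap
  apply Submodule.linearMap_qext
  ext x y
  simp

variable {G : Type*} [Monoid G]

/-- The symmetric square of a representation. -/
noncomputable def sym2 (ρ : Representation ℂ G V) : Representation ℂ G (SymSq V) where
  toFun g := symMap (ρ g)
  map_one' := by rw [map_one, symMap_one]
  map_mul' g h := by rw [map_mul, symMap_mul]

/-- The exterior square of a representation. -/
noncomputable def wedge2 (ρ : Representation ℂ G V) : Representation ℂ G (AltSq V) where
  toFun g := altMap (ρ g)
  map_one' := by rw [map_one, altMap_one]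
  map_mul' g h := by rw [map_mul, altMap_mul]

end

end Pool.Agent.Helper13.Swan
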