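import Mathlib

set_option autoImplicit false

namespace Pool.Agent.Helper13.Swan

variable {G : Type*} [Group G] {V : Type*} [AddCommGroup V] [Module ℂ V]

/-- The subspace of vectors fixed by a subgroup `H` under the representation `ρ`. -/
def fixedBy (ρ : Representation ℂ G V) (H : Subgroup G) : Submodule ℂ V where
  carrier := {v | ∀ h ∈ H, ρ h v = v}
  add_mem' ha hb h hh := by rw [map_add, ha h hh, hb h hh]
  zero_mem' h _ := by rw [map_zero]
  smul_mem' c v hv h hh := by rw [map_smul, hv h hh]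

/-- The Swan exponent of a representation with respect to a sequence of subgroups
`G_0, G_1, …`: the sum over `i ≥ 1` of `(|G_i| / |G_0|) · dim (V / V^{G_i})`. -/
noncomputable def swanOf (Gi : ℕ → Subgroup G) (ρ : Representation ℂ G V) : ℚ :=
  ∑ᶠ (i : ℕ) (_ : 1 ≤ i), (Nat.card (Gi i) : ℚ) / (Nat.card (Gi 0) : ℚ) *
    (Module.finrank ℂ (V ⧸ fixedBy ρ (Gi i)) : ℚ)

end Pool.Agent.Helper13.Swan
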