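import Pool.Agent.Helper13.Swan.Unram4

set_option autoImplicit false

namespace Pool.Agent.Helper13.Swan

open Finset IsLocalRing

/-- The main theorem for a complete discrete valuation ring with finite residue field of
characteristic two, and a finite `2`-group acting faithfully and trivially on the residue field. -/
theorem main_dvr.{u, v, r} {R : Type r} [CommRing R] [IsDomain R] [IsDiscreteValuationRing R]
    [IsAdicComplete (maximalIdeal R) R] [Finite (ResidueField R)] [CharP (ResidueField R) 2]
    {P : Type u} [Group P] [Fintype P] [MulSemiringAction P R] [FaithfulSMul P R]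
    (hP : IsPGroup 2 P)
    (htriv : ∀ (τ : P) (x : R), τ • x - x ∈ maximalIdeal R)
    (G : ℕ → Subgroup P) (hG : ∀ k τ, τ ∈ G k ↔ ∀ x : R, τ • x - x ∈ maximalIdeal R ^ (k + 1))
    (L : ℕ) (hL : G L = ⊥)
    (V : Type v) [AddCommGroup V] [Module ℂ V] [FiniteDimensional ℂ V]
    (ρ : Representation ℂ P V) : ∃ z : ℕ, S G L ρ = (z : ℂ) := by
  have : NeZero (Fintype.card P) := ⟨Fintype.card_ne_zero⟩
  obtain ⟨S', i1, i2, i3, i4, ι, φ, θ, hU⟩ := exists_unram hP htriv (Fintype.card P)
  exact unram_main hU (fun τ => pow_card_eq_one) hP G hG L hL V ρ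

end Pool.Agent.Helper13.Swan
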