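import Pool.Agent.Helper13.Swan.Squares
import Pool.Agent.Helper13.Swan.DefSwan

set_option autoImplicit false

namespace Pool.Agent.Helper13.Swan

open TensorProduct LinearMap Finset

section

variable {G : Type*} [Group G] {V : Type*} [AddCommGroup V] [Module ℂ V]

open scoped Classical in
theorem card_mul_finrank_fixedBy [Fintype G] [FiniteDimensional ℂ V] (ρ : Representation ℂ G V)
    (H : Subgroup G) :
    (Nat.card H : ℂ) * (Module.finrank ℂ (fixedBy ρ H) : ℂ) =
      ∑ h ∈ univ.filter (fun h => h ∈ H), trace ℂ V (ρ h) := by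
  have hne : (Nat.card H : ℂ) ≠ 0 := by
    have : Nat.card H ≠ 0 := Nat.card_pos.ne'
    exact_mod_cast this
  have : Invertible (Nat.card H : ℂ) := invertibleOfNonzero hne
  let ρ' : Representation ℂ H V := ρ.comp H.subtype
  have h1 := ρ'.card_inv_mul_sum_char_eq_finrank
  have h2 : fixedBy ρ H = ρ'.invariants := by
    ext v
    rw [Representation.mem_invariants]
    constructor
    · intro h g
      exact h g g.2
    · intro h g hg
      exact h ⟨g, hg⟩
  rw [h2, ← h1, mul_inv_cancel_left₀ hne]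
  rw [Finset.sum_subtype (univ.filter (fun h : G => h ∈ H)) (p := fun h => h ∈ H)
    (by intro x; simp)]
  rfl

open scoped Classical in
/-- The Swan exponent as a sum of traces. -/
theorem swanOf_eq [Fintype G] [FiniteDimensional ℂ V] (Gi : ℕ → Subgroup G) {L : ℕ}
    (hL : ∀ k, L < k → Gi k = ⊥) (ρ : Representation ℂ G V) :
    ((Nat.card (Gi 0) : ℚ) : ℂ) * ((swanOf Gi ρ : ℚ) : ℂ) =
      ∑ i ∈ Icc 1 L, ∑ n ∈ univ.filter (fun n => n ∈ Gi i),
        (trace ℂ V (ρ 1) - trace ℂ V (ρ n)) := by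
  have h0 : (Nat.card (Gi 0) : ℚ) ≠ 0 := by
    have : Nat.card (Gi 0) ≠ 0 := Nat.card_pos.ne'
    exact_mod_cast this
  have h1 : swanOf Gi ρ = ∑ i ∈ Icc 1 L, (Nat.card (Gi i) : ℚ) / (Nat.card (Gi 0) : ℚ) *
      (Module.finrank ℂ (V ⧸ fixedBy ρ (Gi i)) : ℚ) := by
    unfold swanOf
    apply finsum_cond_eq_sum_of_cond_iff
    intro i hi
    rw [mem_Icc]
    constructor
    · intro h
      refine ⟨h, ?_⟩
      by_contra hc
      push Not at hc
      apply hi
      have h2 : fixedBy ρ (Gi i) = ⊤ := by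
        rw [eq_top_iff]
        intro v _ h hh
        rw [hL i hc, Subgroup.mem_bot] at hh
        rw [hh, map_one]
        rfl
      rw [h2, Submodule.finrank_quotient]
      simp
    · intro h
      exact h.1
  rw [h1]
  push_cast
  rw [Finset.mul_sum]
  apply Finset.sum_congr rfl
  intro i _
  rw [Finset.sum_sub_distrib, ← card_mul_finrank_fixedBy, Finset.sum_const, map_one,
    LinearMap.trace_one]
  have h3 : Module.finrank ℂ (V ⧸ fixedBy ρ (Gi i)) + Module.finrank ℂ (fixedBy ρ (Gi i)) =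
      Module.finrank ℂ V := Submodule.finrank_quotient_add_finrank _
  have h4 : (Module.finrank ℂ (V ⧸ fixedBy ρ (Gi i)) : ℂ) =
      (Module.finrank ℂ V : ℂ) - (Module.finrank ℂ (fixedBy ρ (Gi i)) : ℂ) := by
    rw [← h3]
    push_cast
    ring
  have h5 : (univ.filter (fun n => n ∈ Gi i)).card = Nat.card (Gi i) := by
    rw [Nat.card_eq_fintype_card, Fintype.card_subtype]
  have h0' : (Nat.card (Gi 0) : ℂ) ≠ 0 := by exact_mod_cast h0
  rw [h4, h5, nsmul_eq_mul]
  field_simp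

open scoped Classical in
/-- Reduction of the inequality between Swan exponents to a sum of traces. -/
theorem swan_ineq [Fintype G] [FiniteDimensional ℂ V] (Gi : ℕ → Subgroup G) {L : ℕ}
    (hL : ∀ k, L < k → Gi k = ⊥) (ρ : Representation ℂ G V)
    (hS : ∃ z : ℕ, ∑ i ∈ Icc 1 L, ∑ n ∈ univ.filter (fun n => n ∈ Gi i),
        (trace ℂ V (ρ (n * n)) - trace ℂ V (ρ n)) = (z : ℂ)) :
    swanOf Gi (sym2 ρ) - swanOf Gi (wedge2 ρ) ≤ swanOf Gi ρ := by
  obtain ⟨z, hz⟩ := hS
  have e1 := swanOf_eq Gi hL ρ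
  have e2 := swanOf_eq Gi hL (sym2 ρ)
  have e3 := swanOf_eq Gi hL (wedge2 ρ)
  have h1 : ((Nat.card (Gi 0) : ℚ) : ℂ) *
      ((swanOf Gi ρ - (swanOf Gi (sym2 ρ) - swanOf Gi (wedge2 ρ)) : ℚ) : ℂ) = (z : ℂ) := by
    rw [← hz]
    push_cast at e1 e2 e3 ⊢
    rw [mul_sub, mul_sub, e1, e2, e3, ← Finset.sum_sub_distrib, ← Finset.sum_sub_distrib]
    apply Finset.sum_congr rfl
    intro i _
    rw [← Finset.sum_sub_distrib, ← Finset.sum_sub_distrib]
    apply Finset.sum_congr rfl
    intro n _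
    have h2 := trace_sq ρ n
    have h3 := trace_sq ρ 1
    rw [mul_one] at h3
    linear_combination h2 - h3
  have h2 : (Nat.card (Gi 0) : ℚ) *
      (swanOf Gi ρ - (swanOf Gi (sym2 ρ) - swanOf Gi (wedge2 ρ))) = (z : ℚ) := by
    exact_mod_cast h1
  have h0 : (0 : ℚ) < Nat.card (Gi 0) := by
    have : 0 < Nat.card (Gi 0) := Nat.card_pos
    exact_mod_cast this
  have h3 : (0 : ℚ) ≤ (z : ℚ) := by positivity
  rw [← h2] at h3
  have h4 := nonneg_of_mul_nonneg_right h3 h0
  linarith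

end

end Pool.Agent.Helper13.Swan
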