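import Pool.Agent.Helper13.Swan.DefRam
import Pool.Agent.Helper13.Swan.SwanDef
import Pool.Agent.Helper13.Swan.MainDvr

set_option autoImplicit false

namespace Pool.Agent.Helper13.Swan

open IsLocalRing ValuativeRel Finset

/-- The inequality between Swan exponents, for every nonarchimedean local field of residue
characteristic two, every finite Galois extension and every complex representation. -/
theorem main_local.{f, e, v} (F : Type f) [Field F] [ValuativeRel F] [TopologicalSpace F]
    [IsNonarchimedeanLocalField F] [CharP 𝓀[F] 2] (E : Type e) [Field E] [Algebra F E]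
    [FiniteDimensional F E] [IsGalois F E]
    (V : Type v) [AddCommGroup V] [Module ℂ V] [FiniteDimensional ℂ V]
    (ρ : Representation ℂ (E ≃ₐ[F] E) V) :
    swanOf (lowerRam F E) (sym2 ρ) - swanOf (lowerRam F E) (wedge2 ρ) ≤
      swanOf (lowerRam F E) ρ := by
  classical
  have : Fintype (E ≃ₐ[F] E) := Fintype.ofFinite _
  obtain ⟨L, hL⟩ := exists_lowerRam_bot F E
  have hL' : ∀ k, L < k → lowerRam F E k = ⊥ := by
    intro k hk
    rw [eq_bot_iff, ← hL]
    exact lowerRam_antitone F E hk.le
  apply swan_ineq (lowerRam F E) hL' ρ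
  set P := lowerRam F E 1 with hPdef
  have i1 := adic_OE F E
  have i2 := finite_res_OE F E
  have i3 := char_res_OE F E
  have hact : ∀ (τ : P) (x : OE F E), τ • x = ⟨(τ : E ≃ₐ[F] E) (x : E), gal_mem F E τ x⟩ :=
    fun τ x => rfl
  have hfaith : FaithfulSMul P (OE F E) := by
    constructor
    intro a b hab
    apply Subtype.ext
    ext t
    obtain ⟨x, y, _, rfl⟩ := IsFractionRing.div_surjective (OE F E) t
    have h1 : ∀ z : OE F E, (a : E ≃ₐ[F] E) (algebraMap (OE F E) E z) =
        (b : E ≃ₐ[F] E) (algebraMap (OE F E) E z) := by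
      intro z
      exact congrArg Subtype.val (hab z)
    rw [map_div₀, map_div₀, h1, h1]
  have hpg : IsPGroup 2 P := by
    intro τ
    refine ⟨L, ?_⟩
    apply Subtype.ext
    have h1 := pow_mem_lowerRam F E τ.2 L
    have h2 : (τ : E ≃ₐ[F] E) ^ (2 ^ L) ∈ (⊥ : Subgroup (E ≃ₐ[F] E)) := by
      rw [← hL]
      exact lowerRam_antitone F E (Nat.le_succ L) h1
    rw [Subgroup.mem_bot] at h2
    exact h2
  have htriv : ∀ (τ : P) (x : OE F E), τ • x - x ∈ maximalIdeal (OE F E) := by
    intro τ x
    have h1 := (mem_lowerRam F E 1 τ).1 τ.2 x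
    exact Ideal.pow_le_self (by norm_num) h1
  have hmain := main_dvr hpg htriv (fun k => (lowerRam F E k).subgroupOf P)
    (by
      intro k τ
      rw [Subgroup.mem_subgroupOf, mem_lowerRam]
      rfl)
    L (by simp only [hL]; exact Subgroup.bot_subgroupOf P) V (ρ.comp P.subtype)
  obtain ⟨z, hz⟩ := hmain
  refine ⟨z, ?_⟩
  rw [← hz]
  unfold S
  apply Finset.sum_congr rfl
  intro k hk
  rw [mem_Icc] at hk
  symm
  apply Finset.sum_nbij (fun n : P => (n : E ≃ₐ[F] E))
  · intro n hn
    rw [mem_filter] at hn ⊢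
    exact ⟨mem_univ _, hn.2⟩
  · intro a _ b _ hab
    exact Subtype.ext hab
  · intro n hn
    have hn' : n ∈ lowerRam F E k := by simpa using hn
    have hnP : n ∈ P := lowerRam_antitone F E hk.1 hn'
    refine ⟨⟨n, hnP⟩, ?_, rfl⟩
    simp only [coe_filter, mem_univ, true_and]
    exact hn'
  · intro n _
    rfl

theorem ramGroup_eq (F : Type*) [Field F] [ValuativeRel F] [TopologicalSpace F]
    [IsNonarchimedeanLocalField F] (E : Type*) [Field E] [Algebra F E]
    [FiniteDimensional F E] [IsGalois F E] : ramGroup F E = lowerRam F E := by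
  funext i
  ext σ
  exact (mem_lowerRam' F E i σ).symm

/-- The main theorem, with the ramification groups of the final statement. -/
theorem main_ram.{f, e, v} (F : Type f) [Field F] [ValuativeRel F] [TopologicalSpace F]
    [IsNonarchimedeanLocalField F] [CharP 𝓀[F] 2] (E : Type e) [Field E] [Algebra F E]
    [FiniteDimensional F E] [IsGalois F E]
    (V : Type v) [AddCommGroup V] [Module ℂ V] [FiniteDimensional ℂ V]
    (ρ : Representation ℂ (E ≃ₐ[F] E) V) :
    swanOf (ramGroup F E) (sym2 ρ) - swanOf (ramGroup F E) (wedge2 ρ) ≤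
      swanOf (ramGroup F E) ρ := by
  rw [ramGroup_eq]
  exact main_local F E V ρ

end Pool.Agent.Helper13.Swan
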