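import Mathlib

set_option autoImplicit false

namespace Pool.Agent.Helper13.Swan

open Finset

variable {P : Type*} [Group P]

/-- A linear character `f` (extended by zero) of a subgroup, adapted to a chain `N` of normal
subgroups. -/
structure IsGT (N : ℕ → Subgroup P) (f : P → ℂ) : Prop where
  one : f 1 = 1
  mul : ∀ a b, f a ≠ 0 → f (a * b) = f a * f b
  stab : ∀ r, ∀ s ∈ N (r + 1), (f s ≠ 0 ↔ ∀ g ∈ N r, f (s⁻¹ * g * s) = f g)

namespace IsGT

variable {N : ℕ → Subgroup P} {f : P → ℂ}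

theorem inv_ne (hf : IsGT N f) {a : P} (ha : f a ≠ 0) : f a⁻¹ ≠ 0 := by
  intro h
  have := hf.mul a a⁻¹ ha
  rw [mul_inv_cancel, hf.one, h, mul_zero] at this
  exact one_ne_zero this

theorem inv_eq (hf : IsGT N f) {a : P} (ha : f a ≠ 0) : f a⁻¹ = (f a)⁻¹ := by
  have := hf.mul a a⁻¹ ha
  rw [mul_inv_cancel, hf.one] at this
  field_simp
  rw [mul_comm]; exact this.symm

theorem mul' (hf : IsGT N f) (b : P) {a : P} (ha : f a ≠ 0) : f (b * a) = f b * f a := by
  by_cases hb : f b = 0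
  · by_cases hba : f (b * a) = 0
    · rw [hb, hba, zero_mul]
    · exfalso
      have h1 := hf.mul (b * a) a⁻¹ hba
      rw [mul_inv_cancel_right, hb] at h1
      have h2 := mul_ne_zero hba (hf.inv_ne ha)
      exact h2 h1.symm
  · exact hf.mul b a hb

theorem conj_eq (hf : IsGT N f) {h : P} (hh : f h ≠ 0) (x : P) : f (h⁻¹ * x * h) = f x := by
  rw [hf.mul' _ hh, hf.mul _ _ (hf.inv_ne hh), hf.inv_eq hh]
  field_simp

theorem conj_eq' (hf : IsGT N f) {h : P} (hh : f h ≠ 0) (x : P) : f (h * x * h⁻¹) = f x := by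
  have := hf.conj_eq (hf.inv_ne hh) x
  rwa [inv_inv] at this

/-- Self-normalising property. -/
theorem ne_zero_of_stab (hf : IsGT N f) (h0 : N 0 = ⊥) (hmono : Monotone N) (r : ℕ) {n : P}
    (hn : n ∈ N r) (h : ∀ g ∈ N r, f (n⁻¹ * g * n) = f g) : f n ≠ 0 := by
  cases r with
  | zero =>
    rw [h0, Subgroup.mem_bot] at hn
    rw [hn, hf.one]; exact one_ne_zero
  | succ r =>
    rw [hf.stab r n hn]
    intro g hg
    exact h g (hmono (Nat.le_succ r) hg)

/-- Two adapted characters which agree on the intersection of their supports are equal. -/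
theorem eq_of_agree {f' : P → ℂ} (hf : IsGT N f) (hf' : IsGT N f') (h0 : N 0 = ⊥)
    (hmono : Monotone N) (hnorm : ∀ r, (N r).Normal) (r : ℕ)
    (h : ∀ g ∈ N r, f g ≠ 0 → f' g ≠ 0 → f g = f' g) : ∀ g ∈ N r, f g = f' g := by
  induction r with
  | zero =>
    intro g hg
    rw [h0, Subgroup.mem_bot] at hg
    rw [hg, hf.one, hf'.one]
  | succ r ih =>
    have ih' := ih (fun g hg => h g (hmono (Nat.le_succ r) hg))
    intro g hg
    have key : f g ≠ 0 ↔ f' g ≠ 0 := by
      rw [hf.stab r g hg, hf'.stab r g hg]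
      constructor
      · intro hx x hxN
        have hc : g⁻¹ * x * g ∈ N r := by
          have := (hnorm r).conj_mem x hxN g⁻¹
          rwa [inv_inv] at this
        rw [← ih' _ hc, ← ih' _ hxN]; exact hx x hxN
      · intro hx x hxN
        have hc : g⁻¹ * x * g ∈ N r := by
          have := (hnorm r).conj_mem x hxN g⁻¹
          rwa [inv_inv] at this
        rw [ih' _ hc, ih' _ hxN]; exact hx x hxN
    by_cases h1 : f g = 0
    · by_cases h2 : f' g = 0
      · rw [h1, h2]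
      · exact absurd (key.2 h2) (by simpa using h1)
    · exact h g hg h1 (key.1 h1)

theorem conj (hf : IsGT N f) (hnorm : ∀ r, (N r).Normal) (x : P) :
    IsGT N (fun g => f (x⁻¹ * g * x)) where
  one := by simp [hf.one]
  mul a b ha := by
    have e : x⁻¹ * (a * b) * x = (x⁻¹ * a * x) * (x⁻¹ * b * x) := by group
    rw [e, hf.mul _ _ ha]
  stab r s hs := by
    have hs' : x⁻¹ * s * x ∈ N (r + 1) := by
      have := (hnorm (r + 1)).conj_mem s hs x⁻¹
      rwa [inv_inv] at this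
    rw [hf.stab r _ hs']
    constructor
    · intro h g hg
      have hg' : x⁻¹ * g * x ∈ N r := by
        have := (hnorm r).conj_mem g hg x⁻¹
        rwa [inv_inv] at this
      have := h _ hg'
      rw [← this]
      congr 1; group
    · intro h g hg
      have := h (x * g * x⁻¹) ((hnorm r).conj_mem g hg x)
      have e1 : x⁻¹ * (x * g * x⁻¹) * x = g := by group
      rw [e1] at this
      rw [← this]
      congr 1; group

theorem invf (hf : IsGT N f) : IsGT N (fun g => (f g)⁻¹) where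
  one := by simp [hf.one]
  mul a b ha := by
    have : f a ≠ 0 := by simpa using ha
    rw [hf.mul a b this, mul_inv]
  stab r s hs := by
    have h1 : (f s)⁻¹ ≠ 0 ↔ f s ≠ 0 := by simp
    rw [h1, hf.stab r s hs]
    simp only [inv_inj]

/-- The good elements at level `r`. -/
def Good (N : ℕ → Subgroup P) (f : P → ℂ) (r : ℕ) (n : P) : Prop :=
  n ∈ N r ∧ ∀ h ∈ N r, f (n⁻¹ * h * n) = (f h)⁻¹

section fin

variable [Fintype P]

open scoped Classical in
/-- The number of elements of `N r` in the support. -/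
noncomputable def hc (N : ℕ → Subgroup P) (f : P → ℂ) (r : ℕ) : ℕ :=
  (univ.filter (fun h => h ∈ N r ∧ f h ≠ 0)).card

open scoped Classical in
/-- The twisted indicator sum. -/
noncomputable def A (N : ℕ → Subgroup P) (f : P → ℂ) (r : ℕ) : ℂ :=
  ∑ n ∈ univ.filter (fun n => n ∈ N r), f (n * n)

open scoped Classical in
/-- The elements of the support at level `r` whose conjugate is in the support. -/
noncomputable def Q (N : ℕ → Subgroup P) (f : P → ℂ) (r : ℕ) (n : P) : Finset P :=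
  univ.filter (fun h => h ∈ N r ∧ f h ≠ 0 ∧ f (n⁻¹ * h * n) ≠ 0)

theorem mem_Q {r : ℕ} {n h : P} : h ∈ Q N f r n ↔ h ∈ N r ∧ f h ≠ 0 ∧ f (n⁻¹ * h * n) ≠ 0 := by
  classical
  simp [Q]

theorem one_mem_Q (hf : IsGT N f) {r : ℕ} {n : P} : (1 : P) ∈ Q N f r n := by
  rw [mem_Q]
  refine ⟨(N r).one_mem, ?_, ?_⟩
  · rw [hf.one]; exact one_ne_zero
  · rw [mul_one, inv_mul_cancel, hf.one]; exact one_ne_zero

theorem Q_mul (hf : IsGT N f) {r : ℕ} (n : P) {h : P} (hh : f h ≠ 0) :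
    Q N f r (n * h) = Q N f r n := by
  ext x
  rw [mem_Q, mem_Q]
  have e : (n * h)⁻¹ * x * (n * h) = h⁻¹ * (n⁻¹ * x * n) * h := by group
  rw [e, hf.conj_eq hh]

theorem sum_Q (hf : IsGT N f) (h0 : N 0 = ⊥) (hmono : Monotone N) (hnorm : ∀ r, (N r).Normal)
    (r : ℕ) {n : P} (hn : n ∈ N r) [Decidable (Good N f r n)] :
    ∑ h ∈ Q N f r n, f (n⁻¹ * h * n) * f h = if Good N f r n then ((Q N f r n).card : ℂ) else 0 := by
  classical
  split_ifs with hg
  · rw [Finset.cast_card]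
    apply Finset.sum_congr rfl
    intro h hh
    rw [mem_Q] at hh
    rw [hg.2 h hh.1, inv_mul_cancel₀ hh.2.1]
  · have hex : ∃ h ∈ Q N f r n, f (n⁻¹ * h * n) * f h ≠ 1 := by
      by_contra hc
      push Not at hc
      apply hg
      refine ⟨hn, ?_⟩
      have hagree := (hf.conj hnorm n).eq_of_agree hf.invf h0 hmono hnorm r
      apply hagree
      intro g hgN h1 h2
      have h2' : f g ≠ 0 := by simpa using h2
      have := hc g (mem_Q.2 ⟨hgN, h2', h1⟩)
      exact (mul_eq_one_iff_eq_inv₀ h2').1 this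
    obtain ⟨k, hk, hk1⟩ := hex
    rw [mem_Q] at hk
    have hsum : ∑ h ∈ Q N f r n, f (n⁻¹ * h * n) * f h =
        (f (n⁻¹ * k * n) * f k) * ∑ h ∈ Q N f r n, f (n⁻¹ * h * n) * f h := by
      rw [Finset.mul_sum]
      symm
      apply Finset.sum_bij' (fun h _ => k * h) (fun h _ => k⁻¹ * h)
      · intro h hh
        rw [mem_Q] at hh ⊢
        refine ⟨(N r).mul_mem hk.1 hh.1, ?_, ?_⟩
        · rw [hf.mul _ _ hk.2.1]; exact mul_ne_zero hk.2.1 hh.2.1
        · have e : n⁻¹ * (k * h) * n = (n⁻¹ * k * n) * (n⁻¹ * h * n) := by group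
          rw [e, hf.mul _ _ hk.2.2]; exact mul_ne_zero hk.2.2 hh.2.2
      · intro h hh
        rw [mem_Q] at hh ⊢
        have hk3 : f (n⁻¹ * k⁻¹ * n) ≠ 0 := by
          have e : n⁻¹ * k⁻¹ * n = (n⁻¹ * k * n)⁻¹ := by group
          rw [e]; exact hf.inv_ne hk.2.2
        refine ⟨(N r).mul_mem ((N r).inv_mem hk.1) hh.1, ?_, ?_⟩
        · rw [hf.mul _ _ (hf.inv_ne hk.2.1)]; exact mul_ne_zero (hf.inv_ne hk.2.1) hh.2.1
        · have e : n⁻¹ * (k⁻¹ * h) * n = (n⁻¹ * k⁻¹ * n) * (n⁻¹ * h * n) := by group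
          rw [e, hf.mul _ _ hk3]; exact mul_ne_zero hk3 hh.2.2
      · intro h _; group
      · intro h _; group
      · intro h hh
        have e : n⁻¹ * (k * h) * n = (n⁻¹ * k * n) * (n⁻¹ * h * n) := by group
        rw [e, hf.mul _ _ hk.2.2, hf.mul _ _ hk.2.1]
        ring
    have h3 : (1 - f (n⁻¹ * k * n) * f k) * ∑ h ∈ Q N f r n, f (n⁻¹ * h * n) * f h = 0 := by
      rw [sub_mul, one_mul, ← hsum, sub_self]
    rcases mul_eq_zero.1 h3 with h4 | h4
    · exact absurd (sub_eq_zero.1 h4).symm hk1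
    · exact h4

open scoped Classical in
theorem A_eq_sum_good (hf : IsGT N f) (h0 : N 0 = ⊥) (hmono : Monotone N)
    (hnorm : ∀ r, (N r).Normal) (r : ℕ) :
    A N f r = ∑ n ∈ univ.filter (fun n => Good N f r n), f (n * n) := by
  have step1 : ∑ n ∈ univ.filter (fun n => Good N f r n), f (n * n) =
      ∑ n : P, ∑ h : P, if n ∈ N r ∧ h ∈ Q N f r n then
        f ((n * h) * (n * h)) / ((Q N f r n).card : ℂ) else 0 := by
    rw [Finset.sum_filter]
    apply Finset.sum_congr rfl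
    intro n _
    by_cases hn : n ∈ N r
    · have hcard : ((Q N f r n).card : ℂ) ≠ 0 := by
        have : (Q N f r n).Nonempty := ⟨1, one_mem_Q hf⟩
        exact_mod_cast this.card_pos.ne'
      simp only [hn, true_and]
      rw [← Finset.sum_filter]
      have e1 : (univ.filter (fun h => h ∈ Q N f r n)) = Q N f r n := by ext; simp
      rw [e1]
      have e2 : ∀ h ∈ Q N f r n, f ((n * h) * (n * h)) / ((Q N f r n).card : ℂ) =
          (f (n * n) / ((Q N f r n).card : ℂ)) * (f (n⁻¹ * h * n) * f h) := by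
        intro h hh
        rw [mem_Q] at hh
        have e3 : (n * h) * (n * h) = (n * n) * ((n⁻¹ * h * n) * h) := by group
        rw [e3]
        have hne : f ((n⁻¹ * h * n) * h) ≠ 0 := by
          rw [hf.mul _ _ hh.2.2]; exact mul_ne_zero hh.2.2 hh.2.1
        rw [hf.mul' _ hne, hf.mul _ _ hh.2.2]
        ring
      rw [Finset.sum_congr rfl e2, ← Finset.mul_sum, sum_Q hf h0 hmono hnorm r hn]
      split_ifs with hg
      · field_simp
      · simp
    · have : ¬ Good N f r n := fun h => hn h.1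
      simp [hn, this]
  rw [step1]
  have step2 : ∑ n : P, ∑ h : P, (if n ∈ N r ∧ h ∈ Q N f r n then
        f ((n * h) * (n * h)) / ((Q N f r n).card : ℂ) else 0) =
      ∑ h : P, ∑ n : P, if n ∈ N r ∧ h ∈ Q N f r n then
        f (n * n) / ((Q N f r n).card : ℂ) else 0 := by
    rw [Finset.sum_comm]
    apply Finset.sum_congr rfl
    intro h _
    by_cases hh : h ∈ N r ∧ f h ≠ 0
    · apply Fintype.sum_equiv (Equiv.mulRight h)
      intro n
      have e : n * h ∈ N r ↔ n ∈ N r := Subgroup.mul_mem_cancel_right _ hh.1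
      simp only [Equiv.coe_mulRight, Q_mul hf n hh.2, e]
    · apply Finset.sum_congr rfl
      intro n _
      have : ¬ (n ∈ N r ∧ h ∈ Q N f r n) := by
        rintro ⟨_, h2⟩
        rw [mem_Q] at h2
        exact hh ⟨h2.1, h2.2.1⟩
      rw [if_neg this, if_neg this]
  rw [step2, Finset.sum_comm, A, Finset.sum_filter]
  apply Finset.sum_congr rfl
  intro n _
  by_cases hn : n ∈ N r
  · simp only [hn, true_and, if_true]
    rw [← Finset.sum_filter]
    have e1 : (univ.filter (fun h => h ∈ Q N f r n)) = Q N f r n := by ext; simp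
    rw [e1, Finset.sum_const, nsmul_eq_mul]
    have hcard : ((Q N f r n).card : ℂ) ≠ 0 := by
      have : (Q N f r n).Nonempty := ⟨1, one_mem_Q hf⟩
      exact_mod_cast this.card_pos.ne'
    field_simp
  · simp [hn]

/-- If `n₀` is good then the good elements are exactly `n₀ * h` with `h` in the support. -/
theorem A_of_good (hf : IsGT N f) (h0 : N 0 = ⊥) (hmono : Monotone N)
    (hnorm : ∀ r, (N r).Normal) (r : ℕ) {n₀ : P} (hn₀ : Good N f r n₀) :
    A N f r = (hc N f r : ℂ) * f (n₀ * n₀) := by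
  classical
  rw [A_eq_sum_good hf h0 hmono hnorm r]
  have hn0' : ∀ h ∈ N r, f (n₀ * h * n₀⁻¹) = (f h)⁻¹ := by
    intro h hh
    have h1 := hn₀.2 (n₀ * h * n₀⁻¹) ((hnorm r).conj_mem h hh n₀)
    have e : n₀⁻¹ * (n₀ * h * n₀⁻¹) * n₀ = h := by group
    rw [e] at h1
    rw [h1, inv_inv]
  have key : ∑ n ∈ univ.filter (fun n => Good N f r n), f (n * n) =
      ∑ h ∈ univ.filter (fun h => h ∈ N r ∧ f h ≠ 0), f (n₀ * n₀) := by
    apply Finset.sum_bij' (fun n _ => n₀⁻¹ * n) (fun h _ => n₀ * h)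
    · intro n hn
      simp only [Finset.mem_filter, Finset.mem_univ, true_and] at hn ⊢
      refine ⟨(N r).mul_mem ((N r).inv_mem hn₀.1) hn.1, ?_⟩
      apply hf.ne_zero_of_stab h0 hmono r ((N r).mul_mem ((N r).inv_mem hn₀.1) hn.1)
      intro g hg
      have e : (n₀⁻¹ * n)⁻¹ * g * (n₀⁻¹ * n) = n⁻¹ * (n₀ * g * n₀⁻¹) * n := by group
      rw [e, hn.2 _ ((hnorm r).conj_mem g hg n₀), hn0' g hg, inv_inv]
    · intro h hh
      simp only [Finset.mem_filter, Finset.mem_univ, true_and] at hh ⊢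
      refine ⟨(N r).mul_mem hn₀.1 hh.1, ?_⟩
      intro x hx
      have e : (n₀ * h)⁻¹ * x * (n₀ * h) = h⁻¹ * (n₀⁻¹ * x * n₀) * h := by group
      rw [e, hf.conj_eq hh.2, hn₀.2 x hx]
    · intro n _; group
    · intro h _; group
    · intro n hn
      simp only [Finset.mem_filter, Finset.mem_univ, true_and] at hn
      set h := n₀⁻¹ * n with hh
      have hn' : n = n₀ * h := by rw [hh]; group
      have hhN : h ∈ N r := (N r).mul_mem ((N r).inv_mem hn₀.1) hn.1
      have hh0 : f h ≠ 0 := by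
        apply hf.ne_zero_of_stab h0 hmono r hhN
        intro g hg
        have e : h⁻¹ * g * h = n⁻¹ * (n₀ * g * n₀⁻¹) * n := by rw [hh]; group
        rw [e, hn.2 _ ((hnorm r).conj_mem g hg n₀), hn0' g hg, inv_inv]
      have e2 : f (n₀⁻¹ * h * n₀) ≠ 0 := by
        rw [hn₀.2 h hhN]; simpa using hh0
      have e3 : n * n = (n₀ * n₀) * ((n₀⁻¹ * h * n₀) * h) := by rw [hn']; group
      have hne : f ((n₀⁻¹ * h * n₀) * h) ≠ 0 := by
        rw [hf.mul _ _ e2]; exact mul_ne_zero e2 hh0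
      rw [e3, hf.mul' _ hne, hf.mul _ _ e2, hn₀.2 h hhN, inv_mul_cancel₀ hh0, mul_one]
  rw [key, Finset.sum_const, nsmul_eq_mul, hc]

omit [Fintype P] in
theorem sq_eq (hf : IsGT N f) (h0 : N 0 = ⊥) (hmono : Monotone N)
    (hnorm : ∀ r, (N r).Normal) (r : ℕ) {n₀ : P} (hn₀ : Good N f r n₀) :
    f (n₀ * n₀) = 1 ∨ f (n₀ * n₀) = -1 := by
  have hN : n₀ * n₀ ∈ N r := (N r).mul_mem hn₀.1 hn₀.1
  have hne : f (n₀ * n₀) ≠ 0 := by
    apply hf.ne_zero_of_stab h0 hmono r hN
    intro g hg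
    have e : (n₀ * n₀)⁻¹ * g * (n₀ * n₀) = n₀⁻¹ * (n₀⁻¹ * g * n₀) * n₀ := by group
    have hc : n₀⁻¹ * g * n₀ ∈ N r := by
      have := (hnorm r).conj_mem g hg n₀⁻¹
      rwa [inv_inv] at this
    rw [e, hn₀.2 _ hc, hn₀.2 g hg, inv_inv]
  have h1 := hn₀.2 _ hN
  have e : n₀⁻¹ * (n₀ * n₀) * n₀ = n₀ * n₀ := by group
  rw [e] at h1
  exact mul_self_eq_one_iff.1 ((mul_eq_one_iff_eq_inv₀ hne).2 h1)

theorem A_of_no_good (hf : IsGT N f) (h0 : N 0 = ⊥) (hmono : Monotone N)
    (hnorm : ∀ r, (N r).Normal) (r : ℕ) (h : ∀ n, ¬ Good N f r n) : A N f r = 0 := by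
  classical
  rw [A_eq_sum_good hf h0 hmono hnorm r]
  rw [Finset.filter_false_of_mem (fun n _ => h n), Finset.sum_empty]

omit [Fintype P] in
/-- A good element normalises the whole support. -/
theorem good_normalizes (hf : IsGT N f) (h0 : N 0 = ⊥) (hmono : Monotone N)
    (hnorm : ∀ r, (N r).Normal) (r : ℕ) {n : P} (hn : Good N f r n) {h : P} (hh : f h ≠ 0) :
    f (n⁻¹ * h * n) ≠ 0 := by
  have hn0' : ∀ h ∈ N r, f (n * h * n⁻¹) = (f h)⁻¹ := by
    intro h hh
    have h1 := hn.2 (n * h * n⁻¹) ((hnorm r).conj_mem h hh n)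
    have e : n⁻¹ * (n * h * n⁻¹) * n = h := by group
    rw [e] at h1
    rw [h1, inv_inv]
  set c := h⁻¹ * n⁻¹ * h * n with hc
  have e : n⁻¹ * h * n = h * c := by rw [hc]; group
  have hcN : c ∈ N r := by
    have h1 : h⁻¹ * n⁻¹ * h ∈ N r := by
      have := (hnorm r).conj_mem n⁻¹ ((N r).inv_mem hn.1) h⁻¹
      rwa [inv_inv] at this
    exact (N r).mul_mem h1 hn.1
  have hc0 : f c ≠ 0 := by
    apply hf.ne_zero_of_stab h0 hmono r hcN
    intro x hx
    have hx1 : h * x * h⁻¹ ∈ N r := (hnorm r).conj_mem x hx h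
    have hx2 : n * (h * x * h⁻¹) * n⁻¹ ∈ N r := (hnorm r).conj_mem _ hx1 n
    have hx3 : h⁻¹ * (n * (h * x * h⁻¹) * n⁻¹) * h ∈ N r := by
      have := (hnorm r).conj_mem _ hx2 h⁻¹
      rwa [inv_inv] at this
    have e1 : c⁻¹ * x * c = n⁻¹ * (h⁻¹ * (n * (h * x * h⁻¹) * n⁻¹) * h) * n := by
      rw [hc]; group
    rw [e1, hn.2 _ hx3, hf.conj_eq hh, hn0' _ hx1, inv_inv, hf.conj_eq' hh]
  rw [e, hf.mul _ _ hh]
  exact mul_ne_zero hh hc0

end fin

end IsGT

end Pool.Agent.Helper13.Swan
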