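import Pool.Agent.Helper13.Swan.GT

set_option autoImplicit false

namespace Pool.Agent.Helper13.Swan

open Finset

variable {P : Type*} [Group P] {V : Type*} [AddCommGroup V] [Module ℂ V]

/-- Partial adapted character up to level `r`, together with an eigenvector. -/
structure Lev (N : ℕ → Subgroup P) (ρ : Representation ℂ P V) (r : ℕ) (f : P → ℂ) (d : V) :
    Prop where
  one : f 1 = 1
  mul : ∀ a b, f a ≠ 0 → f (a * b) = f a * f b
  supp : ∀ g, f g ≠ 0 → g ∈ N r
  stab : ∀ r' < r, ∀ s ∈ N (r' + 1), (f s ≠ 0 ↔ ∀ g ∈ N r', f (s⁻¹ * g * s) = f g)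
  ne : d ≠ 0
  eig : ∀ g, f g ≠ 0 → ρ g d = f g • d

namespace Lev

variable {N : ℕ → Subgroup P} {ρ : Representation ℂ P V} {r : ℕ} {f : P → ℂ} {d : V}

theorem inv_ne (hf : Lev N ρ r f d) {a : P} (ha : f a ≠ 0) : f a⁻¹ ≠ 0 := by
  intro h
  have := hf.mul a a⁻¹ ha
  rw [mul_inv_cancel, hf.one, h, mul_zero] at this
  exact one_ne_zero this

theorem inv_eq (hf : Lev N ρ r f d) {a : P} (ha : f a ≠ 0) : f a⁻¹ = (f a)⁻¹ := by
  have := hf.mul a a⁻¹ ha
  rw [mul_inv_cancel, hf.one] at this
  field_simp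
  rw [mul_comm]; exact this.symm

theorem mul' (hf : Lev N ρ r f d) (b : P) {a : P} (ha : f a ≠ 0) : f (b * a) = f b * f a := by
  by_cases hb : f b = 0
  · by_cases hba : f (b * a) = 0
    · rw [hb, hba, zero_mul]
    · exfalso
      have h1 := hf.mul (b * a) a⁻¹ hba
      rw [mul_inv_cancel_right, hb] at h1
      have h2 := mul_ne_zero hba (hf.inv_ne ha)
      exact h2 h1.symm
  · exact hf.mul b a hb

theorem conj_eq (hf : Lev N ρ r f d) {h : P} (hh : f h ≠ 0) (x : P) : f (h⁻¹ * x * h) = f x := by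
  rw [hf.mul' _ hh, hf.mul _ _ (hf.inv_ne hh), hf.inv_eq hh]
  field_simp

theorem ne_zero_of_stab (hf : Lev N ρ r f d) (h0 : N 0 = ⊥) (hmono : Monotone N) {n : P}
    (hn : n ∈ N r) (h : ∀ g ∈ N r, f (n⁻¹ * g * n) = f g) : f n ≠ 0 := by
  cases r with
  | zero =>
    rw [h0, Subgroup.mem_bot] at hn
    rw [hn, hf.one]; exact one_ne_zero
  | succ r =>
    rw [hf.stab r (Nat.lt_succ_self r) n hn]
    intro g hg
    exact h g (hmono (Nat.le_succ r) hg)

theorem step (hf : Lev N ρ r f d) (h0 : N 0 = ⊥) (hmono : Monotone N)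
    (hnorm : ∀ r, (N r).Normal)
    (hidx : ∀ r, ∀ a ∈ N (r + 1), ∀ b ∈ N (r + 1), a ∉ N r → b ∉ N r → a * b ∈ N r) :
    ∃ (f' : P → ℂ) (d' : V), Lev N ρ (r + 1) f' d' := by
  classical
  by_cases hcase : ∀ s ∈ N (r + 1), (∀ g ∈ N r, f (s⁻¹ * g * s) = f g) → s ∈ N r
  · refine ⟨f, d, hf.one, hf.mul, fun g hg => hmono (Nat.le_succ r) (hf.supp g hg), ?_, hf.ne,
      hf.eig⟩
    intro r' hr' s hs
    rcases Nat.lt_or_ge r' r with h | h
    · exact hf.stab r' h s hs
    · have e : r' = r := by omega
      subst e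
      constructor
      · intro h1 g _
        exact hf.conj_eq h1 g
      · intro h1
        exact hf.ne_zero_of_stab h0 hmono (hcase s hs h1) h1
  · push Not at hcase
    obtain ⟨s0, hs0, hs0S, hs0N⟩ := hcase
    have hs0i : s0⁻¹ ∉ N r := fun h => hs0N (by simpa using (N r).inv_mem h)
    have hs02 : s0 * s0 ∈ N r := hidx r s0 hs0 s0 hs0 hs0N hs0N
    have hconjmem : ∀ g ∈ N r, s0⁻¹ * g * s0 ∈ N r := by
      intro g hg
      have := (hnorm r).conj_mem g hg s0⁻¹
      rwa [inv_inv] at this
    have hs02f : f (s0 * s0) ≠ 0 := by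
      apply hf.ne_zero_of_stab h0 hmono hs02
      intro g hg
      have e : (s0 * s0)⁻¹ * g * (s0 * s0) = s0⁻¹ * (s0⁻¹ * g * s0) * s0 := by group
      rw [e, hs0S _ (hconjmem g hg), hs0S g hg]
    obtain ⟨μ, hμ⟩ := IsAlgClosed.exists_pow_nat_eq (f (s0 * s0)) (n := 2) (by norm_num)
    have hμ2 : μ * μ = f (s0 * s0) := by rw [← hμ]; ring
    -- `s0` preserves the isotypic space
    have hpres : ∀ v : V, (∀ g, f g ≠ 0 → ρ g v = f g • v) →
        ∀ g, f g ≠ 0 → ρ g (ρ s0 v) = f g • ρ s0 v := by
      intro v hv g hg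
      have hgN : g ∈ N r := hf.supp g hg
      have h1 : f (s0⁻¹ * g * s0) = f g := hs0S g hgN
      have h2 : f (s0⁻¹ * g * s0) ≠ 0 := by rw [h1]; exact hg
      have e : g * s0 = s0 * (s0⁻¹ * g * s0) := by group
      rw [← Module.End.mul_apply, ← map_mul, e, map_mul, Module.End.mul_apply, hv _ h2, h1,
        map_smul]
    have hsq : ρ s0 (ρ s0 d) = (μ * μ) • d := by
      rw [← Module.End.mul_apply, ← map_mul, hf.eig _ hs02f, hμ2]
    have hex : ∃ (d' : V) (μ' : ℂ), d' ≠ 0 ∧ μ' * μ' = f (s0 * s0) ∧ ρ s0 d' = μ' • d' ∧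
        ∀ g, f g ≠ 0 → ρ g d' = f g • d' := by
      by_cases hd : ρ s0 d + μ • d = 0
      · refine ⟨d, -μ, hf.ne, by rw [← hμ2]; ring, ?_, hf.eig⟩
        rw [neg_smul]
        exact eq_neg_of_add_eq_zero_left hd
      · refine ⟨ρ s0 d + μ • d, μ, hd, hμ2, ?_, ?_⟩
        · rw [map_add, map_smul, hsq, smul_add, smul_smul, add_comm]
        · intro g hg
          rw [map_add, map_smul, hpres d hf.eig g hg, hf.eig g hg, smul_add, smul_comm]
    obtain ⟨d', μ', hd', hμ', hs0d, hgd⟩ := hex
    have hμ'0 : μ' ≠ 0 := by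
      intro h
      rw [h, zero_mul] at hμ'
      exact hs02f hμ'.symm
    refine ⟨fun x => if x ∈ N r then f x else μ' * f (s0⁻¹ * x), d', ?_, ?_, ?_, ?_, hd', ?_⟩
    · simp [(N r).one_mem, hf.one]
    · intro a b ha
      by_cases haN : a ∈ N r
      · rw [if_pos haN] at ha ⊢
        by_cases hbN : b ∈ N r
        · rw [if_pos hbN, if_pos ((N r).mul_mem haN hbN), hf.mul _ _ ha]
        · have hab : a * b ∉ N r := fun h => hbN ((Subgroup.mul_mem_cancel_left _ haN).1 h)
          rw [if_neg hbN, if_neg hab]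
          have e : s0⁻¹ * (a * b) = (s0⁻¹ * a * s0) * (s0⁻¹ * b) := by group
          have h1 := hs0S a haN
          have h2 : f (s0⁻¹ * a * s0) ≠ 0 := by rw [h1]; exact ha
          rw [e, hf.mul _ _ h2, h1]
          ring
      · rw [if_neg haN] at ha ⊢
        have hc : f (s0⁻¹ * a) ≠ 0 := fun h => ha (by rw [h, mul_zero])
        have hcN : s0⁻¹ * a ∈ N r := hf.supp _ hc
        by_cases hbN : b ∈ N r
        · have hab : a * b ∉ N r := fun h => haN ((Subgroup.mul_mem_cancel_right _ hbN).1 h)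
          rw [if_neg hab, if_pos hbN, ← mul_assoc, hf.mul _ _ hc]
          ring
        · rw [if_neg hbN]
          by_cases hab : a * b ∈ N r
          · rw [if_pos hab]
            have h1 := hs0S _ hcN
            have h2 : f (s0⁻¹ * (s0⁻¹ * a) * s0) ≠ 0 := by rw [h1]; exact hc
            have e : a * b = (s0 * s0) * ((s0⁻¹ * (s0⁻¹ * a) * s0) * (s0⁻¹ * b)) := by group
            rw [e, hf.mul _ _ hs02f, hf.mul _ _ h2, h1, ← hμ']
            ring
          · rw [if_neg hab]
            have haN1 : a ∈ N (r + 1) := by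
              have h3 : s0 * (s0⁻¹ * a) ∈ N (r + 1) :=
                (N (r + 1)).mul_mem hs0 (hmono (Nat.le_succ r) hcN)
              have e : s0 * (s0⁻¹ * a) = a := by group
              rwa [e] at h3
            have hbN1 : b ∉ N (r + 1) := fun h => hab (hidx r a haN1 b h haN hbN)
            have hz1 : f (s0⁻¹ * b) = 0 := by
              by_contra hz
              have h3 : s0 * (s0⁻¹ * b) ∈ N (r + 1) :=
                (N (r + 1)).mul_mem hs0 (hmono (Nat.le_succ r) (hf.supp _ hz))
              have e : s0 * (s0⁻¹ * b) = b := by group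
              rw [e] at h3
              exact hbN1 h3
            have hz2 : f (s0⁻¹ * (a * b)) = 0 := by
              by_contra hz
              have h3 := hf.supp _ hz
              rw [← mul_assoc] at h3
              exact hbN ((Subgroup.mul_mem_cancel_left _ hcN).1 h3)
            rw [hz1, hz2]
            ring
    · intro g hg
      by_cases hgN : g ∈ N r
      · exact hmono (Nat.le_succ r) hgN
      · simp only [if_neg hgN] at hg
        have hc : f (s0⁻¹ * g) ≠ 0 := fun h => hg (by rw [h, mul_zero])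
        have h3 : s0 * (s0⁻¹ * g) ∈ N (r + 1) :=
          (N (r + 1)).mul_mem hs0 (hmono (Nat.le_succ r) (hf.supp _ hc))
        have e : s0 * (s0⁻¹ * g) = g := by group
        rwa [e] at h3
    · intro r' hr' s hs
      rcases Nat.lt_or_ge r' r with h | h
      · have hsN : s ∈ N r := hmono h hs
        rw [if_pos hsN, hf.stab r' h s hs]
        constructor
        · intro h1 g hg
          have hgN : g ∈ N r := hmono h.le hg
          have hcN : s⁻¹ * g * s ∈ N r := (N r).mul_mem ((N r).mul_mem ((N r).inv_mem hsN) hgN) hsN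
          rw [if_pos hcN, if_pos hgN]
          exact h1 g hg
        · intro h1 g hg
          have hgN : g ∈ N r := hmono h.le hg
          have hcN : s⁻¹ * g * s ∈ N r := (N r).mul_mem ((N r).mul_mem ((N r).inv_mem hsN) hgN) hsN
          have := h1 g hg
          rwa [if_pos hcN, if_pos hgN] at this
      · have e : r' = r := by omega
        subst e
        have hsimp : (∀ g ∈ N r', (if s⁻¹ * g * s ∈ N r' then f (s⁻¹ * g * s) else
            μ' * f (s0⁻¹ * (s⁻¹ * g * s))) = if g ∈ N r' then f g else μ' * f (s0⁻¹ * g)) ↔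
            ∀ g ∈ N r', f (s⁻¹ * g * s) = f g := by
          have hc : ∀ g ∈ N r', s⁻¹ * g * s ∈ N r' := by
            intro g hg
            have := (hnorm r').conj_mem g hg s⁻¹
            rwa [inv_inv] at this
          constructor
          · intro h1 g hg
            have := h1 g hg
            rwa [if_pos (hc g hg), if_pos hg] at this
          · intro h1 g hg
            rw [if_pos (hc g hg), if_pos hg]
            exact h1 g hg
        rw [hsimp]
        by_cases hsN : s ∈ N r'
        · rw [if_pos hsN]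
          constructor
          · intro h1 g _
            exact hf.conj_eq h1 g
          · intro h1
            exact hf.ne_zero_of_stab h0 hmono hsN h1
        · rw [if_neg hsN]
          constructor
          · intro h1 g hg
            have hc : f (s0⁻¹ * s) ≠ 0 := fun h => h1 (by rw [h, mul_zero])
            have e : s⁻¹ * g * s = (s0⁻¹ * s)⁻¹ * (s0⁻¹ * g * s0) * (s0⁻¹ * s) := by group
            rw [e, hf.conj_eq hc, hs0S g hg]
          · intro h1
            apply mul_ne_zero hμ'0
            have hcN : s0⁻¹ * s ∈ N r' :=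
              hidx r' s0⁻¹ ((N (r' + 1)).inv_mem hs0) s hs hs0i hsN
            apply hf.ne_zero_of_stab h0 hmono hcN
            intro g hg
            have e : (s0⁻¹ * s)⁻¹ * g * (s0⁻¹ * s) = s⁻¹ * (s0 * g * s0⁻¹) * s := by group
            have hg' : s0 * g * s0⁻¹ ∈ N r' := (hnorm r').conj_mem g hg s0
            rw [e, h1 _ hg']
            have h4 := hs0S _ hg'
            have e2 : s0⁻¹ * (s0 * g * s0⁻¹) * s0 = g := by group
            rw [e2] at h4
            exact h4.symm
    · intro g hg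
      by_cases hgN : g ∈ N r
      · simp only [if_pos hgN] at hg ⊢
        exact hgd g hg
      · simp only [if_neg hgN] at hg ⊢
        have hc : f (s0⁻¹ * g) ≠ 0 := fun h => hg (by rw [h, mul_zero])
        have e : g = s0 * (s0⁻¹ * g) := by group
        have e2 : ρ g d' = ρ s0 (ρ (s0⁻¹ * g) d') := by
          rw [← Module.End.mul_apply, ← map_mul, ← e]
        rw [e2, hgd _ hc, map_smul, hs0d, smul_smul, mul_comm]

end Lev

theorem exists_isGT {N : ℕ → Subgroup P} (ρ : Representation ℂ P V) (h0 : N 0 = ⊥)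
    (hmono : Monotone N) (hnorm : ∀ r, (N r).Normal)
    (hidx : ∀ r, ∀ a ∈ N (r + 1), ∀ b ∈ N (r + 1), a ∉ N r → b ∉ N r → a * b ∈ N r)
    {K : ℕ} (hK : N K = ⊤) [Nontrivial V] :
    ∃ (f : P → ℂ) (d : V), IsGT N f ∧ d ≠ 0 ∧ ∀ g, f g ≠ 0 → ρ g d = f g • d := by
  classical
  obtain ⟨v, hv⟩ := exists_ne (0 : V)
  have hall : ∀ r, ∃ (f : P → ℂ) (d : V), Lev N ρ r f d := by
    intro r
    induction r with
    | zero =>
      refine ⟨fun x => if x = 1 then 1 else 0, v, by simp, ?_, ?_, ?_, hv, ?_⟩
      · intro a b ha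
        have : a = 1 := by by_contra h; simp [h] at ha
        subst this
        simp
      · intro g hg
        have : g = 1 := by by_contra h; simp [h] at hg
        rw [this]; exact (N 0).one_mem
      · intro r' hr'; omega
      · intro g hg
        have : g = 1 := by by_contra h; simp [h] at hg
        subst this
        simp
    | succ r ih =>
      obtain ⟨f, d, hf⟩ := ih
      exact hf.step h0 hmono hnorm hidx
  obtain ⟨f, d, hf⟩ := hall K
  refine ⟨f, d, ⟨hf.one, hf.mul, ?_⟩, hf.ne, hf.eig⟩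
  intro r s hs
  rcases Nat.lt_or_ge r K with h | h
  · exact hf.stab r h s hs
  · have hr : N r = ⊤ := by
      rw [eq_top_iff, ← hK]; exact hmono h
    constructor
    · intro h1 g _
      exact hf.conj_eq h1 g
    · intro h1
      apply hf.ne_zero_of_stab h0 hmono (by rw [hK]; trivial)
      intro g _
      exact h1 g (by rw [hr]; trivial)

end Pool.Agent.Helper13.Swan
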