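import Pool.Agent.Helper13.Swan.Trace

set_option autoImplicit false

namespace Pool.Agent.Helper13.Swan

open Finset

variable {P : Type*} [Group P] [Fintype P]

open scoped Classical in
/-- Number of elements of the support of `f` lying in the subgroup `R`. -/
noncomputable def cnt (f : P → ℂ) (R : Subgroup P) : ℕ :=
  (univ.filter (fun h => h ∈ R ∧ f h ≠ 0)).card

open scoped Classical in
/-- The key inequality, as a hypothesis on a filtration and a character. -/
def KeyIneq (R : ℕ → Subgroup P) (L : ℕ) (f : P → ℂ) : Prop :=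
  ∀ i j : ℕ, 1 ≤ i → 1 ≤ j → ∀ g ∈ R i, (∀ h, f h ≠ 0 → f (g⁻¹ * h * g) ≠ 0) →
    ∀ h ∈ R j, f h ≠ 0 → f (g * h * g⁻¹) ≠ f h →
    ∑ k ∈ Icc 1 i, cnt f (R k) + ∑ k ∈ Icc 1 j, cnt f (R k) ≤
      ∑ k ∈ Icc 1 L, if (∃ h ∈ R k, f h ≠ 0 ∧ f h ≠ 1) then cnt f (R k) else 0

open scoped Classical in
theorem sum_lin {N : ℕ → Subgroup P} {f : P → ℂ} (hf : IsGT N f) (R : Subgroup P) :
    ∑ n ∈ univ.filter (fun n => n ∈ R), f n =
      if (∃ h ∈ R, f h ≠ 0 ∧ f h ≠ 1) then 0 else (cnt f R : ℂ) := by
  split_ifs with hex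
  · obtain ⟨k, hkR, hk0, hk1⟩ := hex
    have hsum : ∑ n ∈ univ.filter (fun n => n ∈ R), f n =
        f k * ∑ n ∈ univ.filter (fun n => n ∈ R), f n := by
      rw [Finset.mul_sum]
      symm
      apply Finset.sum_bij' (fun n _ => k * n) (fun n _ => k⁻¹ * n)
      · intro n hn
        simp only [Finset.mem_filter, Finset.mem_univ, true_and] at hn ⊢
        exact R.mul_mem hkR hn
      · intro n hn
        simp only [Finset.mem_filter, Finset.mem_univ, true_and] at hn ⊢
        exact R.mul_mem (R.inv_mem hkR) hn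
      · intro n _; group
      · intro n _; group
      · intro n _
        rw [hf.mul _ _ hk0]
    have h3 : (1 - f k) * ∑ n ∈ univ.filter (fun n => n ∈ R), f n = 0 := by
      rw [sub_mul, one_mul, ← hsum, sub_self]
    rcases mul_eq_zero.1 h3 with h4 | h4
    · exact absurd (sub_eq_zero.1 h4).symm hk1
    · exact h4
  · push Not at hex
    unfold cnt
    rw [Finset.cast_card]
    rw [Finset.sum_filter, Finset.sum_filter]
    apply Finset.sum_congr rfl
    intro n _
    by_cases hn : n ∈ R
    · by_cases h0 : f n = 0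
      · simp [h0]
      · rw [if_pos hn, if_pos ⟨hn, h0⟩, hex n hn h0]
    · rw [if_neg hn, if_neg (fun h => hn h.1)]

variable {V : Type*} [AddCommGroup V] [Module ℂ V] [FiniteDimensional ℂ V]

open scoped Classical in
/-- Nonnegativity for irreducible representations. -/
theorem irr_nonneg {N R : ℕ → Subgroup P} (ρ : Representation ℂ P V) (hρ : Irr ρ) {f : P → ℂ}
    (hf : IsGT N f) (h0 : N 0 = ⊥) (hmono : Monotone N) (hnorm : ∀ r, (N r).Normal) {K : ℕ}
    (hK : N K = ⊤) {d : V} (hd : d ≠ 0) (hde : ∀ g, f g ≠ 0 → ρ g d = f g • d)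
    (hR : Antitone R) (hNR : ∀ i, 1 ≤ i → ∃ r, N r = R i) (L : ℕ) (hkey : KeyIneq R L f) :
    ∃ z : ℕ, ∑ k ∈ Icc 1 L, ∑ n ∈ univ.filter (fun n => n ∈ R k),
      (LinearMap.trace ℂ V (ρ (n * n)) - LinearMap.trace ℂ V (ρ n)) = (z : ℂ) := by
  -- the local indicator
  have hloc : ∀ k, 1 ≤ k → ∃ ε : ℤ, (ε = 0 ∨ ε = 1 ∨ ε = -1) ∧
      (∑ n ∈ univ.filter (fun n => n ∈ R k), f (n * n) = (cnt f (R k) : ℂ) * (ε : ℂ)) ∧
      ((∀ h ∈ R k, f h ≠ 0 → f h * f h = 1) → ε = 1) ∧
      (ε = -1 → ∃ n ∈ R k, (∀ h ∈ R k, f (n⁻¹ * h * n) = (f h)⁻¹) ∧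
        (∀ h, f h ≠ 0 → f (n⁻¹ * h * n) ≠ 0)) := by
    intro k hk
    obtain ⟨r, hr⟩ := hNR k hk
    have hA : IsGT.A N f r = ∑ n ∈ univ.filter (fun n => n ∈ R k), f (n * n) := by
      unfold IsGT.A; rw [hr]
    have hcn : IsGT.hc N f r = cnt f (R k) := by
      unfold IsGT.hc cnt; rw [hr]
    have hgood1 : (∀ h ∈ R k, f h ≠ 0 → f h * f h = 1) → IsGT.Good N f r 1 := by
      intro h
      refine ⟨(N r).one_mem, ?_⟩
      intro x hx
      rw [hr] at hx
      by_cases hx0 : f x = 0
      · simp [hx0]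
      · have h1 := h x hx hx0
        have e : (1 : P)⁻¹ * x * 1 = x := by group
        rw [e]
        exact (mul_eq_one_iff_eq_inv₀ hx0).1 h1
    by_cases hex : ∃ n, IsGT.Good N f r n
    · obtain ⟨n, hn⟩ := hex
      have hA2 := hf.A_of_good h0 hmono hnorm r hn
      rcases hf.sq_eq h0 hmono hnorm r hn with h1 | h1
      · refine ⟨1, Or.inr (Or.inl rfl), ?_, fun _ => rfl, fun h => by norm_num at h⟩
        rw [← hA, hA2, h1, hcn]; norm_num
      · refine ⟨-1, Or.inr (Or.inr rfl), ?_, ?_, ?_⟩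
        · rw [← hA, hA2, h1, hcn]; norm_num
        · intro h
          exfalso
          have hA3 := hf.A_of_good h0 hmono hnorm r (hgood1 h)
          rw [hA2, h1, one_mul, hf.one, mul_one] at hA3
          have hpos : (IsGT.hc N f r : ℂ) ≠ 0 := by
            have : 0 < IsGT.hc N f r := by
              unfold IsGT.hc
              apply Finset.card_pos.2
              exact ⟨1, by simp [hf.one, (N r).one_mem]⟩
            exact_mod_cast this.ne'
          have h4 : (IsGT.hc N f r : ℂ) * (-1 - 1) = 0 := by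
            rw [mul_sub, hA3]; ring
          rcases mul_eq_zero.1 h4 with h5 | h5
          · exact hpos h5
          · norm_num at h5
        · intro _
          refine ⟨n, by rw [← hr]; exact hn.1, ?_, ?_⟩
          · intro h hh
            rw [← hr] at hh
            exact hn.2 h hh
          · intro h hh
            exact hf.good_normalizes h0 hmono hnorm r hn hh
    · push Not at hex
      refine ⟨0, Or.inl rfl, ?_, ?_, fun h => by norm_num at h⟩
      · rw [← hA, hf.A_of_no_good h0 hmono hnorm r hex]; simp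
      · intro h
        exact absurd (hgood1 h) (hex 1)
  choose! ε hε hεA hε1 hεm using hloc
  set δ : ℕ → Prop := fun k => ∃ h ∈ R k, f h ≠ 0 ∧ f h ≠ 1 with hδ
  -- the value
  have hval : ∑ k ∈ Icc 1 L, ∑ n ∈ univ.filter (fun n => n ∈ R k),
      (LinearMap.trace ℂ V (ρ (n * n)) - LinearMap.trace ℂ V (ρ n)) =
      (Module.finrank ℂ V : ℂ) * ((∑ k ∈ Icc 1 L,
        ((cnt f (R k) : ℤ) * ε k - if δ k then 0 else (cnt f (R k) : ℤ)) : ℤ) : ℂ) := by
    push_cast
    rw [Finset.mul_sum]
    apply Finset.sum_congr rfl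
    intro k hk
    rw [Finset.mem_Icc] at hk
    obtain ⟨r, hr⟩ := hNR k hk.1
    have h1 := sum_sq ρ hρ hf h0 hmono hnorm hK hd hde r
    have h2 := sum_one ρ hρ hf h0 hmono hnorm hK hd hde r
    rw [hr] at h1 h2
    have hA : IsGT.A N f r = ∑ n ∈ univ.filter (fun n => n ∈ R k), f (n * n) := by
      unfold IsGT.A; rw [hr]
    rw [Finset.sum_sub_distrib, h1, h2, hA, hεA k hk.1, sum_lin hf (R k)]
    simp only [hδ]
    split_ifs <;> push_cast <;> ring
  have hnn : 0 ≤ ∑ k ∈ Icc 1 L,
      ((cnt f (R k) : ℤ) * ε k - if δ k then 0 else (cnt f (R k) : ℤ)) := by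
    have hδ1 : ∀ k, 1 ≤ k → ¬ δ k → ε k = 1 := by
      intro k hk hnd
      apply hε1 k hk
      intro h hh h0'
      simp only [hδ] at hnd
      push Not at hnd
      rw [hnd h hh h0', mul_one]
    by_cases hex : ∃ k ∈ Icc 1 L, ε k = -1
    · -- the last index with indicator `-1`
      have hne : ((Icc 1 L).filter (fun k => ε k = -1)).Nonempty := by
        obtain ⟨k, hk, hk'⟩ := hex
        exact ⟨k, by simp only [Finset.mem_filter]; exact ⟨hk, hk'⟩⟩
      set i := ((Icc 1 L).filter (fun k => ε k = -1)).max' hne with hi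
      have him := Finset.max'_mem _ hne
      rw [← hi, Finset.mem_filter, Finset.mem_Icc] at him
      have himax : ∀ k ∈ Icc 1 L, ε k = -1 → k ≤ i := by
        intro k hk hk'
        exact Finset.le_max' _ _ (by rw [Finset.mem_filter]; exact ⟨hk, hk'⟩)
      obtain ⟨⟨hi1, hiL⟩, hεi⟩ := him
      obtain ⟨n, hnR, hninv, hnnorm⟩ := hεm i hi1 hεi
      -- the last index where `f` is not real
      have hne2 : ((Icc 1 L).filter (fun k => ∃ h ∈ R k, f h ≠ 0 ∧ f h * f h ≠ 1)).Nonempty := by
        refine ⟨i, ?_⟩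
        rw [Finset.mem_filter, Finset.mem_Icc]
        refine ⟨⟨hi1, hiL⟩, ?_⟩
        by_contra hc
        push Not at hc
        have := hε1 i hi1 hc
        rw [this] at hεi
        norm_num at hεi
      set j := ((Icc 1 L).filter (fun k => ∃ h ∈ R k, f h ≠ 0 ∧ f h * f h ≠ 1)).max' hne2 with hj
      have hjm := Finset.max'_mem _ hne2
      rw [← hj, Finset.mem_filter, Finset.mem_Icc] at hjm
      have hjmax : ∀ k ∈ Icc 1 L, (∃ h ∈ R k, f h ≠ 0 ∧ f h * f h ≠ 1) → k ≤ j := by
        intro k hk hk'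
        exact Finset.le_max' _ _ (by rw [Finset.mem_filter]; exact ⟨hk, hk'⟩)
      obtain ⟨⟨hj1, hjL⟩, h, hhR, hh0, hh2⟩ := hjm
      have hij : i ≤ j := by
        apply hjmax i (Finset.mem_Icc.2 ⟨hi1, hiL⟩)
        by_contra hc
        push Not at hc
        have := hε1 i hi1 hc
        rw [this] at hεi
        norm_num at hεi
      have hhRi : h ∈ R i := hR hij hhR
      -- conjugation by `n` inverts `f` on `R i`
      have hninv' : f (n * h * n⁻¹) = (f h)⁻¹ := by
        have hnormR : (R i).Normal := by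
          obtain ⟨r, hr⟩ := hNR i hi1
          rw [← hr]; exact hnorm r
        have h1 := hninv (n * h * n⁻¹) (hnormR.conj_mem h hhRi n)
        have e : n⁻¹ * (n * h * n⁻¹) * n = h := by group
        rw [e] at h1
        rw [h1, inv_inv]
      have hne3 : f (n * h * n⁻¹) ≠ f h := by
        rw [hninv']
        intro hc
        exact hh2 ((mul_eq_one_iff_eq_inv₀ hh0).2 hc.symm)
      have hK2 := hkey i j hi1 hj1 n hnR hnnorm h hhR hh0 hne3
      -- termwise comparison
      have hterm : ∀ k ∈ Icc 1 L,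
          (if k ≤ i then -(cnt f (R k) : ℤ) else 0) + (if k ≤ j then -(cnt f (R k) : ℤ) else 0) +
            (if δ k then (cnt f (R k) : ℤ) else 0) ≤
          (cnt f (R k) : ℤ) * ε k - if δ k then 0 else (cnt f (R k) : ℤ) := by
        intro k hk
        have hk1 := (Finset.mem_Icc.1 hk).1
        have hcpos : (0 : ℤ) ≤ (cnt f (R k) : ℤ) := by positivity
        by_cases hkj : k ≤ j
        · have hδk : δ k := by
            refine ⟨h, hR hkj hhR, hh0, ?_⟩
            intro hc
            rw [hc] at hh2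
            norm_num at hh2
          rw [if_pos hkj, if_pos hδk, if_pos hδk]
          by_cases hki : k ≤ i
          · rw [if_pos hki]
            rcases hε k hk1 with h1 | h1 | h1 <;> rw [h1] <;> linarith
          · rw [if_neg hki]
            have hεk : ε k ≠ -1 := fun hc => hki (himax k hk hc)
            rcases hε k hk1 with h1 | h1 | h1
            · rw [h1]; linarith
            · rw [h1]; linarith
            · exact absurd h1 hεk
        · have hki : ¬ k ≤ i := fun hc => hkj (hc.trans hij)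
          rw [if_neg hkj, if_neg hki]
          have hεk : ε k = 1 := by
            apply hε1 k hk1
            intro x hx hx0
            by_contra hc
            exact hkj (hjmax k hk ⟨x, hx, hx0, hc⟩)
          rw [hεk]
          split_ifs <;> linarith
      refine le_trans ?_ (Finset.sum_le_sum hterm)
      rw [Finset.sum_add_distrib, Finset.sum_add_distrib]
      have hs1 : ∀ m, m ≤ L → ∑ k ∈ Icc 1 L, (if k ≤ m then -(cnt f (R k) : ℤ) else 0) =
          -((∑ k ∈ Icc 1 m, cnt f (R k) : ℕ) : ℤ) := by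
        intro m hm
        rw [← Finset.sum_filter]
        have e : (Icc 1 L).filter (fun k => k ≤ m) = Icc 1 m := by
          ext k
          simp only [Finset.mem_filter, Finset.mem_Icc]
          omega
        rw [e]
        push_cast
        rw [Finset.sum_neg_distrib]
      rw [hs1 i hiL, hs1 j hjL]
      have hs2 : ∑ k ∈ Icc 1 L, (if δ k then (cnt f (R k) : ℤ) else 0) =
          ((∑ k ∈ Icc 1 L, if (∃ h ∈ R k, f h ≠ 0 ∧ f h ≠ 1) then cnt f (R k) else 0 : ℕ) : ℤ) := by
        push_cast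
        apply Finset.sum_congr rfl
        intro k _
        simp only [hδ]
      rw [hs2]
      have hK3 : ((∑ k ∈ Icc 1 i, cnt f (R k) : ℕ) : ℤ) + ((∑ k ∈ Icc 1 j, cnt f (R k) : ℕ) : ℤ) ≤
          ((∑ k ∈ Icc 1 L, if (∃ h ∈ R k, f h ≠ 0 ∧ f h ≠ 1) then cnt f (R k) else 0 : ℕ) : ℤ) := by
        exact_mod_cast hK2
      linarith
    · push Not at hex
      apply Finset.sum_nonneg
      intro k hk
      have hk1 := (Finset.mem_Icc.1 hk).1
      have hcpos : (0 : ℤ) ≤ (cnt f (R k) : ℤ) := by positivity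
      by_cases hδk : δ k
      · rw [if_pos hδk]
        rcases hε k hk1 with h1 | h1 | h1
        · rw [h1]; linarith
        · rw [h1]; linarith
        · exact absurd h1 (hex k hk)
      · rw [if_neg hδk, hδ1 k hk1 hδk]
        linarith
  obtain ⟨z, hz⟩ := Int.eq_ofNat_of_zero_le hnn
  refine ⟨Module.finrank ℂ V * z, ?_⟩
  rw [hval, hz]
  push_cast
  ring

end Pool.Agent.Helper13.Swan
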