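import Pool.Agent.Helper13.Swan.Val

set_option autoImplicit false

namespace Pool.Agent.Helper13.Swan

open WithZero Finset Polynomial

variable {Ω : Type*} [Field Ω] {P : Type*} [Group P] [MulSemiringAction P Ω] [Fintype P]
  {w : Valuation Ω ℤᵐ⁰} {π : Ω}

namespace Base

variable (hB : Base P w π)

include hB

/-- Terms with coefficients in the fixed field of `Q` and exponents below `|Q|` do not cancel. -/
theorem val_combo [FaithfulSMul P Ω] (Q : Subgroup P) (c : ℕ → Ω) (hc : ∀ k, Fx Q (c k)) (k : ℕ)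
    (hk : k < Nat.card Q) :
    w (c k * π ^ k) ≤ w (∑ i ∈ range (Nat.card Q), c i * π ^ i) := by
  classical
  have hne : (range (Nat.card Q)).Nonempty := ⟨k, mem_range.2 hk⟩
  obtain ⟨j, hj, hjmax⟩ := Finset.exists_max_image (range (Nat.card Q))
    (fun i => w (c i * π ^ i)) hne
  have hkj := hjmax k (mem_range.2 hk)
  by_cases h0 : w (c j * π ^ j) = 0
  · rw [h0] at hkj
    exact hkj.trans zero_le
  · rw [Valuation.map_sum_eq_of_lt w hj]
    · exact hkj
    · intro i hi
      rw [mem_sdiff, mem_singleton] at hi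
      refine lt_of_le_of_ne (hjmax i hi.1) ?_
      intro heq
      have hi0 : w (c i * π ^ i) ≠ 0 := by rw [heq]; exact h0
      have hci : c i ≠ 0 := by
        intro h
        apply hi0
        rw [h, zero_mul, map_zero]
      have hcj : c j ≠ 0 := by
        intro h
        apply h0
        rw [h, zero_mul, map_zero]
      obtain ⟨a, ha⟩ := hB.val_fixed Q (hc i) hci
      obtain ⟨b, hb⟩ := hB.val_fixed Q (hc j) hcj
      rw [map_mul, map_mul, map_pow, map_pow, hB.unif, ex_pow, ex_pow, ha, hb, ← ex_add,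
        ← ex_add, ex_inj] at heq
      have hi1 := mem_range.1 hi.1
      have hj1 := mem_range.1 hj
      apply hi.2
      have h1 : ((i : ℤ) - j) = (Nat.card Q : ℤ) * (b - a) := by linarith
      have h2 : (Nat.card Q : ℤ) ∣ (i : ℤ) - j := ⟨_, h1⟩
      have h3 : |(i : ℤ) - j| < Nat.card Q := by
        rw [abs_lt]
        constructor <;> omega
      have h4 := Int.eq_zero_of_abs_lt_dvd h2 h3
      omega

theorem val_combo_zero [FaithfulSMul P Ω] (Q : Subgroup P) (c : ℕ → Ω) (hc : ∀ k, Fx Q (c k)) :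
    w (c 0) ≤ w (∑ i ∈ range (Nat.card Q), c i * π ^ i) := by
  have := hB.val_combo Q c hc 0 Nat.card_pos
  simpa using this

omit [Fintype P] in
theorem val_smul_sub (τ : P) (x y : Ω) : w (τ • x - τ • y) = w (x - y) := by
  rw [← smul_sub, hB.inv]

end Base

/-- The polynomial `∏ (X - τ x)` over `τ ∈ Q`. -/
noncomputable def nmPoly (Q : Subgroup P) (x : Ω) : Polynomial Ω := by
  classical
  exact ∏ τ : Q, (X - C ((τ : P) • x))

theorem nmPoly_def (Q : Subgroup P) [Fintype Q] (x : Ω) :
    nmPoly Q x = ∏ τ : Q, (X - C ((τ : P) • x)) := by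
  unfold nmPoly
  refine Finset.prod_congr (Finset.ext fun x => ?_) (fun _ _ => rfl)
  simp only [Finset.mem_univ]

theorem nmPoly_monic (Q : Subgroup P) (x : Ω) : (nmPoly Q x).Monic := by
  classical
  rw [nmPoly_def]
  exact monic_prod_of_monic _ _ (fun τ _ => monic_X_sub_C _)

theorem nmPoly_natDegree (Q : Subgroup P) (x : Ω) : (nmPoly Q x).natDegree = Nat.card Q := by
  classical
  rw [nmPoly_def, natDegree_prod_of_monic _ _ (fun τ _ => monic_X_sub_C _)]
  simp

theorem nmPoly_map (Q : Subgroup P) {σ : P} (hσ : ∀ τ ∈ Q, σ * τ * σ⁻¹ ∈ Q)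
    (hσ' : ∀ τ ∈ Q, σ⁻¹ * τ * σ ∈ Q) (x : Ω) :
    (nmPoly Q x).map (MulSemiringAction.toRingHom P Ω σ) = nmPoly Q (σ • x) := by
  classical
  rw [nmPoly_def, nmPoly_def, Polynomial.map_prod]
  let e : Q ≃ Q :=
    { toFun := fun τ => ⟨σ * τ * σ⁻¹, hσ τ τ.2⟩
      invFun := fun τ => ⟨σ⁻¹ * τ * σ, hσ' τ τ.2⟩
      left_inv := fun τ => by ext; simp [mul_assoc]
      right_inv := fun τ => by ext; simp [mul_assoc] }
  apply Fintype.prod_equiv e
  intro τ
  simp only [e, Equiv.coe_fn_mk, Polynomial.map_sub, map_X, map_C,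
    MulSemiringAction.toRingHom_apply]
  rw [smul_smul, smul_smul]
  congr 3
  group

theorem nmPoly_smul_mem (Q : Subgroup P) {σ : P} (hσ : σ ∈ Q) (x : Ω) :
    nmPoly Q (σ • x) = nmPoly Q x := by
  classical
  rw [nmPoly_def, nmPoly_def]
  apply Fintype.prod_equiv (Equiv.mulRight (⟨σ, hσ⟩ : Q))
  intro τ
  simp [mul_smul]

theorem nmPoly_coeff_fixed (Q : Subgroup P) (x : Ω) (k : ℕ) : Fx Q ((nmPoly Q x).coeff k) := by
  intro σ hσ
  have h1 := nmPoly_map Q (σ := σ) (fun τ hτ => Q.mul_mem (Q.mul_mem hσ hτ) (Q.inv_mem hσ))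
    (fun τ hτ => Q.mul_mem (Q.mul_mem (Q.inv_mem hσ) hτ) hσ) x
  rw [nmPoly_smul_mem Q hσ] at h1
  have h2 := congrArg (fun p => p.coeff k) h1
  simp only [coeff_map, MulSemiringAction.toRingHom_apply] at h2
  exact h2

theorem nmPoly_eval (Q : Subgroup P) [Fintype Q] (x y : Ω) :
    (nmPoly Q x).eval y = ∏ τ : Q, (y - (τ : P) • x) := by
  rw [nmPoly_def, eval_prod]
  simp

theorem nmPoly_eval_self (Q : Subgroup P) (x : Ω) : (nmPoly Q x).eval x = 0 := by
  classical
  rw [nmPoly_eval]
  apply Finset.prod_eq_zero (mem_univ (1 : Q))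
  simp

theorem nmPoly_coeff_zero (Q : Subgroup P) (x : Ω) :
    (nmPoly Q x).coeff 0 = (-1) ^ Nat.card Q * nm Q x := by
  classical
  rw [coeff_zero_eq_eval_zero, nmPoly_eval, nm_def]
  simp only [zero_sub]
  rw [Finset.prod_neg, Finset.card_univ, Nat.card_eq_fintype_card]

theorem nmPoly_sub_natDegree (Q : Subgroup P) (x y : Ω) :
    (nmPoly Q x - nmPoly Q y).natDegree < Nat.card Q := by
  have hpos : 0 < Nat.card Q := Nat.card_pos
  by_cases h0 : nmPoly Q x - nmPoly Q y = 0
  · rw [h0, natDegree_zero]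
    exact hpos
  · rw [natDegree_lt_iff_degree_lt h0]
    have hd : (nmPoly Q x).degree = (nmPoly Q y).degree := by
      rw [degree_eq_natDegree (nmPoly_monic Q x).ne_zero,
        degree_eq_natDegree (nmPoly_monic Q y).ne_zero, nmPoly_natDegree, nmPoly_natDegree]
    have h1 := degree_sub_lt_left hd (nmPoly_monic Q x).ne_zero
      (by rw [(nmPoly_monic Q x).leadingCoeff, (nmPoly_monic Q y).leadingCoeff])
    rwa [degree_eq_natDegree (nmPoly_monic Q x).ne_zero, nmPoly_natDegree] at h1

/-- The polynomial of a norm-conjugate difference. -/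
theorem Base.val_nmPoly_coeff (hB : Base P w π) (Q : Subgroup P) {x : Ω} (hx : w x ≤ 1) (k : ℕ) :
    w ((nmPoly Q x).coeff k) ≤ 1 := by
  classical
  rw [nmPoly_def]
  let O := w.integer
  have hmem : ∀ τ : Q, (τ : P) • x ∈ O := fun τ => by
    rw [Valuation.mem_integer_iff, hB.inv]; exact hx
  have : ∏ τ : Q, (X - C ((τ : P) • x)) =
      (∏ τ : Q, (X - C (⟨(τ : P) • x, hmem τ⟩ : O))).map O.subtype := by
    rw [Polynomial.map_prod]
    apply Finset.prod_congr rfl
    intro τ _
    simp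
  rw [this, coeff_map]
  exact (Subtype.prop ((∏ τ : Q, (X - C (⟨(τ : P) • x, hmem τ⟩ : O))).coeff k) : _)

theorem Base.val_nm_sub (hB : Base P w π) [FaithfulSMul P Ω] (Q : Subgroup P) [Fintype Q] {y : Ω}
    {δ : ℤᵐ⁰} (h : w (y - π) ≤ δ) :
    w (nm Q y - nm Q π) ≤ ∏ τ : Q, max (w ((τ : P) • π - π)) δ := by
  classical
  have h1 := hB.val_combo_zero Q (fun k => (nmPoly Q y - nmPoly Q π).coeff k) (by
    intro k
    rw [coeff_sub]
    exact (nmPoly_coeff_fixed Q y k).sub (nmPoly_coeff_fixed Q π k))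
  rw [← eval_eq_sum_range' (nmPoly_sub_natDegree Q y π), eval_sub, nmPoly_eval_self, sub_zero,
    nmPoly_eval, coeff_sub, nmPoly_coeff_zero, nmPoly_coeff_zero, ← mul_sub, map_mul, map_pow,
    Valuation.map_neg, map_one, one_pow, one_mul, map_prod] at h1
  refine h1.trans ?_
  apply Finset.prod_le_prod'
  intro τ _
  have e1 : π - (τ : P) • y = -(((τ : P) • π - π) + (τ : P) • (y - π)) := by
    rw [smul_sub]; ring
  rw [e1, Valuation.map_neg]
  refine (w.map_add _ _).trans ?_
  rw [hB.inv]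
  exact max_le_max_left _ h

/-- Displacement of integral elements of the fixed field of `Q`. -/
theorem Base.val_smul_sub_le (hB : Base P w π) [FaithfulSMul P Ω] (Q : Subgroup P) (g : P)
    {c : Ω} (hc : Fx Q c) (hc1 : w c ≤ 1) :
    w (g • c - c) ≤ w (g • nm Q π - nm Q π) := by
  classical
  set ϖ := nm Q π with hϖ
  have hϖ0 : ϖ ≠ 0 := nm_ne_zero Q hB.pi_ne
  have hwϖ : w ϖ = ex (Nat.card Q) := hB.val_nm_pi Q
  have hQ : 1 ≤ Nat.card Q := Nat.card_pos
  apply le_of_forall_le_max
  intro N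
  induction N generalizing c with
  | zero =>
    apply le_max_of_le_right
    simp only [Nat.cast_zero, ex_zero]
    apply w.map_sub_le _ hc1
    rw [hB.inv]; exact hc1
  | succ N ih =>
    obtain ⟨a, ha, hca⟩ := hB.res c hc1
    have hd : Fx Q ((c - a) / ϖ) := (hc.sub (fun τ _ => ha τ)).div (nm_fixed Q π)
    have hd1 : w ((c - a) / ϖ) ≤ 1 := by
      rw [map_div₀, hwϖ]
      apply div_le_one_of_le₀ _ zero_le
      by_cases h0 : c - a = 0
      · rw [h0, map_zero]; exact zero_le
      · obtain ⟨m, hm⟩ := hB.val_fixed Q (hc.sub (fun τ _ => ha τ)) h0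
        rw [hm] at hca ⊢
        rw [← ex_zero, ex_lt_ex] at hca
        rw [ex_le_ex]
        have : 1 ≤ m := by
          by_contra hcon
          push Not at hcon
          have h3 : (0 : ℤ) < Nat.card Q := by exact_mod_cast hQ
          nlinarith
        nlinarith
    have h2 := ih hd hd1
    set d := (c - a) / ϖ with hd_def
    have hc_eq : c = a + ϖ * d := by
      rw [hd_def]; field_simp; ring
    have e1 : g • c - c = (g • ϖ - ϖ) * (g • d) + ϖ * (g • d - d) := by
      rw [hc_eq, smul_add, smul_mul', ha g]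
      ring
    rw [e1]
    apply w.map_add_le
    · apply le_max_of_le_left
      rw [map_mul, hB.inv]
      exact mul_le_of_le_one_right zero_le hd1
    · rw [map_mul, hwϖ]
      have h3 : ex (Nat.card Q) * max (w (g • ϖ - ϖ)) (ex N) ≤
          max (w (g • ϖ - ϖ)) (ex ((N + 1 : ℕ) : ℤ)) := by
        rcases le_total (w (g • ϖ - ϖ)) (ex N) with h | h
        · rw [max_eq_right h]
          apply le_max_of_le_right
          rw [← ex_add, ex_le_ex]
          push_cast
          omega
        · rw [max_eq_left h]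
          apply le_max_of_le_left
          apply mul_le_of_le_one_left zero_le
          rw [← ex_zero, ex_le_ex]
          positivity
      exact (mul_le_mul_right h2 _).trans h3

end Pool.Agent.Helper13.Swan
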