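import Pool.Agent.Helper13.Swan.Key1

set_option autoImplicit false

namespace Pool.Agent.Helper13.Swan

open WithZero Finset Polynomial

theorem max_ex_count {v : ℤᵐ⁰} (hv : v ≤ ex 1) (i : ℕ) [DecidablePred fun k : ℕ => v ≤ ex (k + 1)] :
    max v (ex (i + 1)) = ex (1 + ((Icc 1 i).filter (fun k : ℕ => v ≤ ex (k + 1))).card) := by
  induction i with
  | zero =>
    simp [hv]
  | succ i ih =>
    by_cases h : v ≤ ex (((i + 1 : ℕ) : ℤ) + 1)
    · rw [max_eq_right h]
      have hall : (Icc 1 (i + 1)).filter (fun k : ℕ => v ≤ ex (k + 1)) = Icc 1 (i + 1) := by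
        apply filter_true_of_mem
        intro k hk
        rw [mem_Icc] at hk
        refine h.trans ?_
        rw [ex_le_ex]
        have : (k : ℤ) ≤ ((i + 1 : ℕ) : ℤ) := by exact_mod_cast hk.2
        omega
      rw [hall, Nat.card_Icc]
      congr 1
      push_cast
      omega
    · have h1 : ex (((i + 1 : ℕ) : ℤ) + 1) < v := not_le.1 h
      have h2 : ex ((i : ℤ) + 1) ≤ v := by
        have hv0 : v ≠ 0 := by
          intro h0
          rw [h0] at h1
          exact absurd h1 (not_lt.2 zero_le)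
        obtain ⟨m, rfl⟩ := exists_ex hv0
        rw [ex_lt_ex] at h1
        rw [ex_le_ex]
        push_cast at h1
        omega
      rw [max_eq_left h1.le]
      rw [max_eq_left h2] at ih
      have hsame : (Icc 1 (i + 1)).filter (fun k : ℕ => v ≤ ex (k + 1)) =
          (Icc 1 i).filter (fun k : ℕ => v ≤ ex (k + 1)) := by
        ext k
        simp only [mem_filter, mem_Icc]
        constructor
        · rintro ⟨⟨h3, h4⟩, h5⟩
          refine ⟨⟨h3, ?_⟩, h5⟩
          by_contra hc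
          have : k = i + 1 := by omega
          subst this
          exact h h5
        · rintro ⟨⟨h3, h4⟩, h5⟩
          exact ⟨⟨h3, by omega⟩, h5⟩
      rw [hsame]
      exact ih

variable {Ω : Type*} [Field Ω] {P : Type*} [Group P] [MulSemiringAction P Ω]
  {w : Valuation Ω ℤᵐ⁰} {π : Ω}

/-- The ramification subgroups, in terms of the uniformiser. -/
def Rk (hB : Base P w π) (k : ℕ) : Subgroup P where
  carrier := {τ | w (τ • π - π) ≤ ex (k + 1)}
  one_mem' := by simp
  mul_mem' := by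
    intro a b ha hb
    simp only [Set.mem_ofPred_eq] at ha hb ⊢
    have e1 : (a * b) • π - π = a • (b • π - π) + (a • π - π) := by
      rw [mul_smul, smul_sub]; ring
    rw [e1]
    apply w.map_add_le _ ha
    rw [hB.inv]; exact hb
  inv_mem' := by
    intro a ha
    simp only [Set.mem_ofPred_eq] at ha ⊢
    have e1 : a⁻¹ • π - π = -(a⁻¹ • (a • π - π)) := by
      rw [smul_sub, inv_smul_smul]; ring
    rw [e1, Valuation.map_neg, hB.inv]
    exact ha

theorem mem_Rk (hB : Base P w π) (k : ℕ) (τ : P) : τ ∈ Rk hB k ↔ w (τ • π - π) ≤ ex (k + 1) :=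
  Iff.rfl

theorem Rk_antitone (hB : Base P w π) : Antitone (Rk hB) := by
  intro a b hab τ hτ
  rw [mem_Rk] at hτ ⊢
  refine hτ.trans ?_
  rw [ex_le_ex]
  have : (a : ℤ) ≤ b := by exact_mod_cast hab
  omega

theorem Base.val_pi_sub_le (hB : Base P w π) (τ : P) : w (τ • π - π) ≤ ex 1 := by
  apply w.map_sub_le
  · rw [hB.inv, hB.unif]
  · rw [hB.unif]

variable [Fintype P]

theorem Rk_normal (hB : Base P w π) [FaithfulSMul P Ω] (k : ℕ) : (Rk hB k).Normal := by
  constructor
  intro τ hτ g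
  rw [mem_Rk] at hτ ⊢
  have e1 : (g * τ * g⁻¹) • π - π = g • (τ • (g⁻¹ • π) - g⁻¹ • π) := by
    rw [smul_sub, mul_smul, mul_smul, smul_inv_smul]
  rw [e1, hB.inv]
  have h1 := hB.val_smul_sub_le (⊥ : Subgroup P) τ (c := g⁻¹ • π) (by
    intro σ hσ
    rw [Subgroup.mem_bot] at hσ
    rw [hσ, one_smul]) (by rw [hB.inv, hB.unif, ← ex_zero, ex_le_ex]; norm_num)
  have h2 : nm (⊥ : Subgroup P) π = π := by
    rw [nm_def, Fintype.prod_unique]
    have h3 : ((default : (⊥ : Subgroup P)) : P) = 1 := (Subgroup.mem_bot).1 (Subtype.prop _)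
    rw [h3, one_smul]
  rw [h2] at h1
  exact h1.trans hτ

/-- The action on the uniformiser is free. -/
theorem Base.pi_free (hB : Base P w π) [FaithfulSMul P Ω] {τ : P} (h : τ • π = π) : τ = 1 := by
  have hf : Fx (Subgroup.zpowers τ) π := by
    intro σ hσ
    have : Subgroup.zpowers τ ≤ MulAction.stabilizer P π := by
      rw [Subgroup.zpowers_le]
      exact h
    exact this hσ
  obtain ⟨k, hk⟩ := hB.val_fixed (Subgroup.zpowers τ) hf hB.pi_ne
  rw [hB.unif, ex_inj] at hk
  have h1 : Nat.card (Subgroup.zpowers τ) = 1 := by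
    have h2 : (Nat.card (Subgroup.zpowers τ) : ℤ) ∣ 1 := ⟨k, hk⟩
    have h3 := Int.eq_one_of_dvd_one (by positivity) h2
    exact_mod_cast h3
  rw [Nat.card_zpowers] at h1
  exact orderOf_eq_one_iff.1 h1

/-- For large `L` the ramification group is trivial. -/
theorem Base.exists_Rk_bot (hB : Base P w π) [FaithfulSMul P Ω] : ∃ L : ℕ, Rk hB L = ⊥ := by
  classical
  have h1 : ∀ τ : P, ∃ l : ℕ, τ ∈ Rk hB l → τ = 1 := by
    intro τ
    by_cases hτ : τ = 1
    · exact ⟨0, fun _ => hτ⟩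
    · have hne : w (τ • π - π) ≠ 0 := by
        rw [Valuation.ne_zero_iff, sub_ne_zero]
        intro h
        exact hτ (hB.pi_free h)
      obtain ⟨m, hm⟩ := exists_ex hne
      refine ⟨m.toNat, ?_⟩
      intro hc
      rw [mem_Rk, hm, ex_le_ex] at hc
      omega
  choose l hl using h1
  refine ⟨univ.sup l, ?_⟩
  rw [eq_bot_iff]
  intro τ hτ
  rw [Subgroup.mem_bot]
  apply hl τ
  exact Rk_antitone hB (Finset.le_sup (mem_univ τ)) hτ

open scoped Classical in
/-- The partial sums of the orders of the groups `H ∩ R_k`. -/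
noncomputable def cc (hB : Base P w π) (H : Subgroup P) (i : ℕ) : ℕ :=
  ∑ k ∈ Icc 1 i, (univ.filter (fun τ : P => τ ∈ H ∧ τ ∈ Rk hB k)).card

theorem Base.prod_max (hB : Base P w π) (H : Subgroup P) [Fintype H] (i : ℕ) :
    ∏ τ : H, max (w ((τ : P) • π - π)) (ex (i + 1)) = ex (Nat.card H + cc hB H i) := by
  classical
  have h1 : ∀ τ : H, max (w ((τ : P) • π - π)) (ex (i + 1)) =
      ex (1 + ((Icc 1 i).filter (fun k : ℕ => w ((τ : P) • π - π) ≤ ex (k + 1))).card) :=
    fun τ => max_ex_count (hB.val_pi_sub_le _) i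
  rw [Finset.prod_congr rfl (fun τ _ => h1 τ), prod_ex]
  congr 1
  rw [Finset.sum_add_distrib]
  congr 1
  · simp
  · unfold cc
    push_cast
    have h2 : ∀ τ : H, (((Icc 1 i).filter
        (fun k : ℕ => w ((τ : P) • π - π) ≤ ex (k + 1))).card : ℤ) =
        ∑ k ∈ Icc 1 i, if (τ : P) ∈ Rk hB k then 1 else 0 := by
      intro τ
      rw [Finset.card_filter]
      push_cast
      apply Finset.sum_congr rfl
      intro k _
      simp only [mem_Rk]
    rw [Finset.sum_congr rfl (fun τ _ => h2 τ), Finset.sum_comm]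
    apply Finset.sum_congr rfl
    intro k _
    rw [Finset.card_filter]
    push_cast
    rw [← Finset.sum_filter_add_sum_filter_not univ (fun τ : P => τ ∈ H)]
    have h3 : ∑ τ ∈ univ.filter (fun τ : P => ¬ τ ∈ H),
        (if τ ∈ H ∧ τ ∈ Rk hB k then (1 : ℤ) else 0) = 0 := by
      apply Finset.sum_eq_zero
      intro τ hτ
      rw [mem_filter] at hτ
      rw [if_neg]
      intro h
      exact hτ.2 h.1
    rw [h3, add_zero]
    rw [Finset.sum_subtype (univ.filter (fun τ : P => τ ∈ H)) (p := fun τ => τ ∈ H)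
      (by intro x; simp)]
    apply Finset.sum_congr rfl
    intro τ _
    simp [τ.2]

theorem Base.val_nm_sub' (hB : Base P w π) [FaithfulSMul P Ω] (H : Subgroup P) {y : Ω}
    {i : ℕ} (h : w (y - π) ≤ ex (i + 1)) :
    w (nm H y - nm H π) ≤ ex (Nat.card H + cc hB H i) := by
  classical
  rw [← hB.prod_max H i]
  exact hB.val_nm_sub H h

/-- Closeness to one is multiplicative. -/
theorem val_mul_sub_one {x y : Ω} {δ : ℤᵐ⁰} (hx : w (x - 1) ≤ δ) (hy : w (y - 1) ≤ δ)
    (hy1 : w y ≤ 1) : w (x * y - 1) ≤ δ := by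
  have e1 : x * y - 1 = (x - 1) * y + (y - 1) := by ring
  rw [e1]
  apply w.map_add_le _ hy
  rw [map_mul]
  exact (mul_le_of_le_one_right zero_le hy1).trans hx

theorem val_inv_sub_one {x : Ω} {δ : ℤᵐ⁰} (hx : w (x - 1) ≤ δ) (hx1 : w x = 1) :
    w (x⁻¹ - 1) ≤ δ := by
  have hx0 : x ≠ 0 := by
    intro h
    rw [h, map_zero] at hx1
    exact zero_ne_one hx1
  have e1 : x⁻¹ - 1 = -((x - 1) / x) := by
    field_simp; ring
  rw [e1, Valuation.map_neg, map_div₀, hx1, div_one]
  exact hx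

theorem val_zpow_sub_one {x : Ω} {δ : ℤᵐ⁰} (hx : w (x - 1) ≤ δ) (hx1 : w x = 1) (m : ℤ) :
    w (x ^ m - 1) ≤ δ := by
  have hnat : ∀ n : ℕ, w (x ^ n - 1) ≤ δ := by
    intro n
    induction n with
    | zero => simp
    | succ n ih =>
      rw [pow_succ]
      exact val_mul_sub_one ih hx hx1.le
  cases m with
  | ofNat n => simpa using hnat n
  | negSucc n =>
    rw [zpow_negSucc]
    apply val_inv_sub_one (hnat (n + 1))
    rw [map_pow, hx1, one_pow]

/-- Displacement by `g ∈ R_i` of elements of the fixed field of `H`. -/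
theorem Base.val_smul_sub_fixed (hB : Base P w π) [FaithfulSMul P Ω] (H : Subgroup P) {g : P}
    (hg1 : ∀ τ ∈ H, g * τ * g⁻¹ ∈ H) (hg2 : ∀ τ ∈ H, g⁻¹ * τ * g ∈ H) {i : ℕ}
    (hgi : g ∈ Rk hB i) {d : Ω} (hd : Fx H d) {D : ℤ} (hD : w d ≤ ex D) :
    w (g • d - d) ≤ ex (D + cc hB H i) := by
  classical
  set ϖ := nm H π with hϖ
  have hϖ0 : ϖ ≠ 0 := nm_ne_zero H hB.pi_ne
  have hwϖ : w ϖ = ex (Nat.card H) := hB.val_nm_pi H
  have h1 : w (g • ϖ - ϖ) ≤ ex (Nat.card H + cc hB H i) := by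
    rw [hϖ, smul_nm H hg1 hg2]
    exact hB.val_nm_sub' H hgi
  by_cases hd0 : d = 0
  · rw [hd0, smul_zero, sub_zero, map_zero]
    exact zero_le
  obtain ⟨m, hm⟩ := hB.val_fixed H hd hd0
  have hϖm : w (ϖ ^ m) = w d := by
    rw [map_zpow₀, hwϖ, hm]
    unfold ex
    rw [← WithZero.exp_zsmul, smul_eq_mul]
    congr 1
    ring
  have hϖm0 : ϖ ^ m ≠ 0 := zpow_ne_zero _ hϖ0
  set e := d / ϖ ^ m with he
  have hwe : w e = 1 := by
    rw [he, map_div₀, hϖm]
    exact div_self ((Valuation.ne_zero_iff w).2 hd0)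
  have he0 : e ≠ 0 := div_ne_zero hd0 hϖm0
  have hefx : Fx H e := by
    apply hd.div
    intro τ hτ
    have h5 := map_zpow₀ (MulSemiringAction.toRingHom P Ω τ) ϖ m
    rw [MulSemiringAction.toRingHom_apply, MulSemiringAction.toRingHom_apply,
      nm_fixed H π τ hτ] at h5
    exact h5
  have hc0 : (0 : ℤ) ≤ cc hB H i := by positivity
  have hcH : (0 : ℤ) ≤ Nat.card H := by positivity
  -- the two unit factors
  have hu1 : w (g • ϖ / ϖ - 1) ≤ ex (cc hB H i) := by
    have e1 : g • ϖ / ϖ - 1 = (g • ϖ - ϖ) / ϖ := by field_simp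
    rw [e1, map_div₀, hwϖ, div_le_iff₀ (ex_pos _), ← ex_add, add_comm]
    exact h1
  have hu1' : w (g • ϖ / ϖ) = 1 := by
    rw [map_div₀, hB.inv]
    exact div_self ((Valuation.ne_zero_iff w).2 hϖ0)
  have hu2 : w (g • e / e - 1) ≤ ex (cc hB H i) := by
    have e1 : g • e / e - 1 = (g • e - e) / e := by field_simp
    rw [e1, map_div₀, hwe, div_one]
    refine (hB.val_smul_sub_le H g hefx hwe.le).trans (h1.trans ?_)
    rw [ex_le_ex]
    omega
  have hu2' : w (g • e / e) = 1 := by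
    rw [map_div₀, hB.inv]
    exact div_self ((Valuation.ne_zero_iff w).2 he0)
  have hu3 := val_mul_sub_one (val_zpow_sub_one hu1 hu1' m) hu2 hu2'.le
  have hsmulz : g • (ϖ ^ m) = (g • ϖ) ^ m := by
    have h5 := map_zpow₀ (MulSemiringAction.toRingHom P Ω g) ϖ m
    rw [MulSemiringAction.toRingHom_apply, MulSemiringAction.toRingHom_apply] at h5
    exact h5
  have hd_eq : d = ϖ ^ m * e := by rw [he]; field_simp
  have e2 : g • d - d = d * ((g • ϖ / ϖ) ^ m * (g • e / e) - 1) := by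
    rw [hd_eq, smul_mul', hsmulz, div_zpow]
    field_simp
  rw [e2, map_mul, ex_add]
  exact mul_le_mul' hD hu3

end Pool.Agent.Helper13.Swan
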