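import Pool.Agent.Helper13.Swan.Key2

set_option autoImplicit false

namespace Pool.Agent.Helper13.Swan

open WithZero Finset Polynomial

variable {Ω : Type*} [Field Ω] {P : Type*} [Group P] [MulSemiringAction P Ω]
  {w : Valuation Ω ℤᵐ⁰} {π : Ω}

/-- Existence of an auxiliary automorphism `φ` (a Frobenius) commuting with the action. -/
structure Ext (P : Type*) [Group P] [MulSemiringAction P Ω] (w : Valuation Ω ℤᵐ⁰) (π : Ω)
    (φ : Ω ≃+* Ω) (n : ℕ) (θ : Ω) : Prop where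
  comm : ∀ (τ : P) (x : Ω), φ (τ • x) = τ • φ x
  val : ∀ x, w (φ x) = w x
  pi : φ π = π
  pow : ∀ x, (φ : Ω → Ω)^[n] x = x
  powP : ∀ τ : P, τ ^ n = 1
  fix : ∀ τ : P, τ • θ = θ
  int : w θ ≤ 1
  tr : ∑ r ∈ range n, (φ : Ω → Ω)^[r] θ = 1
  hensel : ∀ (m : ℕ) (t : ℕ → Ω), 1 ≤ m → (∀ r, w (t r) < 1 ∧ φ (t r) = t r) →
    ∃ Z, φ Z = Z ∧ w (Z - 1) < 1 ∧ Z ^ m = ∏ r ∈ Ico 1 m, (Z + t r)

theorem sum_range_shift {A : Type*} [AddCommGroup A] (u : ℕ → A) (m : ℕ) (h : u m = u 0) :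
    ∑ r ∈ range m, u (r + 1) = ∑ r ∈ range m, u r := by
  have h1 := Finset.sum_range_succ u m
  have h2 := Finset.sum_range_succ' u m
  rw [h1, h] at h2
  exact (add_right_cancel h2).symm

theorem prod_range_shift {A : Type*} [CommMonoid A] (u : ℕ → A) (m : ℕ) (h : u m = u 0) :
    ∏ r ∈ range m, u (r + 1) = ∏ r ∈ range m, u r := by
  cases m with
  | zero => simp
  | succ k =>
    rw [Finset.prod_range_succ, h, Finset.prod_range_succ']

section

variable {φ : Ω ≃+* Ω} {n : ℕ} {θ : Ω}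

theorem Ext.smul_iter (hE : Ext P w π φ n θ) (τ : P) (r : ℕ) (x : Ω) :
    τ • (φ : Ω → Ω)^[r] x = (φ : Ω → Ω)^[r] (τ • x) := by
  induction r with
  | zero => rfl
  | succ r ih =>
    rw [Function.iterate_succ_apply', Function.iterate_succ_apply', ← hE.comm, ih]

theorem Ext.val_iter (hE : Ext P w π φ n θ) (r : ℕ) (x : Ω) :
    w ((φ : Ω → Ω)^[r] x) = w x := by
  induction r with
  | zero => rfl
  | succ r ih =>
    rw [Function.iterate_succ_apply', hE.val, ih]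

/-- The twisted uniformiser. -/
theorem Ext.exists_twist (hE : Ext P w π φ n θ) (hB : Base P w π) (h : P) {j : ℕ}
    (hj : h ∈ Rk hB j) :
    ∃ y : Ω, h • φ y = y ∧ w (y - π) ≤ ex (j + 1) := by
  refine ⟨∑ r ∈ range n, (φ : Ω → Ω)^[r] θ * (h ^ r • π), ?_, ?_⟩
  · rw [map_sum, Finset.smul_sum]
    have h1 : ∀ r : ℕ, h • φ ((φ : Ω → Ω)^[r] θ * (h ^ r • π)) =
        (φ : Ω → Ω)^[r + 1] θ * (h ^ (r + 1) • π) := by
      intro r
      rw [map_mul, smul_mul', ← Function.iterate_succ_apply' (φ : Ω → Ω), hE.smul_iter, hE.fix,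
        hE.comm, hE.pi, smul_smul, pow_succ']
    rw [Finset.sum_congr rfl (fun r _ => h1 r)]
    apply sum_range_shift (fun r => (φ : Ω → Ω)^[r] θ * (h ^ r • π))
    rw [hE.pow, hE.powP]
    simp
  · have e1 : ∑ r ∈ range n, (φ : Ω → Ω)^[r] θ * (h ^ r • π) - π =
        ∑ r ∈ range n, (φ : Ω → Ω)^[r] θ * (h ^ r • π - π) := by
      simp only [mul_sub]
      rw [Finset.sum_sub_distrib, ← Finset.sum_mul, hE.tr, one_mul]
    rw [e1]
    apply w.map_sum_le
    intro r _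
    rw [map_mul, hE.val_iter]
    have h2 : h ^ r ∈ Rk hB j := Subgroup.pow_mem _ hj r
    exact (mul_le_of_le_one_left zero_le hE.int).trans h2

variable [Fintype P]

theorem Ext.map_nm (hE : Ext P w π φ n θ) (Q : Subgroup P) (x : Ω) :
    φ (nm Q x) = nm Q (φ x) := by
  classical
  rw [nm_def, nm_def, map_prod]
  apply Finset.prod_congr rfl
  intro τ _
  rw [hE.comm]

/-- The element `x'` and its properties. -/
theorem Ext.exists_near_one (hE : Ext P w π φ n θ) (hB : Base P w π) [FaithfulSMul P Ω]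
    (H : Subgroup P) {g h : P}
    (hg1 : ∀ τ ∈ H, g * τ * g⁻¹ ∈ H) (hg2 : ∀ τ ∈ H, g⁻¹ * τ * g ∈ H) {i j : ℕ} (hj1 : 1 ≤ j)
    (hgi : g ∈ Rk hB i) (hhj : h ∈ Rk hB j) (hhH : h ∈ H) :
    ∃ y : Ω, h • φ y = y ∧ w y = ex 1 ∧
      Fx H (nm H ((g • y / y) * (π / g • π))) ∧
      φ (nm H ((g • y / y) * (π / g • π))) = nm H ((g • y / y) * (π / g • π)) ∧
      w (nm H ((g • y / y) * (π / g • π)) - 1) ≤ ex (cc hB H i + cc hB H j) := by
  obtain ⟨y, hy1, hy2⟩ := hE.exists_twist hB h hhj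
  have hwy : w y = ex 1 := by
    have h1 : w (y - π) < w π := by
      rw [hB.unif]
      refine hy2.trans_lt ?_
      rw [ex_lt_ex]
      have : (1 : ℤ) ≤ j := by exact_mod_cast hj1
      omega
    have h2 := w.map_add_eq_of_lt_right h1
    rw [sub_add_cancel, hB.unif] at h2
    exact h2
  have hy0 : y ≠ 0 := by
    intro h0
    rw [h0, map_zero] at hwy
    exact ex_ne_zero _ hwy.symm
  refine ⟨y, hy1, hwy, nm_fixed _ _, ?_, ?_⟩
  · -- φ-invariance
    have hφy : φ y = h⁻¹ • y := by rw [← hy1, inv_smul_smul, hy1]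
    have e2 : φ (nm H y) = nm H y := by
      rw [hE.map_nm, hφy, nm_smul_mem H (H.inv_mem hhH)]
    have e3 : φ (nm H π) = nm H π := by rw [hE.map_nm, hE.pi]
    have e4 : φ (nm H (g • y)) = nm H (g • y) := by
      rw [← smul_nm H hg1 hg2, hE.comm, e2]
    have e5 : φ (nm H (g • π)) = nm H (g • π) := by
      rw [← smul_nm H hg1 hg2, hE.comm, e3]
    rw [nm_mul, nm_div, nm_div, map_mul, map_div₀, map_div₀, e2, e3, e4, e5]
  · -- valuation
    set x := nm H y / nm H π with hx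
    have hπ0 : nm H π ≠ 0 := nm_ne_zero H hB.pi_ne
    have hny0 : nm H y ≠ 0 := nm_ne_zero H hy0
    have hwx : w x = 1 := by
      rw [hx, map_div₀, hB.val_nm, hwy, hB.val_nm, hB.unif]
      exact div_self (pow_ne_zero _ (ex_ne_zero _))
    have hx1 : w (x - 1) ≤ ex (cc hB H j) := by
      have e1 : x - 1 = (nm H y - nm H π) / nm H π := by
        rw [hx]; field_simp
      rw [e1, map_div₀, hB.val_nm_pi, div_le_iff₀ (ex_pos _), ← ex_add, add_comm]
      exact hB.val_nm_sub' H hy2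
    have hfx : Fx H x := (nm_fixed H y).div (nm_fixed H π)
    have h3 := hB.val_smul_sub_fixed H hg1 hg2 hgi (hfx.sub Fx.one) hx1
    have hx0 : x ≠ 0 := div_ne_zero hny0 hπ0
    have hgny0 : nm H (g • y) ≠ 0 := nm_ne_zero H (by rwa [smul_ne_zero_iff_ne])
    have hgnπ0 : nm H (g • π) ≠ 0 := nm_ne_zero H (by
      rw [smul_ne_zero_iff_ne]; exact hB.pi_ne)
    have e2 : nm H ((g • y / y) * (π / g • π)) - 1 = (g • (x - 1) - (x - 1)) / x := by
      have e3 : g • x = nm H (g • y) / nm H (g • π) := by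
        rw [hx, div_eq_mul_inv, smul_mul', smul_inv'', smul_nm H hg1 hg2, smul_nm H hg1 hg2,
          div_eq_mul_inv]
      rw [smul_sub, smul_one, e3, nm_mul, nm_div, nm_div, hx]
      field_simp
      ring
    rw [e2, map_div₀, hwx, div_one, add_comm]
    exact h3

end

/-- `H / M` is cyclic of order `m`, generated by `τ`. -/
structure Cyc (M H : Subgroup P) (τ : P) (m : ℕ) : Prop where
  le : M ≤ H
  mem : τ ∈ H
  norm : ∀ σ ∈ H, ∀ μ ∈ M, σ * μ * σ⁻¹ ∈ M
  pos : 0 < m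
  pow : τ ^ m ∈ M
  npow : ∀ r, 0 < r → r < m → τ ^ r ∉ M
  cover : ∀ h ∈ H, ∃ r, r < m ∧ ∃ μ ∈ M, h = τ ^ r * μ

namespace Cyc

variable {M H : Subgroup P} {τ : P} {m : ℕ}

theorem norm' (hC : Cyc M H τ m) : ∀ σ ∈ H, ∀ μ ∈ M, σ⁻¹ * μ * σ ∈ M := by
  intro σ hσ μ hμ
  have := hC.norm σ⁻¹ (H.inv_mem hσ) μ hμ
  rwa [inv_inv] at this

theorem inj (hC : Cyc M H τ m) {a b : ℕ} (hb : b < m) (hab : a ≤ b)
    (h : (τ ^ a)⁻¹ * τ ^ b ∈ M) : a = b := by
  by_contra hne
  have h1 : 0 < b - a := by omega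
  have h2 : b - a < m := by omega
  apply hC.npow _ h1 h2
  have h3 : τ ^ b = τ ^ a * τ ^ (b - a) := by
    rw [← pow_add]; congr 1; omega
  rw [h3, inv_mul_cancel_left] at h
  exact h

theorem prod [Fintype P] {A : Type*} [CommMonoid A] (hC : Cyc M H τ m) [Fintype H] [Fintype M]
    (F : P → A) :
    ∏ h : H, F h = ∏ r ∈ range m, ∏ μ : M, F (τ ^ r * μ) := by
  classical
  rw [Finset.prod_range, ← Fintype.prod_prod_type' (fun (r : Fin m) (μ : M) => F (τ ^ (r : ℕ) * μ))]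
  symm
  let e : Fin m × M → H := fun p => ⟨τ ^ (p.1 : ℕ) * p.2,
    H.mul_mem (H.pow_mem hC.mem _) (hC.le p.2.2)⟩
  have he : Function.Bijective e := by
    constructor
    · rintro ⟨a, μ⟩ ⟨b, ν⟩ hab
      have h1 : τ ^ (a : ℕ) * (μ : P) = τ ^ (b : ℕ) * (ν : P) := congrArg Subtype.val hab
      have hab2 : (a : ℕ) = b := by
        rcases le_total (a : ℕ) b with h | h
        · apply hC.inj b.2 h
          have : (τ ^ (a : ℕ))⁻¹ * τ ^ (b : ℕ) = μ * (ν : P)⁻¹ := by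
            rw [inv_mul_eq_iff_eq_mul, ← mul_assoc, h1, mul_assoc, mul_inv_cancel, mul_one]
          rw [this]
          exact M.mul_mem μ.2 (M.inv_mem ν.2)
        · symm
          apply hC.inj a.2 h
          have : (τ ^ (b : ℕ))⁻¹ * τ ^ (a : ℕ) = ν * (μ : P)⁻¹ := by
            rw [inv_mul_eq_iff_eq_mul, ← mul_assoc, ← h1, mul_assoc, mul_inv_cancel, mul_one]
          rw [this]
          exact M.mul_mem ν.2 (M.inv_mem μ.2)
      have hab3 : a = b := Fin.ext hab2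
      subst hab3
      have h4 : (μ : P) = ν := mul_left_cancel h1
      rw [Subtype.ext h4]
    · rintro ⟨h, hh⟩
      obtain ⟨r, hr, μ, hμ, rfl⟩ := hC.cover h hh
      exact ⟨(⟨r, hr⟩, ⟨μ, hμ⟩), rfl⟩
  exact Fintype.prod_equiv (Equiv.ofBijective e he) _ _ (fun p => rfl)

theorem sum [Fintype P] {A : Type*} [AddCommMonoid A] (hC : Cyc M H τ m) [Fintype H] [Fintype M]
    (F : P → A) :
    ∑ h : H, F h = ∑ r ∈ range m, ∑ μ : M, F (τ ^ r * μ) := by
  have := hC.prod (A := Multiplicative A) (fun h => Multiplicative.ofAdd (F h))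
  simpa using congrArg Multiplicative.toAdd this

theorem card [Fintype P] (hC : Cyc M H τ m) : Nat.card H = m * Nat.card M := by
  classical
  have := hC.sum (A := ℕ) (fun _ => 1)
  simpa using this

theorem nm_eq [Fintype P] (hC : Cyc M H τ m) (x : Ω) :
    nm H x = ∏ r ∈ range m, τ ^ r • nm M x := by
  classical
  rw [nm_def, nm_def, hC.prod (fun h => h • x)]
  apply Finset.prod_congr rfl
  intro r _
  rw [smul_prod']
  apply Finset.prod_congr rfl
  intro μ _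
  rw [mul_smul]

/-- Elements of `H` preserve the fixed field of `M`. -/
theorem smul_fixed (hC : Cyc M H τ m) {x : Ω} (hx : Fx M x) {σ : P} (hσ : σ ∈ H) :
    Fx M (σ • x) := by
  intro μ hμ
  have h1 := hx _ (hC.norm' σ hσ μ hμ)
  calc μ • σ • x = σ • ((σ⁻¹ * μ * σ) • x) := by
        rw [smul_smul, smul_smul]; congr 1; group
    _ = σ • x := by rw [h1]

theorem fixed_of (hC : Cyc M H τ m) {x : Ω} (hx : Fx M x) (hτ : τ • x = x) : Fx H x := by
  intro h hh
  obtain ⟨r, hr, μ, hμ, rfl⟩ := hC.cover h hh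
  rw [mul_smul, hx μ hμ]
  clear hh hr
  induction r with
  | zero => simp
  | succ r ih => rw [pow_succ, mul_smul, hτ, ih]

theorem smul_comm' (hC : Cyc M H τ m) {x : Ω} (hx : Fx M x) {σ : P} (hσ : σ ∈ H) :
    σ • τ • x = τ • σ • x := by
  obtain ⟨r, hr, μ, hμ, rfl⟩ := hC.cover σ hσ
  have h1 : Fx M (τ • x) := hC.smul_fixed hx hC.mem
  rw [mul_smul, h1 μ hμ, mul_smul, hx μ hμ, smul_smul, smul_smul, ← pow_succ, pow_succ']

end Cyc

end Pool.Agent.Helper13.Swan
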