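import Pool.Agent.Helper13.Swan.Key3

set_option autoImplicit false

namespace Pool.Agent.Helper13.Swan

open WithZero Finset Polynomial

variable {Ω : Type*} [Field Ω] {P : Type*} [Group P] [MulSemiringAction P Ω]
  {w : Valuation Ω ℤᵐ⁰} {π : Ω}

section

variable [Fintype P]

theorem Base.val_delta (hB : Base P w π) [FaithfulSMul P Ω] (M : Subgroup P) [Fintype M] (g : P) :
    ∏ μ : M, w (π - (g * μ) • π) ≤ w (g • nm M π - nm M π) := by
  classical
  have h1 : ((nmPoly M π).map (MulSemiringAction.toRingHom P Ω g) - nmPoly M π).eval π =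
      ∏ μ : M, (π - (g * μ) • π) := by
    rw [eval_sub, nmPoly_eval_self, sub_zero, nmPoly_def, Polynomial.map_prod, eval_prod]
    apply Finset.prod_congr rfl
    intro μ _
    simp [mul_smul]
  rw [← map_prod, ← h1, eval_eq_sum_range]
  apply w.map_sum_le
  intro k _
  rw [map_mul, coeff_sub, coeff_map, MulSemiringAction.toRingHom_apply]
  have hπ1 : w π ≤ 1 := by rw [hB.unif, ← ex_zero, ex_le_ex]; norm_num
  have h2 : w (π ^ k) ≤ 1 := by
    rw [map_pow]
    exact pow_le_one₀ zero_le hπ1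
  refine (mul_le_of_le_one_right zero_le h2).trans ?_
  exact hB.val_smul_sub_le M g (nmPoly_coeff_fixed M π k) (hB.val_nmPoly_coeff M hπ1 k)

theorem Base.val_displacement (hB : Base P w π) [FaithfulSMul P Ω] {L : ℕ} (hL : Rk hB L = ⊥)
    {h : P} (hh : h ≠ 1) [DecidablePred fun k : ℕ => h ∈ Rk hB k] :
    w (π - h • π) = ex (1 + ((Icc 1 L).filter (fun k : ℕ => h ∈ Rk hB k)).card) := by
  classical
  have h1 := max_ex_count (hB.val_pi_sub_le h) L
  have h2 : ex (L + 1) ≤ w (h • π - π) := by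
    by_contra hc
    push Not at hc
    have h3 : h ∈ Rk hB L := hc.le
    rw [hL, Subgroup.mem_bot] at h3
    exact hh h3
  rw [max_eq_left h2] at h1
  have e : (Icc 1 L).filter (fun k : ℕ => w (h • π - π) ≤ ex (k + 1)) =
      (Icc 1 L).filter (fun k : ℕ => h ∈ Rk hB k) := by
    ext k
    simp only [mem_filter, mem_Rk]
  rw [← Valuation.map_neg, neg_sub, h1, e]

open scoped Classical in
theorem count_le {M H : Subgroup P} {τ : P} {m : ℕ} (hC : Cyc M H τ m) (K : Subgroup P) {r0 : ℕ}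
    (hr0 : r0 ∈ Ico 1 m) :
    ∑ r ∈ Ico 1 m, ∑ μ : M, (if τ ^ r * μ ∈ K then 1 else 0) +
      ∑ μ : M, (if τ ^ r0 * μ ∈ K then 1 else 0) ≤
      if (∃ h ∈ K, h ∈ H ∧ h ∉ M) then (univ.filter (fun h : P => h ∈ H ∧ h ∈ K)).card else 0 := by
  rw [mem_Ico] at hr0
  split_ifs with hex
  · -- the intersection is not contained in `M`
    have hcard : (univ.filter (fun h : P => h ∈ H ∧ h ∈ K)).card =
        ∑ r ∈ range m, ∑ μ : M, (if τ ^ r * μ ∈ K then 1 else 0) := by
      rw [← hC.sum (fun h => if h ∈ K then 1 else 0)]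
      rw [← Finset.sum_subtype (univ.filter (fun τ : P => τ ∈ H)) (p := fun τ => τ ∈ H)
        (by intro x; simp) (fun h => if h ∈ K then 1 else 0)]
      rw [← Finset.sum_filter, Finset.filter_filter, Finset.card_eq_sum_ones]
    rw [hcard, Finset.range_eq_Ico, Finset.sum_eq_sum_Ico_succ_bot hC.pos, add_comm]
    apply Nat.add_le_add_right
    rw [← Finset.card_filter, ← Finset.card_filter]
    rcases Finset.eq_empty_or_nonempty (univ.filter (fun μ : M => τ ^ r0 * (μ : P) ∈ K)) with he | hne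
    · rw [he]; simp
    · obtain ⟨μ0, hμ0⟩ := hne
      rw [mem_filter] at hμ0
      apply Finset.card_le_card_of_injOn (fun μ => μ0⁻¹ * μ)
      · intro μ hμ
        have hμ2 : τ ^ r0 * (μ : P) ∈ K := by simpa using hμ
        have h5 := K.mul_mem (K.inv_mem hμ0.2) hμ2
        have h6 : (τ ^ r0 * (μ0 : P))⁻¹ * (τ ^ r0 * μ) = τ ^ 0 * ((μ0⁻¹ * μ : M) : P) := by
          simp [mul_assoc]
        rw [h6] at h5
        simpa using h5
      · intro a _ b _ hab
        exact mul_left_cancel hab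
  · -- contained in `M`: both sums vanish
    have hz : ∀ r, 1 ≤ r → r < m → ∑ μ : M, (if τ ^ r * (μ : P) ∈ K then 1 else 0) = 0 := by
      intro r h1 h2
      apply Finset.sum_eq_zero
      intro μ _
      rw [if_neg]
      intro hc
      apply hex
      refine ⟨_, hc, H.mul_mem (H.pow_mem hC.mem r) (hC.le μ.2), ?_⟩
      intro hM
      apply hC.npow r h1 h2
      have := M.mul_mem hM (M.inv_mem μ.2)
      rwa [mul_inv_cancel_right] at this
    rw [hz r0 hr0.1 hr0.2, add_zero]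
    apply le_of_eq
    apply Finset.sum_eq_zero
    intro r hr
    rw [mem_Ico] at hr
    exact hz r hr.1 hr.2

open scoped Classical in
/-- The bound `s`. -/
noncomputable def ss (hB : Base P w π) (M H : Subgroup P) (L : ℕ) : ℕ :=
  ∑ k ∈ Icc 1 L, if (∃ h ∈ Rk hB k, h ∈ H ∧ h ∉ M) then
    (univ.filter (fun τ : P => τ ∈ H ∧ τ ∈ Rk hB k)).card else 0

theorem count_total (hB : Base P w π) {M H : Subgroup P} {τ : P} {m : ℕ} (hC : Cyc M H τ m)
    (L : ℕ) {r0 : ℕ} (hr0 : r0 ∈ Ico 1 m)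
    [∀ h : P, DecidablePred fun k : ℕ => h ∈ Rk hB k] [Fintype M] :
    ∑ r ∈ Ico 1 m, ∑ μ : M, (1 + ((Icc 1 L).filter (fun k : ℕ => τ ^ r * μ ∈ Rk hB k)).card) +
      ∑ μ : M, (1 + ((Icc 1 L).filter (fun k : ℕ => τ ^ r0 * μ ∈ Rk hB k)).card) ≤
      Nat.card H + ss hB M H L := by
  classical
  simp only [Finset.sum_add_distrib, Finset.card_filter]
  have h1 : ∑ x ∈ Ico 1 m, ∑ x : M, 1 + ∑ x : M, 1 = Nat.card H := by
    rw [hC.card]
    have hm := hC.pos
    simp only [Finset.sum_const, Finset.card_univ, smul_eq_mul, mul_one, Nat.card_Ico]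
    rw [Nat.card_eq_fintype_card]
    obtain ⟨k, rfl⟩ : ∃ k, m = k + 1 := ⟨m - 1, by omega⟩
    rw [Nat.add_sub_cancel]
    ring
  have h2 : ∑ r ∈ Ico 1 m, ∑ μ : M, ∑ k ∈ Icc 1 L, (if τ ^ r * (μ : P) ∈ Rk hB k then 1 else 0) +
      ∑ μ : M, ∑ k ∈ Icc 1 L, (if τ ^ r0 * (μ : P) ∈ Rk hB k then 1 else 0) ≤ ss hB M H L := by
    unfold ss
    have e1 : ∑ r ∈ Ico 1 m, ∑ μ : M, ∑ k ∈ Icc 1 L,
        (if τ ^ r * (μ : P) ∈ Rk hB k then 1 else 0) =
        ∑ k ∈ Icc 1 L, ∑ r ∈ Ico 1 m, ∑ μ : M,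
        (if τ ^ r * (μ : P) ∈ Rk hB k then 1 else 0) := by
      rw [Finset.sum_comm' (s := Icc 1 L) (t := fun _ => Ico 1 m) (t' := Ico 1 m)
        (s' := fun _ => Icc 1 L) (by intro x y; simp [and_comm])]
      apply Finset.sum_congr rfl
      intro r _
      rw [Finset.sum_comm]
    have e2 : ∑ μ : M, ∑ k ∈ Icc 1 L, (if τ ^ r0 * (μ : P) ∈ Rk hB k then 1 else 0) =
        ∑ k ∈ Icc 1 L, ∑ μ : M, (if τ ^ r0 * (μ : P) ∈ Rk hB k then 1 else 0) :=
      Finset.sum_comm
    rw [e1, e2, ← Finset.sum_add_distrib]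
    apply Finset.sum_le_sum
    intro k _
    have := count_le hC (Rk hB k) hr0
    refine le_trans (le_of_eq ?_) (this.trans (le_of_eq ?_))
    · refine congrArg₂ (· + ·) (Finset.sum_congr rfl (fun r _ => Finset.sum_congr
        (Finset.ext fun x => ?_) (fun μ _ => ?_)))
        (Finset.sum_congr (Finset.ext fun x => ?_) (fun μ _ => ?_))
      · simp only [Finset.mem_univ]
      · split_ifs <;> rfl
      · simp only [Finset.mem_univ]
      · split_ifs <;> rfl
    · split_ifs <;> rfl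
  have h3 : ∀ a b c d e f : ℕ, a + b = e → c + d ≤ f → a + c + (b + d) ≤ e + f := by
    intro a b c d e f h1 h2
    omega
  exact h3 _ _ _ _ _ _ h1 h2

/-- The main estimate on the conjugates of the uniformiser of the fixed field of `M`. -/
theorem Base.val_delta_prod (hB : Base P w π) [FaithfulSMul P Ω] {M H : Subgroup P} {τ : P}
    {m : ℕ} (hC : Cyc M H τ m) {L : ℕ} (hL : Rk hB L = ⊥) {r0 : ℕ} (hr0 : r0 ∈ Ico 1 m) :
    ex (Nat.card H + ss hB M H L) ≤
      (∏ r ∈ Ico 1 m, w (nm M π - τ ^ r • nm M π)) * w (nm M π - τ ^ r0 • nm M π) := by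
  classical
  have h1 : ∀ r ∈ Ico 1 m,
      ex ((∑ μ : M, (1 + ((Icc 1 L).filter
        (fun k : ℕ => τ ^ r * (μ : P) ∈ Rk hB k)).card) : ℕ) : ℤ) ≤
      w (nm M π - τ ^ r • nm M π) := by
    intro r hr
    rw [mem_Ico] at hr
    have h2 := hB.val_delta M (τ ^ r)
    rw [← Valuation.map_neg, neg_sub]
    refine le_trans (le_of_eq ?_) (h2.trans (le_of_eq ?_))
    · push_cast
      rw [← prod_ex]
      apply Finset.prod_congr rfl
      intro μ _
      symm
      apply hB.val_displacement hL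
      intro hc
      apply hC.npow r hr.1 hr.2
      have h5 : τ ^ r = (μ : P)⁻¹ := eq_inv_of_mul_eq_one_left hc
      rw [h5]
      exact M.inv_mem μ.2
    · rw [← Valuation.map_neg, neg_sub]
  have h3 := count_total hB hC L hr0
  calc ex (Nat.card H + ss hB M H L) ≤
      ex (∑ r ∈ Ico 1 m, ((∑ μ : M, (1 + ((Icc 1 L).filter
        (fun k : ℕ => τ ^ r * (μ : P) ∈ Rk hB k)).card) : ℕ) : ℤ) +
      ((∑ μ : M, (1 + ((Icc 1 L).filter
        (fun k : ℕ => τ ^ r0 * (μ : P) ∈ Rk hB k)).card) : ℕ) : ℤ)) := by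
        rw [ex_le_ex]
        exact_mod_cast h3
    _ ≤ _ := by
        rw [ex_add, ← prod_ex]
        apply mul_le_mul' _ (h1 r0 hr0)
        apply Finset.prod_le_prod' h1

end

end Pool.Agent.Helper13.Swan
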