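import Pool.Agent.Helper13.Swan.Key4

set_option autoImplicit false

namespace Pool.Agent.Helper13.Swan

open WithZero Finset Polynomial

variable {Ω : Type*} [Field Ω] {P : Type*} [Group P] [MulSemiringAction P Ω]
  {w : Valuation Ω ℤᵐ⁰} {π : Ω}

theorem val_lt_mul_sub_one {x y : Ω} (hx : w (x - 1) < 1) (hy : w (y - 1) < 1) :
    w (x * y - 1) < 1 := by
  have hy1 : w y ≤ 1 := by
    have e : y = (y - 1) + 1 := by ring
    rw [e]
    exact w.map_add_le hy.le (by rw [map_one])
  have e1 : x * y - 1 = (x - 1) * y + (y - 1) := by ring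
  rw [e1]
  apply w.map_add_lt _ hy
  rw [map_mul]
  exact (mul_le_of_le_one_right zero_le hy1).trans_lt hx

/-- Factorisation of a difference of products. -/
theorem prod_diff (Z Z' : Ω) (hZ : w (Z - 1) < 1) (hZ' : w (Z' - 1) < 1) (t : ℕ → Ω)
    (ht : ∀ r, w (t r) < 1) (s : Finset ℕ) :
    ∃ B, ∏ r ∈ s, (Z + t r) - ∏ r ∈ s, (Z' + t r) = (Z - Z') * B ∧ w (B - s.card) < 1 := by
  classical
  induction s using Finset.induction_on with
  | empty => exact ⟨0, by simp, by simp⟩
  | insert a s ha ih =>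
    obtain ⟨B, hB1, hB2⟩ := ih
    refine ⟨(Z + t a) * B + ∏ r ∈ s, (Z' + t r), ?_, ?_⟩
    · rw [Finset.prod_insert ha, Finset.prod_insert ha]
      linear_combination (Z + t a) * hB1
    · rw [Finset.card_insert_of_notMem ha]
      push_cast
      have h1 : w (∏ r ∈ s, (Z' + t r) - 1) < 1 := by
        clear hB1 hB2 ha
        induction s using Finset.induction_on with
        | empty => simp
        | insert b s hb ih =>
          rw [Finset.prod_insert hb]
          apply val_lt_mul_sub_one _ ih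
          have e : Z' + t b - 1 = (Z' - 1) + t b := by ring
          rw [e]
          exact w.map_add_lt hZ' (ht b)
      have h2 : w ((Z + t a) - 1) < 1 := by
        have e : Z + t a - 1 = (Z - 1) + t a := by ring
        rw [e]
        exact w.map_add_lt hZ (ht a)
      have h3 : w B ≤ 1 := by
        have e : B = (B - s.card) + s.card := by ring
        rw [e]
        apply w.map_add_le hB2.le
        have : (s.card : Ω) ∈ w.integer := natCast_mem _ _
        exact this
      have e : (Z + t a) * B + ∏ r ∈ s, (Z' + t r) - ((s.card : Ω) + 1) =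
          ((Z + t a) - 1) * B + (B - s.card) + (∏ r ∈ s, (Z' + t r) - 1) := by ring
      rw [e]
      apply w.map_add_lt _ h1
      apply w.map_add_lt _ hB2
      rw [map_mul]
      exact (mul_le_of_le_one_right zero_le h3).trans_lt h2

/-- Uniqueness of the root near one. -/
theorem root_unique (Z Z' : Ω) (hZ : w (Z - 1) < 1) (hZ' : w (Z' - 1) < 1) (t : ℕ → Ω)
    (ht : ∀ r, w (t r) < 1) {m : ℕ} (hm : 1 ≤ m)
    (h : Z ^ m = ∏ r ∈ Ico 1 m, (Z + t r)) (h' : Z' ^ m = ∏ r ∈ Ico 1 m, (Z' + t r)) :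
    Z = Z' := by
  obtain ⟨B, hB1, hB2⟩ := prod_diff Z Z' hZ hZ' t ht (Ico 1 m)
  obtain ⟨A, hA1, hA2⟩ := prod_diff Z Z' hZ hZ' (fun _ => 0) (by intro r; simp) (range m)
  simp only [add_zero, Finset.prod_const, card_range] at hA1 hA2
  rw [Nat.card_Ico] at hB2
  rw [← h, ← h', hA1] at hB1
  by_contra hne
  have hne' : Z - Z' ≠ 0 := sub_ne_zero.2 hne
  have hAB : A = B := mul_left_cancel₀ hne' hB1
  subst hAB
  have h1 : w ((A - ((m - 1 : ℕ) : Ω)) - (A - m)) < 1 := by
    rw [sub_eq_add_neg]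
    apply w.map_add_lt hB2
    rw [Valuation.map_neg]; exact hA2
  have e : (A - ((m - 1 : ℕ) : Ω)) - (A - m) = 1 := by
    rw [Nat.cast_sub hm]
    push_cast
    ring
  rw [e, map_one] at h1
  exact lt_irrefl _ h1

variable {φ : Ω ≃+* Ω} {n : ℕ} {θ : Ω} [Fintype P]

omit [Fintype P] in
theorem Fx.prod' {ι : Type*} {Q : Subgroup P} (s : Finset ι) {f : ι → Ω}
    (h : ∀ i ∈ s, Fx Q (f i)) : Fx Q (∏ i ∈ s, f i) := by
  classical
  induction s using Finset.induction_on with
  | empty => simpa using Fx.one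
  | insert a s ha ih =>
    rw [Finset.prod_insert ha]
    exact (h a (mem_insert_self _ _)).mul (ih (fun i hi => h i (mem_insert_of_mem hi)))

/-- Surjectivity of the norm on small units, with a solution fixed by `φ`. -/
theorem norm_surj (hE : Ext P w π φ n θ) (hB : Base P w π) [FaithfulSMul P Ω]
    {M H : Subgroup P} {τ : P} {m : ℕ} (hC : Cyc M H τ m) {L : ℕ} (hL : Rk hB L = ⊥)
    {x : Ω} (hxH : Fx H x) (hφ : φ x = x) (hx : w (x - 1) ≤ ex (ss hB M H L + 1)) :
    ∃ z, Fx M z ∧ φ z = z ∧ w z = 1 ∧ ∏ r ∈ range m, τ ^ r • z = x := by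
  classical
  have hm := hC.pos
  set ϖ := nm M π with hϖ
  have hϖ0 : ϖ ≠ 0 := nm_ne_zero M hB.pi_ne
  have hϖM : Fx M ϖ := nm_fixed M π
  have hτr : ∀ r, τ ^ r ∈ H := fun r => H.pow_mem hC.mem r
  have hϖr : ∀ r, Fx M (τ ^ r • ϖ) := fun r => hC.smul_fixed hϖM (hτr r)
  have hφϖ : φ ϖ = ϖ := by rw [hϖ, hE.map_nm, hE.pi]
  set δ : ℕ → Ω := fun r => ϖ - τ ^ r • ϖ with hδ
  have hδM : ∀ r, Fx M (δ r) := fun r => hϖM.sub (hϖr r)
  have hφδ : ∀ r, φ (δ r) = δ r := by
    intro r
    rw [hδ]
    simp only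
    rw [map_sub, hE.comm, hφϖ]
  set N := nm H π with hN
  have hNeq : N = ∏ r ∈ range m, τ ^ r • ϖ := hC.nm_eq π
  have hNH : Fx H N := nm_fixed H π
  have hφN : φ N = N := by rw [hN, hE.map_nm, hE.pi]
  have hwN : w N = ex (Nat.card H) := hB.val_nm_pi H
  set D := ∏ r ∈ Ico 1 m, δ r with hD
  have hwD : w D = ∏ r ∈ Ico 1 m, w (δ r) := by rw [hD, map_prod]
  have hmain : ∀ r ∈ Ico 1 m, ex (Nat.card H + ss hB M H L) ≤ w D * w (δ r) := by
    intro r hr
    rw [hwD]
    exact hB.val_delta_prod hC hL hr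
  have hδ0 : ∀ r ∈ Ico 1 m, δ r ≠ 0 := by
    intro r hr h0
    have := hmain r hr
    rw [h0, map_zero, mul_zero] at this
    exact absurd this (not_le.2 (ex_pos _))
  have hD0 : D ≠ 0 := Finset.prod_ne_zero_iff.2 hδ0
  -- the constant `c` is `(x-1) * (-1)^m * N`
  set c := (x - 1) * ((-1) ^ m * N) with hc
  have hcH : Fx H c := by
    apply (hxH.sub Fx.one).mul
    apply Fx.mul _ hNH
    exact (Fx.one.neg).pow m
  have hφc : φ c = c := by
    rw [hc, map_mul, map_mul, map_sub, map_pow, map_neg, map_one, hφ, hφN]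
  have hwc : w c = w (x - 1) * ex (Nat.card H) := by
    rw [hc, map_mul, map_mul, map_pow, Valuation.map_neg, map_one, one_pow, one_mul, hwN]
  set ρ := -c / D with hρ
  have hρM : Fx M ρ := by
    apply (hcH.mono hC.le).neg.div
    exact Fx.prod' _ (fun r _ => hδM r)
  have hφρ : φ ρ = ρ := by
    rw [hρ, map_div₀, map_neg, hφc, hD, map_prod]
    simp only [hφδ]
  have hwρ : ∀ r ∈ Ico 1 m, w ρ < w (δ r) := by
    intro r hr
    rw [hρ, map_div₀, Valuation.map_neg, div_lt_iff₀ (zero_lt_iff.2 ((Valuation.ne_zero_iff w).2 hD0)),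
      hwc, mul_comm (w (δ r))]
    refine lt_of_lt_of_le ?_ (hmain r hr)
    calc w (x - 1) * ex (Nat.card H) ≤ ex (ss hB M H L + 1) * ex (Nat.card H) := by
          exact mul_le_mul' hx le_rfl
      _ < ex (Nat.card H + ss hB M H L) := by
          rw [← ex_add, ex_lt_ex]
          omega
  -- the parameters of the Hensel equation
  set t : ℕ → Ω := fun r => if r ∈ Ico 1 m then ρ / δ r else 0 with ht
  have ht1 : ∀ r, w (t r) < 1 ∧ φ (t r) = t r := by
    intro r
    rw [ht]
    simp only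
    split_ifs with hr
    · constructor
      · rw [map_div₀, div_lt_one₀ (zero_lt_iff.2 ((Valuation.ne_zero_iff w).2 (hδ0 r hr)))]
        exact hwρ r hr
      · rw [map_div₀, hφρ, hφδ]
    · simp
  have htM : ∀ r, Fx M (t r) := by
    intro r
    rw [ht]
    simp only
    split_ifs with hr
    · exact hρM.div (hδM r)
    · intro σ _; rw [smul_zero]
  obtain ⟨Z, hφZ, hZ1, hZ2⟩ := hE.hensel m t hm ht1
  have hwZ : w Z = 1 := by
    have h1 : w (Z - 1) < w 1 := by rwa [map_one]
    have h2 := w.map_add_eq_of_lt_right h1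
    rwa [sub_add_cancel, map_one] at h2
  have hZ0 : Z ≠ 0 := by
    intro h; rw [h, map_zero] at hwZ; exact zero_ne_one hwZ
  have hZM : Fx M Z := by
    intro σ hσ
    apply root_unique (σ • Z) Z _ hZ1 t (fun r => (ht1 r).1) hm _ hZ2
    · have e : σ • Z - 1 = σ • (Z - 1) := by rw [smul_sub, smul_one]
      rw [e, hB.inv]; exact hZ1
    · rw [← smul_pow', hZ2, smul_prod']
      apply Finset.prod_congr rfl
      intro r _
      rw [smul_add, htM r σ hσ]
  set y := ρ / Z with hy
  have hyM : Fx M y := hρM.div hZM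
  have hφy : φ y = y := by rw [hy, map_div₀, hφρ, hφZ]
  have hwy : w y = w ρ := by rw [hy, map_div₀, hwZ, div_one]
  set ϖ' := ϖ + y with hϖ'
  have hϖ'M : Fx M ϖ' := hϖM.add hyM
  -- the polynomial
  set F : Polynomial Ω := ∏ r ∈ range m, (X - C (τ ^ r • ϖ)) with hF
  have hFmap : F.map (MulSemiringAction.toRingHom P Ω τ) = F := by
    rw [hF, Polynomial.map_prod]
    rw [← prod_range_shift (fun r => X - C (τ ^ r • ϖ)) m (by
      rw [hϖM _ hC.pow, pow_zero, one_smul])]
    apply Finset.prod_congr rfl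
    intro r _
    simp [pow_succ', mul_smul]
  set G := F + C c with hG
  have hGmap : G.map (MulSemiringAction.toRingHom P Ω τ) = G := by
    rw [hG, Polynomial.map_add, hFmap, map_C, MulSemiringAction.toRingHom_apply, hcH τ hC.mem]
  have hGsmul : ∀ u : Ω, G.eval (τ • u) = τ • G.eval u := by
    intro u
    conv_lhs => rw [← hGmap]
    rw [eval_map, ← MulSemiringAction.toRingHom_apply, eval₂_at_apply,
      MulSemiringAction.toRingHom_apply]
  have hG0 : G.eval ϖ' = 0 := by
    rw [hG, eval_add, eval_C, hF, eval_prod]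
    simp only [eval_sub, eval_X, eval_C]
    rw [Finset.range_eq_Ico, Finset.prod_eq_prod_Ico_succ_bot hm, pow_zero, one_smul]
    have e1 : ∏ r ∈ Ico 1 m, (ϖ' - τ ^ r • ϖ) = ∏ r ∈ Ico 1 m, (δ r * (Z + t r) / Z) := by
      apply Finset.prod_congr rfl
      intro r hr
      have hd := hδ0 r hr
      have e2 : ϖ' - τ ^ r • ϖ = δ r + y := by
        rw [hϖ', hδ]; ring
      rw [e2, hy, ht]
      simp only [if_pos hr]
      field_simp
    rw [e1, Finset.prod_div_distrib, Finset.prod_mul_distrib, ← hZ2, Finset.prod_const,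
      Nat.card_Ico, ← hD]
    have e3 : ϖ' - ϖ = ρ / Z := by rw [hϖ', hy]; ring
    have e4 : Z ^ m = Z * Z ^ (m - 1) := by
      rw [← pow_succ']; congr 1; omega
    rw [e3, e4, hρ]
    field_simp
    ring
  have hGr : ∀ r, G.eval (τ ^ r • ϖ') = 0 := by
    intro r
    induction r with
    | zero => simpa using hG0
    | succ r ih => rw [pow_succ', mul_smul, hGsmul, ih, smul_zero]
  -- distinctness of the conjugates
  have hdist : ∀ a b, a < b → b < m → τ ^ a • ϖ' ≠ τ ^ b • ϖ' := by
    intro a b hab hb heq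
    have e1 : τ ^ b = τ ^ a * τ ^ (b - a) := by rw [← pow_add]; congr 1; omega
    rw [e1, mul_smul] at heq
    have heq2 := MulAction.injective (τ ^ a) heq
    have hr : b - a ∈ Ico 1 m := by rw [mem_Ico]; omega
    have e2 : δ (b - a) = τ ^ (b - a) • y - y := by
      have h3 : ϖ + y = τ ^ (b - a) • ϖ + τ ^ (b - a) • y := by
        rw [← smul_add]; exact heq2
      rw [hδ]
      simp only
      linear_combination h3
    have h4 : w (δ (b - a)) ≤ w y := by
      rw [e2]
      apply w.map_sub_le _ le_rfl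
      rw [hB.inv]
    rw [hwy] at h4
    exact absurd (hwρ _ hr) (not_lt.2 h4)
  have hGeq : G = ∏ r ∈ range m, (X - C (τ ^ r • ϖ')) := by
    rw [← sub_eq_zero]
    apply eq_zero_of_natDegree_lt_card_of_eval_eq_zero (ι := Fin m) _
      (f := fun r : Fin m => τ ^ (r : ℕ) • ϖ')
    · intro a b hab
      by_contra hne
      have hne' : (a : ℕ) ≠ b := fun h => hne (Fin.ext h)
      rcases lt_or_gt_of_ne hne' with h | h
      · exact hdist a b h b.2 hab
      · exact hdist b a h a.2 hab.symm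
    · intro i
      rw [eval_sub, hGr, zero_sub, neg_eq_zero, eval_prod]
      apply Finset.prod_eq_zero (mem_range.2 i.2)
      simp
    · rw [Fintype.card_fin]
      have hFd : F.natDegree = m := by
        rw [hF, natDegree_prod_of_monic _ _ (fun r _ => monic_X_sub_C _)]
        simp
      have hFm : F.Monic := monic_prod_of_monic _ _ (fun r _ => monic_X_sub_C _)
      have hPd : (∏ r ∈ range m, (X - C (τ ^ r • ϖ'))).natDegree = m := by
        rw [natDegree_prod_of_monic _ _ (fun r _ => monic_X_sub_C _)]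
        simp
      have hPm : (∏ r ∈ range m, (X - C (τ ^ r • ϖ'))).Monic :=
        monic_prod_of_monic _ _ (fun r _ => monic_X_sub_C _)
      have hCd : (C c : Polynomial Ω).degree < F.degree := by
        rw [degree_eq_natDegree hFm.ne_zero, hFd]
        refine lt_of_le_of_lt degree_C_le ?_
        exact_mod_cast hm
      have hGm : G.Monic := hFm.add_of_left hCd
      have hGd : G.degree = (m : WithBot ℕ) := by
        rw [hG, degree_add_eq_left_of_degree_lt hCd, degree_eq_natDegree hFm.ne_zero, hFd]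
      have hPd' : (∏ r ∈ range m, (X - C (τ ^ r • ϖ'))).degree = (m : WithBot ℕ) := by
        rw [degree_eq_natDegree hPm.ne_zero, hPd]
      by_cases h0 : G - ∏ r ∈ range m, (X - C (τ ^ r • ϖ')) = 0
      · rw [h0, natDegree_zero]; exact hm
      · rw [natDegree_lt_iff_degree_lt h0, ← hGd]
        apply degree_sub_lt_left (by rw [hGd, hPd']) hGm.ne_zero
        rw [hGm.leadingCoeff, hPm.leadingCoeff]
  have hfinal : ∏ r ∈ range m, τ ^ r • ϖ' = x * N := by
    have h1 := congrArg (fun p : Polynomial Ω => p.eval 0) hGeq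
    simp only [hG, hF, eval_add, eval_prod, eval_sub, eval_X, eval_C, zero_sub] at h1
    rw [Finset.prod_neg, Finset.prod_neg, card_range, ← hNeq, hc] at h1
    have h2 : ((-1 : Ω) ^ m) ≠ 0 := pow_ne_zero _ (by norm_num)
    apply mul_left_cancel₀ h2
    rw [← h1]
    ring
  have hzprod : ∏ r ∈ range m, τ ^ r • (ϖ' / ϖ) = x := by
    have hN0 : N ≠ 0 := nm_ne_zero H hB.pi_ne
    have e1 : ∀ r, τ ^ r • (ϖ' / ϖ) = (τ ^ r • ϖ') / (τ ^ r • ϖ) := by
      intro r
      rw [div_eq_mul_inv, smul_mul', smul_inv'', div_eq_mul_inv]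
    simp only [e1]
    rw [Finset.prod_div_distrib, hfinal, ← hNeq]
    field_simp
  refine ⟨ϖ' / ϖ, hϖ'M.div hϖM, ?_, ?_, hzprod⟩
  · rw [map_div₀, hϖ', map_add, hφϖ, hφy]
  · have h1 : w x = 1 := by
      have h2 : w (x - 1) < w 1 := by
        rw [map_one, ← ex_zero]
        refine hx.trans_lt ?_
        rw [ex_lt_ex]
        positivity
      have h3 := w.map_add_eq_of_lt_right h2
      rwa [sub_add_cancel, map_one] at h3
    rw [← hzprod, map_prod] at h1
    simp only [hB.inv, Finset.prod_const, card_range] at h1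
    exact (pow_eq_one_iff_of_nonneg zero_le hm.ne').1 h1

end Pool.Agent.Helper13.Swan
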