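import Pool.Agent.Helper13.Swan.Key5
import Pool.Agent.Helper13.Swan.Chain

set_option autoImplicit false

namespace Pool.Agent.Helper13.Swan

open WithZero Finset

variable {Ω : Type*} [Field Ω] {P : Type*} [Group P] [MulSemiringAction P Ω] [Fintype P]
  {w : Valuation Ω ℤᵐ⁰} {π : Ω} {M H : Subgroup P} {τ : P} {m : ℕ}

theorem Cyc.delta_ne (hC : Cyc M H τ m) (hB : Base P w π) [FaithfulSMul P Ω] {r : ℕ}
    (h0 : 0 < r) (h1 : r < m) : τ ^ r • nm M π ≠ nm M π := by
  classical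
  intro h
  have h2 := hB.val_delta M (τ ^ r)
  rw [h, sub_self, map_zero] at h2
  have h3 := le_antisymm h2 zero_le
  rw [Finset.prod_eq_zero_iff] at h3
  obtain ⟨μ, _, hμ⟩ := h3
  rw [Valuation.zero_iff, sub_eq_zero] at hμ
  have h4 := hB.pi_free hμ.symm
  apply hC.npow r h0 h1
  have h5 : τ ^ r = (μ : P)⁻¹ := eq_inv_of_mul_eq_one_left h4
  rw [h5]
  exact M.inv_mem μ.2

/-- Hilbert's theorem 90 for the cyclic quotient `H / M`. -/
theorem Cyc.hilbert90 (hC : Cyc M H τ m) (hB : Base P w π) [FaithfulSMul P Ω] {u : Ω}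
    (hu : Fx M u) (hprod : ∏ r ∈ range m, τ ^ r • u = 1) :
    ∃ b, Fx M b ∧ b ≠ 0 ∧ u * τ • b = b := by
  classical
  let A : ℕ → Ω := fun k => ∏ r ∈ range k, τ ^ r • u
  have hAM : ∀ k, Fx M (A k) := fun k =>
    Fx.prod' _ (fun r _ => hC.smul_fixed hu (H.pow_mem hC.mem r))
  have hAsucc : ∀ k, u * τ • A k = A (k + 1) := by
    intro k
    simp only [A]
    rw [Finset.prod_range_succ', smul_prod', pow_zero, one_smul, mul_comm]
    congr 1
    apply Finset.prod_congr rfl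
    intro r _
    rw [smul_smul, pow_succ']
  let S : Submonoid Ω :=
    { carrier := {x | Fx M x}
      one_mem' := Fx.one
      mul_mem' := fun hx hy => Fx.mul hx hy }
  let χ : Fin m → (S →* Ω) := fun k =>
    ((MulSemiringAction.toRingHom P Ω (τ ^ (k : ℕ)) : Ω →* Ω)).comp S.subtype
  have hχ : ∀ (k : Fin m) (x : S), χ k x = τ ^ (k : ℕ) • (x : Ω) := fun k x => rfl
  have hχinj : Function.Injective χ := by
    have key : ∀ a b : Fin m, (a : ℕ) < b → χ a ≠ χ b := by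
      intro a b hab heq
      have h1 := DFunLike.congr_fun heq ⟨nm M π, nm_fixed M π⟩
      rw [hχ, hχ] at h1
      simp only at h1
      have e1 : τ ^ (b : ℕ) = τ ^ (a : ℕ) * τ ^ ((b : ℕ) - a) := by
        rw [← pow_add]; congr 1; omega
      rw [e1, mul_smul] at h1
      have h2 := MulAction.injective (τ ^ (a : ℕ)) h1
      exact hC.delta_ne hB (r := (b : ℕ) - a) (by omega) (by omega) h2.symm
    intro a b hab
    by_contra hne
    have hne' : (a : ℕ) ≠ b := fun h => hne (Fin.ext h)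
    rcases lt_or_gt_of_ne hne' with h | h
    · exact key a b h hab
    · exact key b a h hab.symm
  have hli := (linearIndependent_monoidHom S Ω).comp χ hχinj
  rw [Fintype.linearIndependent_iff] at hli
  have hex : ∃ c : S, ∑ k : Fin m, A k * (τ ^ (k : ℕ) • (c : Ω)) ≠ 0 := by
    by_contra hc
    push Not at hc
    have h1 := hli (fun k => A k) (by
      ext c
      simp only [Finset.sum_apply, Pi.smul_apply, smul_eq_mul, Function.comp]
      exact hc c) ⟨0, hC.pos⟩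
    simp [A] at h1
  obtain ⟨c, hc⟩ := hex
  rw [Fin.sum_univ_eq_sum_range (fun k => A k * (τ ^ k • (c : Ω)))] at hc
  refine ⟨∑ k ∈ range m, A k * (τ ^ k • (c : Ω)), ?_, hc, ?_⟩
  · intro σ hσ
    rw [Finset.smul_sum]
    apply Finset.sum_congr rfl
    intro k _
    rw [smul_mul', hAM k σ hσ, hC.smul_fixed c.2 (H.pow_mem hC.mem k) σ hσ]
  · rw [Finset.smul_sum, Finset.mul_sum]
    have h1 : ∀ k, u * τ • (A k * (τ ^ k • (c : Ω))) = A (k + 1) * (τ ^ (k + 1) • (c : Ω)) := by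
      intro k
      rw [smul_mul', ← mul_assoc, hAsucc, smul_smul, pow_succ']
    rw [Finset.sum_congr rfl (fun k _ => h1 k)]
    apply sum_range_shift (fun k => A k * (τ ^ k • (c : Ω)))
    have h2 : A m = 1 := hprod
    have h3 : τ ^ m • (c : Ω) = c := c.2 _ hC.pow
    rw [h2, h3]
    simp [A]

omit [Fintype P] in
/-- Writing `σ y / y` as `τ y' / y'`. -/
theorem Cyc.exists_shift (hC : Cyc M H τ m) (hB : Base P w π) {y : Ω} (hy : Fx M y) (e : ℕ) :
    ∃ y', Fx M y' ∧ w y' = w y ^ e ∧ (y ≠ 0 → y' ≠ 0) ∧ (τ • y') * y = y' * τ ^ e • y := by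
  refine ⟨∏ r ∈ range e, τ ^ r • y, ?_, ?_, ?_, ?_⟩
  · exact Fx.prod' _ (fun r _ => hC.smul_fixed hy (H.pow_mem hC.mem r))
  · rw [map_prod]
    simp only [hB.inv, Finset.prod_const, card_range]
  · intro h0
    rw [Finset.prod_ne_zero_iff]
    intro r _
    rwa [smul_ne_zero_iff_ne]
  · rw [← Finset.prod_range_succ, Finset.prod_range_succ', smul_prod', pow_zero, one_smul]
    congr 1
    apply Finset.prod_congr rfl
    intro r _
    rw [smul_smul, pow_succ']

variable {φ : Ω ≃+* Ω} {n : ℕ} {θ : Ω}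

omit [Fintype P] in
theorem Ext.fixed (hE : Ext P w π φ n θ) {Q : Subgroup P} {x : Ω} (hx : Fx Q x) : Fx Q (φ x) := by
  intro σ hσ
  rw [← hE.comm, hx σ hσ]

/-- The key inequality, in valuation-theoretic form. -/
theorem key (hE : Ext P w π φ n θ) (hB : Base P w π) [FaithfulSMul P Ω] (hC : Cyc M H τ m)
    {L : ℕ} (hL : Rk hB L = ⊥) {i j : ℕ} (hj1 : 1 ≤ j) {g h : P}
    (hg1 : ∀ τ ∈ H, g * τ * g⁻¹ ∈ H) (hg2 : ∀ τ ∈ H, g⁻¹ * τ * g ∈ H)
    (hgi : g ∈ Rk hB i) (hhj : h ∈ Rk hB j) (hhH : h ∈ H) (hκ : h * g * h⁻¹ * g⁻¹ ∉ M) :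
    cc hB H i + cc hB H j ≤ ss hB M H L := by
  classical
  by_contra hcon
  push Not at hcon
  obtain ⟨y, hy, hwy, hxH, hφx, hx1⟩ := hE.exists_near_one hB H hg1 hg2 hj1 hgi hhj hhH
  set T := (g • y / y) * (π / g • π) with hT
  have hx2 : w (nm H T - 1) ≤ ex (ss hB M H L + 1) := by
    refine hx1.trans ?_
    rw [ex_le_ex]
    have : ((ss hB M H L : ℕ) : ℤ) + 1 ≤ (cc hB H i : ℤ) + cc hB H j := by exact_mod_cast hcon
    exact this
  obtain ⟨z, hzM, hφz, hwz, hzprod⟩ := norm_surj hE hB hC hL hxH hφx hx2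
  have hz0 : z ≠ 0 := by intro h0; rw [h0, map_zero] at hwz; exact zero_ne_one hwz
  have hy0 : y ≠ 0 := by intro h0; rw [h0, map_zero] at hwy; exact ex_ne_zero _ hwy.symm
  have hgy0 : g • y ≠ 0 := by rwa [smul_ne_zero_iff_ne]
  have hπ0 := hB.pi_ne
  have hgπ0 : g • π ≠ 0 := by rwa [smul_ne_zero_iff_ne]
  have hT0 : T ≠ 0 := mul_ne_zero (div_ne_zero hgy0 hy0) (div_ne_zero hπ0 hgπ0)
  -- Hilbert 90
  obtain ⟨b, hbM, hb0, hb⟩ := hC.hilbert90 hB (u := nm M T / z) ((nm_fixed M T).div hzM) (by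
    have e1 : ∀ r, τ ^ r • (nm M T / z) = (τ ^ r • nm M T) / (τ ^ r • z) := by
      intro r
      rw [div_eq_mul_inv, smul_mul', smul_inv'', div_eq_mul_inv]
    simp only [e1]
    rw [Finset.prod_div_distrib, hzprod, ← hC.nm_eq]
    exact div_self (nm_ne_zero H hT0))
  set B := nm M (g • y) with hBdef
  set Cc := nm M y with hCc
  set D := nm M π with hD
  set E' := nm M (g • π) with hE'
  have hB0 : B ≠ 0 := nm_ne_zero M hgy0
  have hCc0 : Cc ≠ 0 := nm_ne_zero M hy0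
  have hD0 : D ≠ 0 := nm_ne_zero M hπ0
  have hE'0 : E' ≠ 0 := nm_ne_zero M hgπ0
  have hBM : Fx M B := nm_fixed _ _
  have hnT : nm M T = B / Cc * (D / E') := by rw [hT, nm_mul, nm_div, nm_div]
  have star : B / Cc * (D / E') * τ • b = z * b := by
    rw [hnT] at hb
    field_simp at hb ⊢
    linear_combination hb
  -- the automorphism `ξ`
  have hnorm_h1 : ∀ μ ∈ M, h * μ * h⁻¹ ∈ M := hC.norm h hhH
  have hnorm_h2 : ∀ μ ∈ M, h⁻¹ * μ * h ∈ M := hC.norm' h hhH
  set κ := h * g * h⁻¹ * g⁻¹ with hκdef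
  have hκH : κ ∈ H := by
    have h1 : κ = h * (g * h⁻¹ * g⁻¹) := by rw [hκdef]; group
    rw [h1]
    exact H.mul_mem hhH (hg1 _ (H.inv_mem hhH))
  have hφy : φ y = h⁻¹ • y := by rw [← hy, inv_smul_smul, hy]
  have hξB : h • φ B = κ • B := by
    rw [hBdef, hE.map_nm, hE.comm, hφy, smul_nm M hnorm_h1 hnorm_h2,
      smul_nm M (hC.norm κ hκH) (hC.norm' κ hκH)]
    congr 1
    rw [smul_smul, smul_smul, smul_smul]
    congr 1
    rw [hκdef]; group
  have hξC : h • φ Cc = Cc := by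
    rw [hCc, hE.map_nm, smul_nm M hnorm_h1 hnorm_h2, hy]
  have hφD : φ D = D := by rw [hD, hE.map_nm, hE.pi]
  have hφE : φ E' = E' := by rw [hE', hE.map_nm, hE.comm, hE.pi]
  have star2 : κ • B / Cc * (h • D / h • E') * τ • (h • φ b) = (h • z) * (h • φ b) := by
    have h1 := congrArg (fun v => h • φ v) star
    simp only [map_mul, smul_mul', div_eq_mul_inv, smul_inv'', map_inv₀] at h1
    rw [hξB, hξC, hφD, hφE, hφz, hE.comm, hC.smul_comm' (hE.fixed hbM) hhH] at h1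
    simp only [div_eq_mul_inv]
    exact h1
  -- units
  set b' := (h • φ b) / b with hb'
  have hξb0 : h • φ b ≠ 0 := by
    rw [smul_ne_zero_iff_ne]
    exact (map_ne_zero_iff φ φ.injective).2 hb0
  have hb'0 : b' ≠ 0 := div_ne_zero hξb0 hb0
  have hwb' : w b' = 1 := by
    rw [hb', map_div₀, hB.inv, hE.val]
    exact div_self ((Valuation.ne_zero_iff w).2 hb0)
  have hb'M : Fx M b' := (hC.smul_fixed (hE.fixed hbM) hhH).div hbM
  set v := D / E' / z with hv
  have hv0 : v ≠ 0 := div_ne_zero (div_ne_zero hD0 hE'0) hz0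
  have hvM : Fx M v := ((nm_fixed M π).div (nm_fixed M (g • π))).div hzM
  have hwv : w v = 1 := by
    rw [hv, map_div₀, map_div₀, hwz, div_one, hD, hE', hB.val_nm, hB.val_nm, hB.inv]
    exact div_self (pow_ne_zero _ ((Valuation.ne_zero_iff w).2 hπ0))
  have hτb0 : τ • b ≠ 0 := by rwa [smul_ne_zero_iff_ne]
  have hhE0 : h • E' ≠ 0 := by rwa [smul_ne_zero_iff_ne]
  have hhD0 : h • D ≠ 0 := by rwa [smul_ne_zero_iff_ne]
  have hhz0 : h • z ≠ 0 := by rwa [smul_ne_zero_iff_ne]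
  have hκB0 : κ • B ≠ 0 := by rwa [smul_ne_zero_iff_ne]
  have hsmuldiv : ∀ (σ : P) (p q : Ω), σ • (p / q) = σ • p / σ • q := by
    intro σ p q
    rw [div_eq_mul_inv, smul_mul', smul_inv'', div_eq_mul_inv]
  have star3 : (κ • B) * (h • v) * (τ • b') = B * v * b' := by
    have e1 : τ • b' = (τ • h • φ b) / (τ • b) := by rw [hb', hsmuldiv]
    have e2 : h • v = h • D / h • E' / h • z := by rw [hv, hsmuldiv, hsmuldiv]
    have s1 : τ • b = z * b * Cc * E' / (B * D) := by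
      field_simp
      field_simp at star
      linear_combination star
    have s2 : τ • h • φ b = (h • z) * (h • φ b) * Cc * (h • E') / (κ • B * h • D) := by
      field_simp
      field_simp at star2
      linear_combination star2
    rw [e1, e2, s1, s2, hb', hv]
    field_simp
  -- write everything with `τ`
  obtain ⟨e, he, μ, hμ, hκe⟩ := hC.cover κ hκH
  obtain ⟨a, _, μ', hμ', hha⟩ := hC.cover h hhH
  obtain ⟨B', hB'M, hwB', hB'0, hB'⟩ := hC.exists_shift hB hBM e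
  obtain ⟨V, hVM, hwV, hV0, hV⟩ := hC.exists_shift hB hvM a
  have hκB : κ • B = τ ^ e • B := by rw [hκe, mul_smul, hBM μ hμ]
  have hhv : h • v = τ ^ a • v := by rw [hha, mul_smul, hvM μ' hμ']
  rw [hκB, hhv] at star3
  have hYfix : τ • (B' * V * b') = B' * V * b' := by
    rw [smul_mul', smul_mul']
    apply mul_right_cancel₀ (mul_ne_zero hB0 hv0)
    calc τ • B' * τ • V * τ • b' * (B * v) = (τ • B' * B) * (τ • V * v) * τ • b' := by ring
      _ = (B' * τ ^ e • B) * (V * τ ^ a • v) * τ • b' := by rw [hB', hV]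
      _ = B' * V * (τ ^ e • B * τ ^ a • v * τ • b') := by ring
      _ = B' * V * (B * v * b') := by rw [star3]
      _ = B' * V * b' * (B * v) := by ring
  have hYH : Fx H (B' * V * b') := hC.fixed_of ((hB'M.mul hVM).mul hb'M) hYfix
  have hY0 : B' * V * b' ≠ 0 := mul_ne_zero (mul_ne_zero (hB'0 hB0) (hV0 hv0)) hb'0
  obtain ⟨k, hk⟩ := hB.val_fixed H hYH hY0
  have hwB : w B = ex (Nat.card M) := by
    rw [hBdef, hB.val_nm, hB.inv, hwy, ex_pow, mul_one]
  rw [map_mul, map_mul, hwB', hwV, hwv, hwb', one_pow, mul_one, mul_one, hwB, ex_pow, ex_inj,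
    hC.card] at hk
  have hMpos : 0 < Nat.card M := Nat.card_pos
  have hdvd : (m : ℤ) ∣ e := by
    refine ⟨k, ?_⟩
    have h3 : (Nat.card M : ℤ) ≠ 0 := by exact_mod_cast hMpos.ne'
    apply mul_right_cancel₀ h3
    push_cast at hk
    linear_combination hk
  have hdvd' : m ∣ e := by exact_mod_cast hdvd
  have he0 : e = 0 := Nat.eq_zero_of_dvd_of_lt hdvd' he
  apply hκ
  rw [hκe, he0, pow_zero, one_mul]
  exact hμ

end Pool.Agent.Helper13.Swan
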