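import Pool.Agent.Helper13.Swan.Key6

set_option autoImplicit false

namespace Pool.Agent.Helper13.Swan

open WithZero Finset

variable {Ω : Type*} [Field Ω] {P : Type*} [Group P] [MulSemiringAction P Ω] [Fintype P]
  {w : Valuation Ω ℤᵐ⁰} {π : Ω} {φ : Ω ≃+* Ω} {n : ℕ} {θ : Ω}

/-- The subgroup where a character of a subgroup, extended by zero, does not vanish. -/
def supp (f : P → ℂ) (f1 : f 1 = 1) (fmul : ∀ a b, f a ≠ 0 → f (a * b) = f a * f b) :
    Subgroup P where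
  carrier := {h | f h ≠ 0}
  one_mem' := by
    change f 1 ≠ 0
    rw [f1]; exact one_ne_zero
  mul_mem' := by
    intro a b ha hb
    change f (a * b) ≠ 0
    rw [fmul a b ha]
    exact mul_ne_zero ha hb
  inv_mem' := by
    intro a ha
    change f a⁻¹ ≠ 0
    have h1 := fmul a a⁻¹ ha
    rw [mul_inv_cancel, f1] at h1
    intro h0
    rw [h0, mul_zero] at h1
    exact one_ne_zero h1

/-- The kernel of the character. -/
def kern (f : P → ℂ) (f1 : f 1 = 1) (fmul : ∀ a b, f a ≠ 0 → f (a * b) = f a * f b) :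
    Subgroup P where
  carrier := {h | f h = 1}
  one_mem' := f1
  mul_mem' := by
    intro a b ha hb
    change f (a * b) = 1
    change f a = 1 at ha
    change f b = 1 at hb
    rw [fmul a b (by rw [ha]; exact one_ne_zero), ha, hb, mul_one]
  inv_mem' := by
    intro a ha
    change f a = 1 at ha
    change f a⁻¹ = 1
    have h1 := fmul a a⁻¹ (by rw [ha]; exact one_ne_zero)
    rw [mul_inv_cancel, f1, ha, one_mul] at h1
    exact h1.symm

theorem exists_cyc (f : P → ℂ) (f1 : f 1 = 1) (fmul : ∀ a b, f a ≠ 0 → f (a * b) = f a * f b) :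
    ∃ τ m, Cyc (kern f f1 fmul) (supp f f1 fmul) τ m := by
  classical
  set H := supp f f1 fmul with hH
  set M := kern f f1 fmul with hM
  have memH : ∀ h, h ∈ H ↔ f h ≠ 0 := fun h => Iff.rfl
  have memM : ∀ h, h ∈ M ↔ f h = 1 := fun h => Iff.rfl
  let χ0 : H →* ℂ :=
    { toFun := fun h => f h
      map_one' := f1
      map_mul' := fun a b => fmul a b a.2 }
  let χ : H →* ℂˣ := χ0.toHomUnits
  have hχ : ∀ h : H, ((χ h : ℂˣ) : ℂ) = f h := fun h => rfl
  obtain ⟨⟨_, ⟨τ, rfl⟩⟩, hτ⟩ := (isCyclic_subgroup_units χ.range).exists_generator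
  have hpow : ∀ k : ℕ, f ((τ : P) ^ k) = f τ ^ k := by
    intro k
    have h1 := hχ (τ ^ k)
    rw [map_pow] at h1
    push_cast at h1
    rw [hχ] at h1
    exact h1.symm
  have hinv : ∀ a ∈ H, f a⁻¹ = (f a)⁻¹ := by
    intro a ha
    have h1 := fmul a a⁻¹ ha
    rw [mul_inv_cancel, f1] at h1
    exact eq_inv_of_mul_eq_one_right h1.symm
  have hfin : 0 < orderOf (χ τ) := by
    rw [orderOf_pos_iff, isOfFinOrder_iff_pow_eq_one]
    refine ⟨Fintype.card P, Fintype.card_pos, ?_⟩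
    rw [← map_pow]
    have : τ ^ Fintype.card P = 1 := by
      apply Subtype.ext
      rw [Subgroup.coe_pow, pow_card_eq_one, Subgroup.coe_one]
    rw [this, map_one]
  have hone : ∀ k : ℕ, f ((τ : P) ^ k) = 1 ↔ orderOf (χ τ) ∣ k := by
    intro k
    rw [hpow, orderOf_dvd_iff_pow_eq_one, ← Units.val_inj, Units.val_pow_eq_pow_val, hχ,
      Units.val_one]
  refine ⟨τ, orderOf (χ τ), ?_⟩
  constructor
  · intro h hh
    rw [memM] at hh
    rw [memH, hh]
    exact one_ne_zero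
  · exact τ.2
  · intro σ hσ μ hμ
    rw [memM] at hμ ⊢
    rw [mul_assoc, fmul σ _ hσ, fmul μ _ (by rw [hμ]; exact one_ne_zero), hμ, one_mul,
      hinv σ hσ]
    exact mul_inv_cancel₀ hσ
  · exact hfin
  · rw [memM, hone]
  · intro r h0 h1
    rw [memM, hone]
    intro h2
    exact absurd (Nat.le_of_dvd h0 h2) (not_le.2 h1)
  · intro h hh
    obtain ⟨k, hk⟩ := hτ ⟨χ ⟨h, hh⟩, ⟨⟨h, hh⟩, rfl⟩⟩
    have hk2 : χ τ ^ k = χ ⟨h, hh⟩ := congrArg Subtype.val hk
    have hk3 : χ τ ^ (k % orderOf (χ τ)).toNat = χ ⟨h, hh⟩ := by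
      rw [← hk2, ← zpow_natCast, Int.toNat_of_nonneg (Int.emod_nonneg _ (by
        exact_mod_cast hfin.ne')), zpow_mod_orderOf]
    have hlt := Int.emod_lt_of_pos k (b := (orderOf (χ τ) : ℤ)) (by exact_mod_cast hfin)
    have hnn := Int.emod_nonneg k (b := (orderOf (χ τ) : ℤ)) (by exact_mod_cast hfin.ne')
    refine ⟨(k % orderOf (χ τ)).toNat, by omega, ((τ : P) ^ (k % orderOf (χ τ)).toNat)⁻¹ * h, ?_,
      by rw [mul_inv_cancel_left]⟩
    rw [memM]
    have hτH : (τ : P) ^ (k % orderOf (χ τ)).toNat ∈ H := H.pow_mem τ.2 _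
    rw [fmul _ _ (H.inv_mem hτH), hinv _ hτH, hpow]
    have h3 := congrArg Units.val hk3
    rw [Units.val_pow_eq_pow_val, hχ, hχ] at h3
    rw [h3]
    exact inv_mul_cancel₀ hh

/-- The key inequality for all linear characters of subgroups. -/
theorem keyIneq (hE : Ext P w π φ n θ) (hB : Base P w π) [FaithfulSMul P Ω]
    {L : ℕ} (hL : Rk hB L = ⊥) (f : P → ℂ) (f1 : f 1 = 1)
    (fmul : ∀ a b, f a ≠ 0 → f (a * b) = f a * f b) : KeyIneq (Rk hB) L f := by
  classical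
  intro i j _ hj1 g hgi hg2 h hhj hhH hne
  obtain ⟨τ, m, hC⟩ := exists_cyc f f1 fmul
  set H := supp f f1 fmul with hH
  set M := kern f f1 fmul with hM
  have memH : ∀ h, h ∈ H ↔ f h ≠ 0 := fun h => Iff.rfl
  have memM : ∀ h, h ∈ M ↔ f h = 1 := fun h => Iff.rfl
  have hg2' : ∀ τ ∈ H, g⁻¹ * τ * g ∈ H := fun τ hτ => hg2 τ hτ
  have hg1 : ∀ τ ∈ H, g * τ * g⁻¹ ∈ H := by
    -- finiteness
    have hsurj : Function.Surjective (fun τ : H => (⟨g⁻¹ * τ * g, hg2' τ τ.2⟩ : H)) := by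
      apply Finite.surjective_of_injective
      intro a b hab
      have h1 : g⁻¹ * (a : P) * g = g⁻¹ * b * g := congrArg Subtype.val hab
      apply Subtype.ext
      exact mul_left_cancel (mul_right_cancel h1)
    intro τ hτ
    obtain ⟨σ, hσ⟩ := hsurj ⟨τ, hτ⟩
    have h1 : g⁻¹ * (σ : P) * g = τ := congrArg Subtype.val hσ
    rw [← h1]
    have h2 : g * (g⁻¹ * (σ : P) * g) * g⁻¹ = σ := by group
    rw [h2]
    exact σ.2
  have hinv : ∀ a ∈ H, f a⁻¹ = (f a)⁻¹ := by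
    intro a ha
    have h1 := fmul a a⁻¹ ha
    rw [mul_inv_cancel, f1] at h1
    exact eq_inv_of_mul_eq_one_right h1.symm
  have hκ : h * g * h⁻¹ * g⁻¹ ∉ M := by
    rw [memM]
    have e1 : h * g * h⁻¹ * g⁻¹ = h * (g * h * g⁻¹)⁻¹ := by group
    have h2 : g * h * g⁻¹ ∈ H := hg1 h hhH
    rw [e1, fmul h _ hhH, hinv _ h2]
    intro h3
    apply hne
    have h4 : f (g * h * g⁻¹) ≠ 0 := h2
    field_simp at h3
    exact h3.symm
  have hmain := key hE hB hC hL hj1 hg1 hg2' hgi hhj hhH hκ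
  have hcnt : ∀ k, (univ.filter (fun τ : P => τ ∈ H ∧ τ ∈ Rk hB k)).card = cnt f (Rk hB k) := by
    intro k
    unfold cnt
    congr 1
    ext x
    simp only [mem_filter, mem_univ, true_and, memH]
    tauto
  have hcc : ∀ i, cc hB H i = ∑ k ∈ Icc 1 i, cnt f (Rk hB k) := by
    intro i
    unfold cc
    apply Finset.sum_congr rfl
    intro k _
    rw [← hcnt]
  have hss : ss hB M H L = ∑ k ∈ Icc 1 L, if (∃ h ∈ Rk hB k, f h ≠ 0 ∧ f h ≠ 1)
      then cnt f (Rk hB k) else 0 := by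
    unfold ss
    apply Finset.sum_congr rfl
    intro k _
    rw [hcnt]
    congr 1
  rw [hcc, hcc, hss] at hmain
  exact hmain

/-- The representation-theoretic conclusion. -/
theorem main_ext.{u, v} {Ω : Type*} [Field Ω] {P : Type u} [Group P] [MulSemiringAction P Ω]
    [Fintype P] {w : Valuation Ω ℤᵐ⁰} {π : Ω} {φ : Ω ≃+* Ω} {n : ℕ} {θ : Ω}
    (hE : Ext P w π φ n θ) (hB : Base P w π) [FaithfulSMul P Ω] (hP : IsPGroup 2 P)
    {L : ℕ} (hL : Rk hB L = ⊥)
    (V : Type v) [AddCommGroup V] [Module ℂ V] [FiniteDimensional ℂ V]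
    (ρ : Representation ℂ P V) : ∃ z : ℕ, S (Rk hB) L ρ = (z : ℂ) :=
  main_rep hP (Rk_antitone hB) (Rk_normal hB) L (fun f h1 h2 => keyIneq hE hB hL f h1 h2) V ρ

end Pool.Agent.Helper13.Swan
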