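import Pool.Agent.Helper13.Swan.Complete

set_option autoImplicit false

namespace Pool.Agent.Helper13.Swan

open IsLocalRing

theorem exists_pow_idem {Q : Type*} [Monoid Q] [Finite Q] (x : Q) :
    ∃ N : ℕ, 1 ≤ N ∧ x ^ N * x ^ N = x ^ N := by
  obtain ⟨a, b, hab, h⟩ := Finite.exists_ne_map_eq_of_infinite (fun k : ℕ => x ^ k)
  have key : ∀ m n : ℕ, m < n → x ^ m = x ^ n → ∃ N : ℕ, 1 ≤ N ∧ x ^ N * x ^ N = x ^ N := by
    intro m n hmn heq
    obtain ⟨d, hd, rfl⟩ : ∃ d, 1 ≤ d ∧ n = m + d := ⟨n - m, by omega, by omega⟩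
    have h1 : ∀ j, m ≤ j → x ^ (j + d) = x ^ j := by
      intro j hj
      obtain ⟨i, rfl⟩ := Nat.exists_eq_add_of_le hj
      rw [show m + i + d = (m + d) + i by ring, pow_add, ← heq, ← pow_add]
    have h2 : ∀ t j, m ≤ j → x ^ (j + d * t) = x ^ j := by
      intro t
      induction t with
      | zero => intro j _; simp
      | succ t ih =>
        intro j hj
        rw [show j + d * (t + 1) = (j + d * t) + d by ring, h1 _ (by omega), ih j hj]
    refine ⟨d * (m + 1), by nlinarith, ?_⟩
    rw [← pow_add]
    exact h2 (m + 1) _ (by nlinarith)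
  rcases lt_or_gt_of_ne hab with h1 | h1
  · exact key a b h1 h
  · exact key b a h1 h.symm

section ext

variable (A B : Type*) [CommRing A] [IsLocalRing A] [CommRing B] [Algebra A B]
  [Module.Finite A B]

theorem map_max_ne_top [Nontrivial B] : (maximalIdeal A).map (algebraMap A B) ≠ ⊤ := by
  intro h
  have h1 : (⊤ : Submodule A B) ≤ (maximalIdeal A) • (⊤ : Submodule A B) := by
    rw [Ideal.smul_top_eq_map, h]
    simp
  have h2 := Submodule.eq_bot_of_le_smul_of_le_jacobson_bot (maximalIdeal A) ⊤
    Module.Finite.fg_top h1 (maximalIdeal_le_jacobson _)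
  have h3 : (1 : B) ∈ (⊤ : Submodule A B) := Submodule.mem_top
  rw [h2, Submodule.mem_bot] at h3
  exact one_ne_zero h3

theorem finite_quot [Finite (ResidueField A)] :
    Finite (B ⧸ (maximalIdeal A).map (algebraMap A B)) := by
  classical
  obtain ⟨n, s, hs⟩ := Module.Finite.exists_fin (R := A) (M := B)
  have hsec : ∀ c : ResidueField A, ∃ a : A, residue A a = c := residue_surjective
  choose σ hσ using hsec
  apply Finite.of_surjective (fun c : Fin n → ResidueField A =>
    Ideal.Quotient.mk ((maximalIdeal A).map (algebraMap A B)) (∑ i, σ (c i) • s i))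
  intro x
  obtain ⟨b, rfl⟩ := Ideal.Quotient.mk_surjective x
  have hb : b ∈ Submodule.span A (Set.range s) := by rw [hs]; trivial
  rw [Submodule.mem_span_range_iff_exists_fun] at hb
  obtain ⟨a, rfl⟩ := hb
  refine ⟨fun i => residue A (a i), ?_⟩
  rw [Ideal.Quotient.eq, ← Finset.sum_sub_distrib]
  apply Ideal.sum_mem
  intro i _
  rw [← sub_smul, Algebra.smul_def]
  apply Ideal.mul_mem_right
  apply Ideal.mem_map_of_mem
  rw [← residue_eq_zero_iff, map_sub, hσ, sub_self]

/-- A finite domain over a complete local ring with finite residue field is local. -/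
theorem isLocal_of_complete [IsAdicComplete (maximalIdeal A) A] [Finite (ResidueField A)]
    [IsDomain B] [IsNoetherianRing B] : IsLocalRing B := by
  set I := (maximalIdeal A).map (algebraMap A B) with hI
  have hne : I ≠ ⊤ := map_max_ne_top A B
  have hcomp : IsAdicComplete I B := adicComplete_of_finite (maximalIdeal A) inferInstance hne
  have hfin : Finite (B ⧸ I) := finite_quot A B
  have hhens : HenselianRing B I := inferInstance
  have hloc : IsLocalHom (Ideal.Quotient.mk I) := isLocalHom_of_le_jacobson_bot I hhens.jac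
  apply IsLocalRing.of_isUnit_or_isUnit_one_sub_self
  intro a
  obtain ⟨N, hN, hidem⟩ := exists_pow_idem (Ideal.Quotient.mk I a)
  -- lift the idempotent
  have hmon : (Polynomial.X ^ 2 - Polynomial.X : Polynomial B).Monic := by
    apply Polynomial.monic_X_pow_sub
    rw [Polynomial.degree_X]
    norm_num
  obtain ⟨r, hr1, hr2⟩ := hhens.is_henselian (Polynomial.X ^ 2 - Polynomial.X) hmon (a ^ N)
    (by
      rw [← Ideal.Quotient.eq_zero_iff_mem]
      simp only [Polynomial.eval_sub, Polynomial.eval_pow, Polynomial.eval_X, map_sub, map_pow]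
      rw [sq, hidem, sub_self])
    (by
      simp only [Polynomial.derivative_X_pow, Polynomial.derivative_X,
        Polynomial.eval_sub, Polynomial.eval_mul, Polynomial.eval_one, Polynomial.eval_pow,
        Polynomial.eval_X, Polynomial.eval_C, map_sub, map_mul, map_pow, map_one]
      apply IsUnit.of_mul_eq_one ((Ideal.Quotient.mk I) ((2 : ℕ) : B) *
        (Ideal.Quotient.mk I) a ^ N - 1)
      have e : (((Ideal.Quotient.mk I) ((2 : ℕ) : B)) * ((Ideal.Quotient.mk I) a ^ N) ^ (2 - 1) - 1)
          * ((Ideal.Quotient.mk I) ((2 : ℕ) : B) * (Ideal.Quotient.mk I) a ^ N - 1) =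
          ((Ideal.Quotient.mk I) ((2 : ℕ) : B)) ^ 2 *
            ((Ideal.Quotient.mk I) a ^ N * (Ideal.Quotient.mk I) a ^ N) -
          2 * (Ideal.Quotient.mk I) ((2 : ℕ) : B) * (Ideal.Quotient.mk I) a ^ N + 1 := by
        ring
      rw [e, hidem]
      push_cast
      rw [map_ofNat]
      ring)
  have hr3 : r ^ 2 - r = 0 := by
    have := hr1
    rw [Polynomial.IsRoot.def] at this
    simpa using this
  have hr4 : r = 0 ∨ r = 1 := by
    have h1 : r * (r - 1) = 0 := by rw [← hr3]; ring
    rcases mul_eq_zero.1 h1 with h | h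
    · exact Or.inl h
    · exact Or.inr (sub_eq_zero.1 h)
  have hr5 : (Ideal.Quotient.mk I) r = (Ideal.Quotient.mk I) a ^ N := by
    rw [← map_pow]
    exact (Ideal.Quotient.eq).2 hr2
  rcases hr4 with h | h
  · -- nilpotent case
    right
    rw [h, map_zero] at hr5
    apply hloc.map_nonunit
    rw [map_sub, map_one]
    exact IsNilpotent.isUnit_one_sub ⟨N, hr5.symm⟩
  · left
    rw [h, map_one] at hr5
    apply hloc.map_nonunit
    apply IsUnit.of_pow_eq_one hr5.symm
    omega

end ext

section dvr

variable (A B : Type*) [CommRing A] [IsLocalRing A] [CommRing B] [Algebra A B]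
  [Module.Finite A B] [IsDomain B]

omit [IsDomain B] in
theorem map_max_le [IsLocalRing B] : (maximalIdeal A).map (algebraMap A B) ≤ maximalIdeal B :=
  le_maximalIdeal (map_max_ne_top A B)

theorem complete_of_dvr [IsAdicComplete (maximalIdeal A) A] [IsDiscreteValuationRing B]
    (hne : (maximalIdeal A).map (algebraMap A B) ≠ ⊥) : IsAdicComplete (maximalIdeal B) B := by
  obtain ⟨p, hp⟩ := IsDiscreteValuationRing.exists_irreducible B
  obtain ⟨e, he⟩ := IsDiscreteValuationRing.ideal_eq_span_pow_irreducible hne hp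
  have hcomp : IsAdicComplete ((maximalIdeal A).map (algebraMap A B)) B :=
    adicComplete_of_finite (maximalIdeal A) inferInstance (map_max_ne_top A B)
  have he1 : 1 ≤ e := by
    by_contra hc
    have : e = 0 := by omega
    rw [this, pow_zero, Ideal.span_singleton_one] at he
    exact map_max_ne_top A B he
  apply adicComplete_of_pow_le he1 _ (map_max_le A B) hcomp
  rw [he, hp.maximalIdeal_eq, Ideal.span_singleton_pow]

theorem finite_residue [Finite (ResidueField A)] [IsLocalRing B] : Finite (ResidueField B) := by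
  have := finite_quot A B
  exact Finite.of_surjective (Ideal.Quotient.factor (map_max_le A B))
    (Ideal.Quotient.factor_surjective _)

omit [Module.Finite A B] [IsDomain B] in
theorem charP_residue [Module.Finite A B] [IsDomain B] [CharP (ResidueField A) 2]
    [IsLocalRing B] : CharP (ResidueField B) 2 := by
  apply CharTwo.of_one_ne_zero_of_two_eq_zero one_ne_zero
  have h1 : (2 : A) ∈ maximalIdeal A := by
    rw [← residue_eq_zero_iff, map_ofNat]
    exact CharTwo.two_eq_zero
  have h2 : algebraMap A B 2 ∈ maximalIdeal B := map_max_le A B (Ideal.mem_map_of_mem _ h1)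
  rw [map_ofNat] at h2
  rw [← map_ofNat (residue B) 2]
  exact (residue_eq_zero_iff _).2 h2

end dvr

end Pool.Agent.Helper13.Swan
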