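import Pool.Agent.Helper13.Swan.LF1

set_option autoImplicit false

namespace Pool.Agent.Helper13.Swan

open IsLocalRing ValuativeRel

section general

variable {B : Type*} [CommRing B] [IsLocalRing B] (σ : B →+* B)

theorem dmem (h : ∀ x, σ x - x ∈ maximalIdeal B ^ 2) (j : ℕ) :
    ∀ y ∈ maximalIdeal B ^ j, σ y - y ∈ maximalIdeal B ^ (j + 1) := by
  induction j with
  | zero =>
    intro y _
    exact Ideal.pow_le_pow_right (by norm_num) (h y)
  | succ j ih =>
    intro y hy
    rw [pow_succ] at hy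
    refine Submodule.mul_induction_on hy ?_ ?_
    · intro a ha b hb
      have e : σ (a * b) - a * b = (σ a - a) * σ b + a * (σ b - b) := by
        rw [map_mul]; ring
      rw [e]
      have hσb : σ b ∈ maximalIdeal B := by
        have h1 : σ b = b + (σ b - b) := by ring
        rw [h1]
        exact Ideal.add_mem _ hb (Ideal.pow_le_self (by norm_num) (h b))
      apply Ideal.add_mem
      · rw [pow_succ]
        exact Ideal.mul_mem_mul (ih a ha) hσb
      · rw [show j + 1 + 1 = j + 2 by ring, pow_add]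
        exact Ideal.mul_mem_mul ha (h b)
    · intro a b ha hb
      have e : σ (a + b) - (a + b) = (σ a - a) + (σ b - b) := by rw [map_add]; ring
      rw [e]
      exact Ideal.add_mem _ ha hb

theorem sq_step (h2 : (2 : B) ∈ maximalIdeal B) {i : ℕ} (hi : 1 ≤ i)
    (h : ∀ x, σ x - x ∈ maximalIdeal B ^ (i + 1)) (x : B) :
    σ (σ x) - x ∈ maximalIdeal B ^ (i + 2) := by
  have e : σ (σ x) - x = (σ (σ x - x) - (σ x - x)) + 2 * (σ x - x) := by
    rw [map_sub]; ring
  rw [e]
  apply Ideal.add_mem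
  · apply dmem σ _ (i + 1) _ (h x)
    intro y
    exact Ideal.pow_le_pow_right (by omega) (h y)
  · rw [show i + 2 = 1 + (i + 1) by ring, pow_add, pow_one]
    exact Ideal.mul_mem_mul h2 (h x)

end general

section localfield

variable (F : Type*) [Field F] [ValuativeRel F] [TopologicalSpace F]
  [IsNonarchimedeanLocalField F] (E : Type*) [Field E] [Algebra F E]

/-- The ring of integers of `E`: the integral closure in `E` of the valuation ring `𝒪[F]`. -/
noncomputable abbrev OE : Subalgebra 𝒪[F] E := integralClosure 𝒪[F] E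

theorem adic_OF : IsAdicComplete (maximalIdeal 𝒪[F]) 𝒪[F] := by
  let := IsTopologicalAddGroup.rightUniformSpace F
  have := isUniformAddGroup_of_addCommGroup (G := F)
  exact inferInstanceAs (IsAdicComplete 𝓂[F] 𝒪[F])

variable [FiniteDimensional F E] [IsGalois F E]

instance instFiniteOE : Module.Finite 𝒪[F] (OE F E) :=
  IsIntegralClosure.finite 𝒪[F] F E (OE F E)

instance instDedekindOE : IsDedekindDomain (OE F E) := integralClosure.isDedekindDomain 𝒪[F] F E

instance instLocalOE : IsLocalRing (OE F E) := by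
  have := adic_OF F
  have : Finite (ResidueField 𝒪[F]) := inferInstanceAs (Finite 𝓀[F])
  exact isLocal_of_complete 𝒪[F] (OE F E)

omit [FiniteDimensional F E] [IsGalois F E] in
theorem map_OF_ne_bot : (maximalIdeal 𝒪[F]).map (algebraMap 𝒪[F] (OE F E)) ≠ ⊥ := by
  obtain ⟨p, hp⟩ := IsDiscreteValuationRing.exists_irreducible 𝒪[F]
  intro h
  rw [hp.maximalIdeal_eq, Ideal.map_span, Set.image_singleton, Ideal.span_singleton_eq_bot] at h
  have h1 : ((algebraMap 𝒪[F] (OE F E) p : OE F E) : E) = 0 := by rw [h]; rfl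
  have h2 : algebraMap F E (p : F) = 0 := h1
  rw [map_eq_zero] at h2
  exact hp.ne_zero (Subtype.ext h2)

instance instDVROE : IsDiscreteValuationRing (OE F E) := by
  have hpir : IsPrincipalIdealRing (OE F E) :=
    ((tfae_of_isNoetherianRing_of_isLocalRing_of_isDomain (OE F E)).out 0 2).2
      (instDedekindOE F E)
  refine { not_a_field' := ?_ }
  intro h
  apply map_OF_ne_bot F E
  rw [eq_bot_iff, ← h]
  exact map_max_le 𝒪[F] (OE F E)

theorem adic_OE : IsAdicComplete (maximalIdeal (OE F E)) (OE F E) := by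
  have := adic_OF F
  exact complete_of_dvr 𝒪[F] (OE F E) (map_OF_ne_bot F E)

theorem finite_res_OE : Finite (ResidueField (OE F E)) := by
  have : Finite (ResidueField 𝒪[F]) := inferInstanceAs (Finite 𝓀[F])
  exact finite_residue 𝒪[F] (OE F E)

theorem char_res_OE [CharP 𝓀[F] 2] : CharP (ResidueField (OE F E)) 2 := by
  have : CharP (ResidueField 𝒪[F]) 2 := inferInstanceAs (CharP 𝓀[F] 2)
  exact charP_residue 𝒪[F] (OE F E)

instance instFracOE : IsFractionRing (OE F E) E :=
  integralClosure.isFractionRing_of_finite_extension F E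

omit [FiniteDimensional F E] [IsGalois F E] [TopologicalSpace F]
  [IsNonarchimedeanLocalField F] in
theorem gal_mem (σ : E ≃ₐ[F] E) (x : OE F E) : σ (x : E) ∈ OE F E := by
  have h1 : IsIntegral 𝒪[F] (x : E) := x.2
  exact h1.map (σ.restrictScalars 𝒪[F] : E ≃ₐ[𝒪[F]] E)

/-- The action of the Galois group on the ring of integers. -/
@[instance_reducible]
noncomputable def galAct : MulSemiringAction (E ≃ₐ[F] E) (OE F E) where
  smul σ x := ⟨σ (x : E), gal_mem F E σ x⟩
  one_smul _ := Subtype.ext rfl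
  mul_smul _ _ _ := Subtype.ext rfl
  smul_zero σ := Subtype.ext (map_zero σ)
  smul_add σ _ _ := Subtype.ext (map_add σ _ _)
  smul_one σ := Subtype.ext (map_one σ)
  smul_mul σ _ _ := Subtype.ext (map_mul σ _ _)

/-- The lower-numbering ramification groups: `G_i` consists of the `σ` with
`σ x ≡ x` modulo the `(i+1)`-st power of the maximal ideal of `𝒪_E`, for all `x ∈ 𝒪_E`. -/
def lowerRam (i : ℕ) : Subgroup (E ≃ₐ[F] E) where
  carrier := {σ | ∀ x : OE F E, ∃ y ∈ maximalIdeal (OE F E) ^ (i + 1), (y : E) = σ (x : E) - x}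
  one_mem' := by
    intro x
    refine ⟨0, Ideal.zero_mem _, ?_⟩
    simp
  mul_mem' := by
    intro σ τ hσ hτ x
    obtain ⟨y, hy, hy'⟩ := hτ x
    obtain ⟨z, hz, hz'⟩ := hσ ⟨τ x, gal_mem F E τ x⟩
    refine ⟨z + y, Ideal.add_mem _ hz hy, ?_⟩
    push_cast
    rw [hy', hz', AlgEquiv.mul_apply]
    ring
  inv_mem' := by
    intro σ hσ x
    obtain ⟨y, hy, hy'⟩ := hσ ⟨σ⁻¹ x, gal_mem F E σ⁻¹ x⟩
    refine ⟨-y, Ideal.neg_mem_iff _ |>.2 hy, ?_⟩
    push_cast
    rw [hy']
    simp only
    have : σ (σ⁻¹ (x : E)) = x := by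
      rw [← AlgEquiv.mul_apply, mul_inv_cancel, AlgEquiv.one_apply]
    rw [this]
    ring

theorem mem_lowerRam (i : ℕ) (σ : E ≃ₐ[F] E) :
    σ ∈ lowerRam F E i ↔ ∀ x : OE F E,
      (⟨σ (x : E), gal_mem F E σ x⟩ : OE F E) - x ∈ maximalIdeal (OE F E) ^ (i + 1) := by
  constructor
  · intro h x
    obtain ⟨y, hy, hy'⟩ := h x
    have e : (⟨σ (x : E), gal_mem F E σ x⟩ : OE F E) - x = y := Subtype.ext hy'.symm
    rw [e]; exact hy
  · intro h x
    exact ⟨_, h x, rfl⟩

theorem lowerRam_antitone : Antitone (lowerRam F E) := by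
  intro i j hij σ hσ
  rw [mem_lowerRam] at hσ ⊢
  intro x
  exact Ideal.pow_le_pow_right (by omega) (hσ x)

theorem exists_lowerRam_bot : ∃ L : ℕ, lowerRam F E L = ⊥ := by
  classical
  have h1 : ∀ σ : E ≃ₐ[F] E, ∃ l : ℕ, σ ∈ lowerRam F E l → σ = 1 := by
    intro σ
    by_cases hσ : σ = 1
    · exact ⟨0, fun _ => hσ⟩
    · have h2 : ∃ x : OE F E, σ (x : E) ≠ x := by
        by_contra hc
        push Not at hc
        apply hσ
        ext e
        obtain ⟨a, b, _, rfl⟩ := IsFractionRing.div_surjective (OE F E) e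
        rw [map_div₀, AlgEquiv.one_apply]
        have ha : algebraMap (OE F E) E a = (a : E) := rfl
        have hb : algebraMap (OE F E) E b = (b : E) := rfl
        rw [ha, hb, hc, hc]
      obtain ⟨x, hx⟩ := h2
      have h3 : (⟨σ (x : E), gal_mem F E σ x⟩ : OE F E) - x ≠ 0 := by
        intro h
        apply hx
        have := congrArg Subtype.val (sub_eq_zero.1 h)
        exact this
      have h4 : ∃ l : ℕ, (⟨σ (x : E), gal_mem F E σ x⟩ : OE F E) - x ∉
          maximalIdeal (OE F E) ^ l := by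
        by_contra hc
        push Not at hc
        apply h3
        have h5 : (⟨σ (x : E), gal_mem F E σ x⟩ : OE F E) - x ∈
            ⨅ l : ℕ, maximalIdeal (OE F E) ^ l := by
          rw [Ideal.mem_iInf]
          exact hc
        rw [Ideal.iInf_pow_eq_bot_of_isLocalRing _ (maximalIdeal.isMaximal _).ne_top] at h5
        exact h5
      obtain ⟨l, hl⟩ := h4
      refine ⟨l, ?_⟩
      intro hc
      exfalso
      rw [mem_lowerRam] at hc
      exact hl (Ideal.pow_le_pow_right (by omega) (hc x))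
  choose l hl using h1
  have : Fintype (E ≃ₐ[F] E) := Fintype.ofFinite _
  refine ⟨Finset.univ.sup l, ?_⟩
  rw [eq_bot_iff]
  intro σ hσ
  rw [Subgroup.mem_bot]
  apply hl σ
  exact lowerRam_antitone F E (Finset.le_sup (Finset.mem_univ σ)) hσ

theorem two_mem_OE [CharP 𝓀[F] 2] : (2 : OE F E) ∈ maximalIdeal (OE F E) := by
  have := char_res_OE F E
  rw [← residue_eq_zero_iff, map_ofNat]
  exact CharTwo.two_eq_zero

theorem pow_mem_lowerRam [CharP 𝓀[F] 2] {σ : E ≃ₐ[F] E} (hσ : σ ∈ lowerRam F E 1) (k : ℕ) :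
    σ ^ (2 ^ k) ∈ lowerRam F E (k + 1) := by
  induction k with
  | zero => simpa using hσ
  | succ k ih =>
    let act := galAct F E
    have h1 := (mem_lowerRam F E _ _).1 ih
    rw [mem_lowerRam]
    intro x
    have h2 := sq_step (MulSemiringAction.toRingHom (E ≃ₐ[F] E) (OE F E) (σ ^ (2 ^ k)))
      (two_mem_OE F E) (i := k + 1) (by omega) (fun x => h1 x) x
    have e : (⟨(σ ^ (2 ^ (k + 1))) (x : E), gal_mem F E _ x⟩ : OE F E) =
        (σ ^ (2 ^ k)) • (σ ^ (2 ^ k)) • x := by
      rw [smul_smul, ← pow_add, ← two_mul, ← pow_succ']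
      rfl
    rw [e]
    exact h2

end localfield

end Pool.Agent.Helper13.Swan
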