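import Pool.Agent.Helper13.Swan.DefInt

set_option autoImplicit false

namespace Pool.Agent.Helper13.Swan

open IsLocalRing ValuativeRel

variable (F : Type*) [Field F] [ValuativeRel F] [TopologicalSpace F]
  [IsNonarchimedeanLocalField F] (E : Type*) [Field E] [Algebra F E]
  [FiniteDimensional F E] [IsGalois F E]

theorem mem_maxPow (i : ℕ) (e : E) :
    e ∈ maxPow F E i ↔ ∃ y ∈ maximalIdeal (OE F E) ^ i, (y : E) = e := by
  have hmax : (maximalIdeal (intRing F E)).map (intEquiv F E) = maximalIdeal (OE F E) :=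
    map_ringEquiv_maximalIdeal _
  have hmax' : (maximalIdeal (OE F E)).map (intEquiv F E).symm = maximalIdeal (intRing F E) :=
    map_ringEquiv_maximalIdeal _
  constructor
  · rintro ⟨y, hy, rfl⟩
    refine ⟨intEquiv F E y, ?_, rfl⟩
    rw [← hmax, ← Ideal.map_pow]
    exact Ideal.mem_map_of_mem _ hy
  · rintro ⟨y, hy, rfl⟩
    refine ⟨(intEquiv F E).symm y, ?_, rfl⟩
    rw [← hmax', ← Ideal.map_pow]
    exact Ideal.mem_map_of_mem _ hy

theorem mem_lowerRam' (i : ℕ) (σ : E ≃ₐ[F] E) :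
    σ ∈ lowerRam F E i ↔ ∀ x ∈ intRing F E, σ x - x ∈ maxPow F E (i + 1) := by
  constructor
  · intro h x hx
    rw [mem_maxPow]
    exact h ⟨x, hx⟩
  · intro h x
    have := h x x.2
    rw [mem_maxPow] at this
    exact this

end Pool.Agent.Helper13.Swan
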