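import Pool.Agent.Helper13.Swan.Irred

set_option autoImplicit false

namespace Pool.Agent.Helper13.Swan

open Finset

universe u v

theorem trace_add_compl {V : Type v} [AddCommGroup V] [Module ℂ V] [FiniteDimensional ℂ V]
    {U U' : Submodule ℂ V} (h : IsCompl U U') (f : V →ₗ[ℂ] V) (hU : ∀ x ∈ U, f x ∈ U)
    (hU' : ∀ x ∈ U', f x ∈ U') :
    LinearMap.trace ℂ V f = LinearMap.trace ℂ U (f.restrict hU) +
      LinearMap.trace ℂ U' (f.restrict hU') := by
  classical
  let A : Bool → Submodule ℂ V := fun b => match b with
    | true => U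
    | false => U'
  have hint : DirectSum.IsInternal A := by
    rw [DirectSum.isInternal_submodule_iff_isCompl A (i := true) (j := false) (by decide)
      (by ext b; cases b <;> simp)]
    exact h
  have hA : ∀ i, Set.MapsTo f (A i) (A i) := by
    intro i
    cases i
    · exact hU'
    · exact hU
  rw [LinearMap.trace_eq_sum_trace_restrict hint hA, Fintype.sum_bool]

variable {P : Type u} [Group P] [Fintype P]

open scoped Classical in
/-- The sum over the filtration. -/
noncomputable def S (R : ℕ → Subgroup P) (L : ℕ) {V : Type v} [AddCommGroup V] [Module ℂ V]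
    (ρ : Representation ℂ P V) : ℂ :=
  ∑ k ∈ Icc 1 L, ∑ n ∈ univ.filter (fun n => n ∈ R k),
      (LinearMap.trace ℂ V (ρ (n * n)) - LinearMap.trace ℂ V (ρ n))

theorem rep_nonneg {N R : ℕ → Subgroup P} (h0 : N 0 = ⊥) (hmono : Monotone N)
    (hnorm : ∀ r, (N r).Normal)
    (hidx : ∀ r, ∀ a ∈ N (r + 1), ∀ b ∈ N (r + 1), a ∉ N r → b ∉ N r → a * b ∈ N r)
    {K : ℕ} (hK : N K = ⊤) (hR : Antitone R) (hNR : ∀ i, 1 ≤ i → ∃ r, N r = R i) (L : ℕ)
    (hkey : ∀ f, IsGT N f → KeyIneq R L f) (m : ℕ) :
    ∀ (V : Type v) [AddCommGroup V] [Module ℂ V] [FiniteDimensional ℂ V]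
      (ρ : Representation ℂ P V), Module.finrank ℂ V = m → ∃ z : ℕ, S R L ρ = (z : ℂ) := by
  classical
  induction m using Nat.strong_induction_on with
  | _ m ih =>
    intro V _ _ _ ρ hm
    rcases subsingleton_or_nontrivial V with hV | hV
    · refine ⟨0, ?_⟩
      unfold S
      have : ∀ T : V →ₗ[ℂ] V, LinearMap.trace ℂ V T = 0 := by
        intro T
        have : T = 0 := Subsingleton.elim _ _
        rw [this, map_zero]
      simp [this]
    · by_cases hirr : Irr ρ
      · obtain ⟨f, d, hf, hd, hde⟩ := exists_isGT ρ h0 hmono hnorm hidx hK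
        exact irr_nonneg ρ hirr hf h0 hmono hnorm hK hd hde hR hNR L (hkey f hf)
      · have hex : ∃ U : Submodule ℂ V, (∀ g, ∀ u ∈ U, ρ g u ∈ U) ∧ U ≠ ⊥ ∧ U ≠ ⊤ := by
          by_contra hc
          push Not at hc
          apply hirr
          refine ⟨hV, fun U hU => ?_⟩
          by_cases h1 : U = ⊥
          · exact Or.inl h1
          · exact Or.inr (hc U hU h1)
        obtain ⟨U, hU, hUb, hUt⟩ := hex
        haveI : NeZero (Nat.card P : ℂ) := ⟨by exact_mod_cast Nat.card_pos.ne'⟩
        let σ : Subrepresentation ρ := ⟨U, fun g v hv => hU g v hv⟩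
        obtain ⟨σ', hσ'⟩ := exists_isCompl σ
        have hcompl : IsCompl U σ'.toSubmodule := by
          constructor
          · rw [disjoint_iff]
            have := hσ'.disjoint.eq_bot
            have h2 := congrArg Subrepresentation.toSubmodule this
            rw [Subrepresentation.toSubmodule_inf] at h2
            exact h2
          · rw [codisjoint_iff]
            have := hσ'.codisjoint.eq_top
            have h2 := congrArg Subrepresentation.toSubmodule this
            rw [Subrepresentation.toSubmodule_sup] at h2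
            exact h2
        have hU' : ∀ g, ∀ u ∈ σ'.toSubmodule, ρ g u ∈ σ'.toSubmodule :=
          fun g u hu => σ'.apply_mem_toSubmodule g hu
        have hd1 : Module.finrank ℂ U + Module.finrank ℂ σ'.toSubmodule = Module.finrank ℂ V :=
          Submodule.finrank_add_eq_of_isCompl hcompl
        have hU0 : 0 < Module.finrank ℂ U := by
          rw [Nat.pos_iff_ne_zero]
          intro h
          exact hUb (Submodule.finrank_eq_zero.1 h)
        have hU'0 : 0 < Module.finrank ℂ σ'.toSubmodule := by
          rw [Nat.pos_iff_ne_zero]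
          intro h
          have h2 := Submodule.finrank_eq_zero.1 h
          apply hUt
          have := hcompl.sup_eq_top
          rwa [h2, sup_bot_eq] at this
        let ρ1 : Representation ℂ P U := ρ.subrepresentation U (fun g u hu => hU g u hu)
        let ρ2 : Representation ℂ P σ'.toSubmodule :=
          ρ.subrepresentation σ'.toSubmodule (fun g u hu => hU' g u hu)
        obtain ⟨z1, hz1⟩ := ih _ (by omega) U ρ1 rfl
        obtain ⟨z2, hz2⟩ := ih _ (by omega) σ'.toSubmodule ρ2 rfl
        refine ⟨z1 + z2, ?_⟩
        rw [Nat.cast_add, ← hz1, ← hz2]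
        unfold S
        rw [← Finset.sum_add_distrib]
        apply Finset.sum_congr rfl
        intro k _
        rw [← Finset.sum_add_distrib]
        apply Finset.sum_congr rfl
        intro n _
        have key : ∀ g, LinearMap.trace ℂ V (ρ g) = LinearMap.trace ℂ U (ρ1 g) +
            LinearMap.trace ℂ σ'.toSubmodule (ρ2 g) := by
          intro g
          exact trace_add_compl hcompl (ρ g) (hU g) (hU' g)
        rw [key, key]
        ring

end Pool.Agent.Helper13.Swan
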