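import Pool.Agent.Helper13.Swan.DefSq

set_option autoImplicit false

namespace Pool.Agent.Helper13.Swan

open TensorProduct LinearMap

/-- Trace on a quotient, computed with a projector. -/
theorem trace_mapQ {T : Type*} [AddCommGroup T] [Module ℂ T] [FiniteDimensional ℂ T]
    (W : Submodule ℂ T) (A p : T →ₗ[ℂ] T) (hA : W ≤ W.comap A) (hp0 : W ≤ ker p)
    (hp1 : ∀ t, t - p t ∈ W) :
    trace ℂ (T ⧸ W) (W.mapQ W A hA) = trace ℂ T (A ∘ₗ p) := by
  set π : T →ₗ[ℂ] T ⧸ W := W.mkQ with hπ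
  set σ : T ⧸ W →ₗ[ℂ] T := W.liftQ p hp0 with hσ
  have h1 : σ ∘ₗ π = p := by
    rw [hσ, hπ, Submodule.liftQ_mkQ]
  have h2 : π ∘ₗ σ = LinearMap.id := by
    apply Submodule.linearMap_qext
    ext t
    simp only [hπ, hσ, LinearMap.comp_apply, Submodule.mkQ_apply, Submodule.liftQ_apply,
      LinearMap.id_apply]
    rw [Submodule.Quotient.eq]
    have h3 := hp1 t
    rw [← Submodule.neg_mem_iff, neg_sub] at h3
    exact h3
  have h3 : (W.mapQ W A hA) ∘ₗ π = π ∘ₗ A := by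
    ext t
    simp [hπ]
  calc trace ℂ (T ⧸ W) (W.mapQ W A hA)
      = trace ℂ (T ⧸ W) ((W.mapQ W A hA) ∘ₗ (π ∘ₗ σ)) := by rw [h2, LinearMap.comp_id]
    _ = trace ℂ (T ⧸ W) (π ∘ₗ (A ∘ₗ σ)) := by
        rw [← LinearMap.comp_assoc, h3, LinearMap.comp_assoc]
    _ = trace ℂ T ((A ∘ₗ σ) ∘ₗ π) := trace_comp_comm' _ _
    _ = trace ℂ T (A ∘ₗ p) := by rw [LinearMap.comp_assoc, h1]

section trace

variable {V : Type*} [AddCommGroup V] [Module ℂ V]

/-- The swap on `V ⊗ V`. -/
noncomputable def swp (V : Type*) [AddCommGroup V] [Module ℂ V] : V ⊗[ℂ] V →ₗ[ℂ] V ⊗[ℂ] V :=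
  (TensorProduct.comm ℂ V V).toLinearMap

@[simp] theorem swp_tmul (x y : V) : swp V (x ⊗ₜ[ℂ] y) = y ⊗ₜ[ℂ] x := rfl

theorem sub_swp_mem (t : V ⊗[ℂ] V) : t - swp V t ∈ symSub V := by
  induction t using TensorProduct.induction_on with
  | zero => simp
  | tmul x y =>
    rw [swp_tmul]
    exact Submodule.subset_span ⟨x, y, rfl⟩
  | add s t hs ht =>
    have e : s + t - swp V (s + t) = (s - swp V s) + (t - swp V t) := by
      rw [map_add]; abel
    rw [e]
    exact Submodule.add_mem _ hs ht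

theorem add_swp_mem (t : V ⊗[ℂ] V) : t + swp V t ∈ altSub V := by
  induction t using TensorProduct.induction_on with
  | zero => simp
  | tmul x y =>
    rw [swp_tmul]
    have e : x ⊗ₜ[ℂ] y + y ⊗ₜ[ℂ] x = (x + y) ⊗ₜ[ℂ] (x + y) - x ⊗ₜ[ℂ] x - y ⊗ₜ[ℂ] y := by
      rw [TensorProduct.add_tmul, TensorProduct.tmul_add, TensorProduct.tmul_add]
      abel
    rw [e]
    exact Submodule.sub_mem _ (Submodule.sub_mem _ (Submodule.subset_span ⟨x + y, rfl⟩)
      (Submodule.subset_span ⟨x, rfl⟩)) (Submodule.subset_span ⟨y, rfl⟩)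
  | add s t hs ht =>
    have e : s + t + swp V (s + t) = (s + swp V s) + (t + swp V t) := by
      rw [map_add]; abel
    rw [e]
    exact Submodule.add_mem _ hs ht

variable [FiniteDimensional ℂ V]

theorem trace_map_swp (f g : V →ₗ[ℂ] V) :
    trace ℂ (V ⊗[ℂ] V) (TensorProduct.map f g ∘ₗ swp V) = trace ℂ V (f ∘ₗ g) := by
  classical
  let b := Module.finBasis ℂ V
  rw [LinearMap.trace_eq_matrix_trace ℂ (b.tensorProduct b),
    LinearMap.trace_eq_matrix_trace ℂ b]
  simp only [Matrix.trace, Matrix.diag_apply, LinearMap.toMatrix_apply]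
  rw [Fintype.sum_prod_type]
  simp only [Module.Basis.tensorProduct_apply, LinearMap.comp_apply, swp_tmul,
    TensorProduct.map_tmul, Module.Basis.tensorProduct_repr_tmul_apply]
  apply Finset.sum_congr rfl
  intro i _
  conv_rhs => rw [← b.sum_repr (g (b i))]
  rw [map_sum, map_sum, Finset.sum_apply']
  apply Finset.sum_congr rfl
  intro j _
  rw [map_smul, map_smul, Finsupp.smul_apply, smul_eq_mul]

theorem trace_sq {G : Type*} [Monoid G] (ρ : Representation ℂ G V) (g : G) :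
    trace ℂ _ (sym2 ρ g) - trace ℂ _ (wedge2 ρ g) = trace ℂ V (ρ (g * g)) := by
  set A := TensorProduct.map (ρ g) (ρ g) with hA
  set p : V ⊗[ℂ] V →ₗ[ℂ] V ⊗[ℂ] V := (1 / 2 : ℂ) • (LinearMap.id + swp V) with hp
  set q : V ⊗[ℂ] V →ₗ[ℂ] V ⊗[ℂ] V := (1 / 2 : ℂ) • (LinearMap.id - swp V) with hq
  have h1 : trace ℂ _ (sym2 ρ g) = trace ℂ _ (A ∘ₗ p) := by
    refine trace_mapQ (symSub V) A p (symSub_le (ρ g)) ?_ ?_
    · unfold symSub
      rw [Submodule.span_le]
      rintro _ ⟨x, y, rfl⟩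
      rw [hp]
      simp only [SetLike.mem_coe, LinearMap.mem_ker, LinearMap.smul_apply, LinearMap.add_apply,
        LinearMap.id_apply, map_sub, swp_tmul]
      rw [add_comm (x ⊗ₜ[ℂ] y), sub_self]
    · intro t
      have e : t - p t = (1 / 2 : ℂ) • (t - swp V t) := by
        rw [hp]
        simp only [LinearMap.smul_apply, LinearMap.add_apply, LinearMap.id_apply]
        module
      rw [e]
      exact Submodule.smul_mem _ _ (sub_swp_mem t)
  have h2 : trace ℂ _ (wedge2 ρ g) = trace ℂ _ (A ∘ₗ q) := by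
    refine trace_mapQ (altSub V) A q (altSub_le (ρ g)) ?_ ?_
    · unfold altSub
      rw [Submodule.span_le]
      rintro _ ⟨x, rfl⟩
      rw [hq]
      simp
    · intro t
      have e : t - q t = (1 / 2 : ℂ) • (t + swp V t) := by
        rw [hq]
        simp only [LinearMap.smul_apply, LinearMap.sub_apply, LinearMap.id_apply]
        module
      rw [e]
      exact Submodule.smul_mem _ _ (add_swp_mem t)
  have h3 : A ∘ₗ p - A ∘ₗ q = A ∘ₗ swp V := by
    rw [← LinearMap.comp_sub, hp, hq]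
    congr 1
    module
  rw [h1, h2, ← map_sub, h3, hA, trace_map_swp, map_mul]
  rfl

end trace

end Pool.Agent.Helper13.Swan
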