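import Pool.Agent.Helper13.Swan.GTExist

set_option autoImplicit false

namespace Pool.Agent.Helper13.Swan

open Finset

variable {P : Type*} [Group P] {V : Type*} [AddCommGroup V] [Module ℂ V]

/-- Irreducibility: no invariant subspaces besides `⊥` and `⊤`, and nontrivial. -/
structure Irr (ρ : Representation ℂ P V) : Prop where
  nontrivial : Nontrivial V
  eq_bot_or_top : ∀ U : Submodule ℂ V, (∀ g, ∀ u ∈ U, ρ g u ∈ U) → U = ⊥ ∨ U = ⊤

theorem Irr.schur [FiniteDimensional ℂ V] {ρ : Representation ℂ P V} (h : Irr ρ)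
    (T : Module.End ℂ V) (hT : ∀ g, T * ρ g = ρ g * T) : ∃ c : ℂ, T = c • 1 := by
  have := h.nontrivial
  obtain ⟨c, hc⟩ := Module.End.exists_eigenvalue T
  refine ⟨c, ?_⟩
  have hinv : ∀ g, ∀ u ∈ Module.End.eigenspace T c, ρ g u ∈ Module.End.eigenspace T c := by
    intro g u hu
    rw [Module.End.mem_eigenspace_iff] at hu ⊢
    have := congrArg (fun f => f u) (hT g)
    simp only [Module.End.mul_apply] at this
    rw [this, hu, map_smul]
  rcases h.eq_bot_or_top _ hinv with h1 | h1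
  · exact absurd h1 hc
  · ext u
    have hu : u ∈ Module.End.eigenspace T c := by rw [h1]; trivial
    rw [Module.End.mem_eigenspace_iff] at hu
    rw [hu]
    simp

variable [Fintype P]

/-- Unnormalised projector onto the isotypic line. -/
noncomputable def E (ρ : Representation ℂ P V) (f : P → ℂ) : Module.End ℂ V :=
  ∑ x : P, (f x)⁻¹ • ρ x

open scoped Classical in
/-- Order of the support. -/
noncomputable def sz (f : P → ℂ) : ℕ := (univ.filter (fun x => f x ≠ 0)).card

section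

variable {N : ℕ → Subgroup P} {f : P → ℂ} (ρ : Representation ℂ P V)

theorem E_mul_rho (hf : IsGT N f) {h : P} (hh : f h ≠ 0) : E ρ f * ρ h = f h • E ρ f := by
  unfold E
  rw [Finset.sum_mul, Finset.smul_sum]
  apply Fintype.sum_equiv (Equiv.mulRight h)
  intro x
  simp only [Equiv.coe_mulRight]
  rw [hf.mul' x hh, mul_inv, smul_mul_assoc, ← map_mul, smul_smul]
  congr 1
  field_simp

theorem rho_mul_E (hf : IsGT N f) {h : P} (hh : f h ≠ 0) : ρ h * E ρ f = f h • E ρ f := by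
  unfold E
  rw [Finset.mul_sum, Finset.smul_sum]
  apply Fintype.sum_equiv (Equiv.mulLeft h)
  intro x
  simp only [Equiv.coe_mulLeft]
  rw [hf.mul _ x hh, mul_inv, mul_smul_comm, ← map_mul, smul_smul]
  congr 1
  field_simp

theorem E_sq (hf : IsGT N f) : E ρ f * E ρ f = (sz f : ℂ) • E ρ f := by
  classical
  conv_lhs => enter [1]; unfold E
  rw [Finset.sum_mul]
  have h1 : ∀ x ∈ (univ : Finset P), ((f x)⁻¹ • ρ x) * E ρ f =
      if f x ≠ 0 then E ρ f else 0 := by
    intro x _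
    split_ifs with hx
    · rw [smul_mul_assoc, rho_mul_E ρ hf hx, smul_smul, inv_mul_cancel₀ hx, one_smul]
    · push Not at hx
      rw [hx, inv_zero, zero_smul, zero_mul]
  rw [Finset.sum_congr rfl h1, ← Finset.sum_filter, Finset.sum_const, sz]
  rw [← Nat.cast_smul_eq_nsmul ℂ]

theorem E_rho_E (hf : IsGT N f) (h0 : N 0 = ⊥) (hmono : Monotone N)
    (hnorm : ∀ r, (N r).Normal) {K : ℕ} (hK : N K = ⊤) (y : P) :
    E ρ f * ρ y * E ρ f = ((sz f : ℂ) * f y) • E ρ f := by
  by_cases hy : f y = 0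
  · rw [hy, mul_zero, zero_smul]
    have hex : ∃ h, f h ≠ 0 ∧ f (y⁻¹ * h * y) ≠ 0 ∧ f (y⁻¹ * h * y) ≠ f h := by
      by_contra hc
      push Not at hc
      have hagree := (hf.conj hnorm y).eq_of_agree hf h0 hmono hnorm K
        (fun g _ h1 h2 => hc g h2 h1)
      exact hf.ne_zero_of_stab h0 hmono K (n := y) (by rw [hK]; trivial) hagree hy
    obtain ⟨h, h1, h2, h3⟩ := hex
    have e1 : E ρ f * ρ (h * y) * E ρ f = f h • (E ρ f * ρ y * E ρ f) := by
      rw [map_mul, ← mul_assoc, E_mul_rho ρ hf h1, smul_mul_assoc, smul_mul_assoc]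
    have e2 : E ρ f * ρ (h * y) * E ρ f = f (y⁻¹ * h * y) • (E ρ f * ρ y * E ρ f) := by
      have e : h * y = y * (y⁻¹ * h * y) := by group
      rw [e, map_mul, mul_assoc, mul_assoc (ρ y), rho_mul_E ρ hf h2, mul_smul_comm, mul_smul_comm,
        ← mul_assoc]
    have e3 : (f (y⁻¹ * h * y) - f h) • (E ρ f * ρ y * E ρ f) = 0 := by
      rw [sub_smul, ← e1, ← e2, sub_self]
    rcases smul_eq_zero.1 e3 with h4 | h4
    · exact absurd (sub_eq_zero.1 h4) h3
    · exact h4
  · rw [E_mul_rho ρ hf hy, smul_mul_assoc, E_sq ρ hf, smul_smul, mul_comm]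

theorem trace_E_ne [FiniteDimensional ℂ V] (hf : IsGT N f) {d : V} (hd : d ≠ 0)
    (hde : ∀ g, f g ≠ 0 → ρ g d = f g • d) : LinearMap.trace ℂ V (E ρ f) ≠ 0 := by
  classical
  have hsz : (sz f : ℂ) ≠ 0 := by
    have : 0 < sz f := by
      unfold sz
      apply Finset.card_pos.2
      exact ⟨1, by simp [hf.one]⟩
    exact_mod_cast this.ne'
  have hEd : E ρ f d = (sz f : ℂ) • d := by
    unfold E
    rw [LinearMap.sum_apply]
    have h1 : ∀ x ∈ (univ : Finset P), ((f x)⁻¹ • ρ x) d = if f x ≠ 0 then d else 0 := by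
      intro x _
      rw [LinearMap.smul_apply]
      split_ifs with hx
      · rw [hde x hx, smul_smul, inv_mul_cancel₀ hx, one_smul]
      · push Not at hx
        rw [hx, inv_zero, zero_smul]
    rw [Finset.sum_congr rfl h1, ← Finset.sum_filter, Finset.sum_const, sz]
    rw [← Nat.cast_smul_eq_nsmul ℂ]
  have hid : IsIdempotentElem ((sz f : ℂ)⁻¹ • E ρ f) := by
    unfold IsIdempotentElem
    rw [smul_mul_smul_comm, E_sq ρ hf, smul_smul]
    congr 1
    field_simp
  intro h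
  have h2 : LinearMap.trace ℂ V ((sz f : ℂ)⁻¹ • E ρ f) = 0 := by
    rw [map_smul, h, smul_zero]
  have h3 := (LinearMap.IsIdempotentElem.trace_eq_zero_iff hid).1 h2
  have h4 : ((sz f : ℂ)⁻¹ • E ρ f) d = d := by
    rw [LinearMap.smul_apply, hEd, smul_smul, inv_mul_cancel₀ hsz, one_smul]
  rw [h3] at h4
  exact hd h4.symm

/-- Character formula for an irreducible representation. -/
theorem char_formula [FiniteDimensional ℂ V] (hρ : Irr ρ) (hf : IsGT N f) (h0 : N 0 = ⊥)
    (hmono : Monotone N) (hnorm : ∀ r, (N r).Normal) {K : ℕ} (hK : N K = ⊤) {d : V} (hd : d ≠ 0)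
    (hde : ∀ g, f g ≠ 0 → ρ g d = f g • d) (g : P) :
    (Fintype.card P : ℂ) * LinearMap.trace ℂ V (ρ g) =
      (Module.finrank ℂ V : ℂ) * ∑ x : P, f (x⁻¹ * g * x) := by
  have htE := trace_E_ne ρ hf hd hde
  have hsz : (sz f : ℂ) ≠ 0 := by
    have : 0 < sz f := by
      unfold sz
      apply Finset.card_pos.2
      exact ⟨1, by simp [hf.one]⟩
    exact_mod_cast this.ne'
  set Z : Module.End ℂ V := ∑ x : P, ρ x * E ρ f * ρ x⁻¹ with hZ
  have hcomm : ∀ g, Z * ρ g = ρ g * Z := by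
    intro g
    rw [hZ, Finset.sum_mul, Finset.mul_sum]
    apply Fintype.sum_equiv (Equiv.mulLeft g⁻¹)
    intro x
    simp only [Equiv.coe_mulLeft]
    have e1 : ρ g * (ρ (g⁻¹ * x) * E ρ f * ρ (g⁻¹ * x)⁻¹) =
        (ρ g * ρ (g⁻¹ * x)) * E ρ f * ρ (g⁻¹ * x)⁻¹ := by
      simp only [mul_assoc]
    rw [e1, ← map_mul, mul_inv_cancel_left, mul_inv_rev, inv_inv, map_mul, ← mul_assoc]
  obtain ⟨c, hc⟩ := hρ.schur Z hcomm
  -- trace of `ρ y * E`
  have htr : ∀ y, LinearMap.trace ℂ V (ρ y * E ρ f) = f y * LinearMap.trace ℂ V (E ρ f) := by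
    intro y
    have h1 : (sz f : ℂ) * LinearMap.trace ℂ V (ρ y * E ρ f) =
        (sz f : ℂ) * (f y * LinearMap.trace ℂ V (E ρ f)) := by
      have e1 : (sz f : ℂ) * LinearMap.trace ℂ V (ρ y * E ρ f) =
          LinearMap.trace ℂ V (ρ y * (E ρ f * E ρ f)) := by
        rw [E_sq ρ hf, mul_smul_comm, map_smul, smul_eq_mul]
      rw [e1, ← mul_assoc, LinearMap.trace_mul_comm, ← mul_assoc,
        E_rho_E ρ hf h0 hmono hnorm hK, map_smul, smul_eq_mul, mul_assoc]
    exact mul_left_cancel₀ hsz h1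
  have key : ∀ g, c * LinearMap.trace ℂ V (ρ g) =
      LinearMap.trace ℂ V (E ρ f) * ∑ x : P, f (x⁻¹ * g * x) := by
    intro g
    have h1 : LinearMap.trace ℂ V (ρ g * Z) = c * LinearMap.trace ℂ V (ρ g) := by
      rw [hc, mul_smul_comm, mul_one, map_smul, smul_eq_mul]
    rw [← h1, hZ, Finset.mul_sum, map_sum, Finset.mul_sum]
    apply Finset.sum_congr rfl
    intro x _
    have e1 : ρ g * (ρ x * E ρ f * ρ x⁻¹) = (ρ (g * x) * E ρ f) * ρ x⁻¹ := by
      rw [map_mul]; simp only [mul_assoc]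
    rw [e1, LinearMap.trace_mul_comm, ← mul_assoc, ← map_mul, htr, mul_comm, ← mul_assoc x⁻¹]
  have hdim : c * (Module.finrank ℂ V : ℂ) =
      LinearMap.trace ℂ V (E ρ f) * (Fintype.card P : ℂ) := by
    have h1 := key 1
    rw [map_one, LinearMap.trace_one] at h1
    rw [h1]
    congr 1
    have : ∀ x ∈ (univ : Finset P), f (x⁻¹ * 1 * x) = 1 := by
      intro x _
      rw [mul_one, inv_mul_cancel, hf.one]
    rw [Finset.sum_congr rfl this, Finset.sum_const, Finset.card_univ, nsmul_eq_mul, mul_one]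
  have h2 := key g
  have h3 : LinearMap.trace ℂ V (E ρ f) * ((Fintype.card P : ℂ) * LinearMap.trace ℂ V (ρ g)) =
      LinearMap.trace ℂ V (E ρ f) *
        ((Module.finrank ℂ V : ℂ) * ∑ x : P, f (x⁻¹ * g * x)) := by
    rw [← mul_assoc, ← hdim]
    calc c * (Module.finrank ℂ V : ℂ) * LinearMap.trace ℂ V (ρ g)
        = (Module.finrank ℂ V : ℂ) * (c * LinearMap.trace ℂ V (ρ g)) := by ring
      _ = _ := by rw [h2]; ring
  exact mul_left_cancel₀ htE h3

open scoped Classical in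
/-- The sum of `χ (n ^ 2)` over a normal subgroup of the chain. -/
theorem sum_sq [FiniteDimensional ℂ V] (hρ : Irr ρ) (hf : IsGT N f) (h0 : N 0 = ⊥)
    (hmono : Monotone N) (hnorm : ∀ r, (N r).Normal) {K : ℕ} (hK : N K = ⊤) {d : V} (hd : d ≠ 0)
    (hde : ∀ g, f g ≠ 0 → ρ g d = f g • d) (r : ℕ) :
    ∑ n ∈ univ.filter (fun n => n ∈ N r), LinearMap.trace ℂ V (ρ (n * n)) =
      (Module.finrank ℂ V : ℂ) * IsGT.A N f r := by
  have hP : (Fintype.card P : ℂ) ≠ 0 := by exact_mod_cast Fintype.card_ne_zero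
  apply mul_left_cancel₀ hP
  rw [Finset.mul_sum]
  rw [Finset.sum_congr rfl (fun n _ => char_formula ρ hρ hf h0 hmono hnorm hK hd hde (n * n))]
  rw [← Finset.mul_sum, Finset.sum_comm]
  have h1 : ∀ x ∈ (univ : Finset P), ∑ n ∈ univ.filter (fun n => n ∈ N r),
      f (x⁻¹ * (n * n) * x) = IsGT.A N f r := by
    intro x _
    unfold IsGT.A
    apply Finset.sum_bij' (fun n _ => x⁻¹ * n * x) (fun n _ => x * n * x⁻¹)
    · intro n hn
      simp only [Finset.mem_filter, Finset.mem_univ, true_and] at hn ⊢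
      have := (hnorm r).conj_mem n hn x⁻¹
      rwa [inv_inv] at this
    · intro n hn
      simp only [Finset.mem_filter, Finset.mem_univ, true_and] at hn ⊢
      exact (hnorm r).conj_mem n hn x
    · intro n _; group
    · intro n _; group
    · intro n _
      congr 1; group
  rw [Finset.sum_congr rfl h1, Finset.sum_const, Finset.card_univ, nsmul_eq_mul]
  ring

open scoped Classical in
/-- The sum of `χ n` over a normal subgroup of the chain. -/
theorem sum_one [FiniteDimensional ℂ V] (hρ : Irr ρ) (hf : IsGT N f) (h0 : N 0 = ⊥)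
    (hmono : Monotone N) (hnorm : ∀ r, (N r).Normal) {K : ℕ} (hK : N K = ⊤) {d : V} (hd : d ≠ 0)
    (hde : ∀ g, f g ≠ 0 → ρ g d = f g • d) (r : ℕ) :
    ∑ n ∈ univ.filter (fun n => n ∈ N r), LinearMap.trace ℂ V (ρ n) =
      (Module.finrank ℂ V : ℂ) * ∑ n ∈ univ.filter (fun n => n ∈ N r), f n := by
  have hP : (Fintype.card P : ℂ) ≠ 0 := by exact_mod_cast Fintype.card_ne_zero
  apply mul_left_cancel₀ hP
  rw [Finset.mul_sum]
  rw [Finset.sum_congr rfl (fun n _ => char_formula ρ hρ hf h0 hmono hnorm hK hd hde n)]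
  rw [← Finset.mul_sum, Finset.sum_comm]
  have h1 : ∀ x ∈ (univ : Finset P), ∑ n ∈ univ.filter (fun n => n ∈ N r),
      f (x⁻¹ * n * x) = ∑ n ∈ univ.filter (fun n => n ∈ N r), f n := by
    intro x _
    apply Finset.sum_bij' (fun n _ => x⁻¹ * n * x) (fun n _ => x * n * x⁻¹)
    · intro n hn
      simp only [Finset.mem_filter, Finset.mem_univ, true_and] at hn ⊢
      have := (hnorm r).conj_mem n hn x⁻¹
      rwa [inv_inv] at this
    · intro n hn
      simp only [Finset.mem_filter, Finset.mem_univ, true_and] at hn ⊢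
      exact (hnorm r).conj_mem n hn x
    · intro n _; group
    · intro n _; group
    · intro n _; rfl
  rw [Finset.sum_congr rfl h1, Finset.sum_const, Finset.card_univ, nsmul_eq_mul]
  ring

end

end Pool.Agent.Helper13.Swan
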