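import Pool.Agent.Helper13.Swan.Key7

set_option autoImplicit false

namespace Pool.Agent.Helper13.Swan

open WithZero Finset Polynomial IsLocalRing

/-- The data of an unramified extension `S` of `R`, with the action of `P` and a Frobenius. -/
structure UnramS {R : Type*} [CommRing R] [IsLocalRing R] (P : Type*) [Group P]
    [MulSemiringAction P R] (S : Type*) [CommRing S] [IsLocalRing S] [MulSemiringAction P S]
    (ι : R →+* S) (φ : S ≃+* S) (n : ℕ) (θ : S) : Prop where
  smul_ι : ∀ (τ : P) (r : R), τ • ι r = ι (τ • r)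
  φι : ∀ r, φ (ι r) = ι r
  comm : ∀ (τ : P) (s : S), φ (τ • s) = τ • φ s
  pow : ∀ s, (φ : S → S)^[n] s = s
  max : (maximalIdeal R).map ι = maximalIdeal S
  res : ∀ s : S, ∃ s', (∀ τ : P, τ • s' = s') ∧ s - s' ∈ maximalIdeal S
  fix : ∀ τ : P, τ • θ = θ
  tr : ∑ r ∈ range n, (φ : S → S)^[r] θ = 1
  hens : HenselianRing S (maximalIdeal S)

section val

variable (S : Type*) [CommRing S] [IsDomain S] [IsDiscreteValuationRing S]

/-- The valuation on the fraction field. -/
noncomputable abbrev wS : Valuation (FractionRing S) ℤᵐ⁰ :=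
  (IsDiscreteValuationRing.maximalIdeal S).valuation (FractionRing S)

variable {S}

theorem wS_le_one (s : S) : wS S (algebraMap S (FractionRing S) s) ≤ 1 :=
  IsDedekindDomain.HeightOneSpectrum.valuation_le_one _ s

theorem wS_le_iff (s : S) (k : ℕ) :
    wS S (algebraMap S (FractionRing S) s) ≤ ex k ↔ s ∈ maximalIdeal S ^ k := by
  unfold wS
  rw [IsDedekindDomain.HeightOneSpectrum.valuation_of_algebraMap]
  exact IsDedekindDomain.HeightOneSpectrum.intValuation_le_pow_iff_mem _ s k

theorem wS_lt_one_iff (s : S) :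
    wS S (algebraMap S (FractionRing S) s) < 1 ↔ s ∈ maximalIdeal S := by
  rw [lt_one_iff]
  have := wS_le_iff s 1
  rw [pow_one] at this
  exact_mod_cast this

theorem wS_unif {p : S} (hp : Irreducible p) : wS S (algebraMap S (FractionRing S) p) = ex 1 := by
  unfold wS
  rw [IsDedekindDomain.HeightOneSpectrum.valuation_of_algebraMap]
  apply IsDedekindDomain.HeightOneSpectrum.intValuation_singleton _ hp.ne_zero
  exact hp.maximalIdeal_eq

theorem exists_lift {x : FractionRing S} (hx : wS S x ≤ 1) :
    ∃ s : S, algebraMap S (FractionRing S) s = x :=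
  IsDiscreteValuationRing.exists_lift_of_le_one hx

theorem mem_pow_of_equiv (σ : S ≃+* S) {s : S} {k : ℕ} (hs : s ∈ maximalIdeal S ^ k) :
    σ s ∈ maximalIdeal S ^ k := by
  have h1 : σ s ∈ (maximalIdeal S ^ k).map σ := Ideal.mem_map_of_mem _ hs
  rw [Ideal.map_pow] at h1
  refine Ideal.pow_right_mono ?_ k h1
  rw [Ideal.map_le_iff_le_comap]
  intro x hx
  rw [Ideal.mem_comap]
  rw [mem_maximalIdeal, mem_nonunits_iff] at hx ⊢
  intro h
  apply hx
  have h2 := h.map σ.symm
  rwa [RingEquiv.symm_apply_apply] at h2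

theorem wS_equiv (σ : S ≃+* S) (s : S) :
    wS S (algebraMap S (FractionRing S) (σ s)) = wS S (algebraMap S (FractionRing S) s) := by
  have h1 : ∀ k : ℕ, wS S (algebraMap S (FractionRing S) (σ s)) ≤ ex k ↔
      wS S (algebraMap S (FractionRing S) s) ≤ ex k := by
    intro k
    rw [wS_le_iff, wS_le_iff]
    constructor
    · intro h
      have h2 := mem_pow_of_equiv σ.symm h
      rwa [RingEquiv.symm_apply_apply] at h2
    · intro h
      exact mem_pow_of_equiv σ h
  by_cases hs : s = 0
  · subst hs; simp
  · have hne : ∀ t : S, t ≠ 0 → ∃ k : ℕ, wS S (algebraMap S (FractionRing S) t) = ex k := by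
      intro t ht
      have h2 : wS S (algebraMap S (FractionRing S) t) ≠ 0 := by
        rw [Valuation.ne_zero_iff]
        intro h
        exact ht ((FaithfulSMul.algebraMap_injective S (FractionRing S)) (by rw [h, map_zero]))
      obtain ⟨k, hk⟩ := exists_ex h2
      have h3 := wS_le_one t
      rw [hk, ← ex_zero, ex_le_ex] at h3
      refine ⟨k.toNat, ?_⟩
      rw [hk]
      congr 1
      omega
    obtain ⟨a, ha⟩ := hne s hs
    obtain ⟨b, hb⟩ := hne (σ s) (by
      intro h
      exact hs (σ.injective (by rw [h, map_zero])))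
    have e1 := (h1 a).2 ha.le
    have e2 := (h1 b).1 hb.le
    rw [hb] at e1
    rw [ha] at e2
    rw [ha, hb]
    exact le_antisymm e1 e2

theorem wS_equiv' (σ : FractionRing S ≃+* FractionRing S) (σ' : S ≃+* S)
    (h : ∀ s, σ (algebraMap S (FractionRing S) s) = algebraMap S (FractionRing S) (σ' s))
    (x : FractionRing S) : wS S (σ x) = wS S x := by
  obtain ⟨a, b, _, rfl⟩ := IsFractionRing.div_surjective S x
  rw [map_div₀, map_div₀, map_div₀, h, h, wS_equiv, wS_equiv]

end val

section main

variable {R : Type*} [CommRing R] [IsDomain R] [IsDiscreteValuationRing R] {P : Type*} [Group P]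
  [MulSemiringAction P R] {S : Type*} [CommRing S] [IsDomain S] [IsDiscreteValuationRing S]
  [MulSemiringAction P S] {ι : R →+* S} {φ : S ≃+* S} {n : ℕ} {θ : S}

theorem UnramS.irr (hU : UnramS P S ι φ n θ) {p : R} (hp : Irreducible p) :
    Irreducible (ι p) := by
  rw [IsDiscreteValuationRing.irreducible_iff_uniformizer]
  rw [← hU.max, hp.maximalIdeal_eq, Ideal.map_span, Set.image_singleton]

theorem UnramS.mem_pow (hU : UnramS P S ι φ n θ) {r : R} {k : ℕ}
    (h : ι r ∈ maximalIdeal S ^ k) : r ∈ maximalIdeal R ^ k := by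
  by_cases hr : r = 0
  · rw [hr]; exact Ideal.zero_mem _
  obtain ⟨p, hp⟩ := IsDiscreteValuationRing.exists_irreducible R
  obtain ⟨j, u, hu⟩ := IsDiscreteValuationRing.eq_unit_mul_pow_irreducible hr hp
  have hp' := hU.irr hp
  rw [hp.maximalIdeal_eq, Ideal.span_singleton_pow, Ideal.mem_span_singleton]
  rw [hp'.maximalIdeal_eq, Ideal.span_singleton_pow, Ideal.mem_span_singleton, hu, map_mul,
    map_pow] at h
  have h1 : IsUnit (ι (u : R)) := u.isUnit.map ι
  rw [h1.dvd_mul_left] at h
  have h2 : k ≤ j := by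
    exact (pow_dvd_pow_iff hp'.ne_zero hp'.not_isUnit).1 h
  rw [hu]
  exact Dvd.dvd.mul_left (pow_dvd_pow p h2) _

theorem UnramS.inj (hU : UnramS P S ι φ n θ) : Function.Injective ι := by
  rw [injective_iff_map_eq_zero]
  intro r hr
  by_contra hr0
  obtain ⟨p, hp⟩ := IsDiscreteValuationRing.exists_irreducible R
  obtain ⟨j, u, hu⟩ := IsDiscreteValuationRing.eq_unit_mul_pow_irreducible hr0 hp
  rw [hu, map_mul, map_pow] at hr
  rcases mul_eq_zero.1 hr with h | h
  · exact (u.isUnit.map ι).ne_zero h
  · exact pow_ne_zero j (hU.irr hp).ne_zero h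

end main

/-- The main theorem, given an unramified extension with a Frobenius. -/
theorem unram_main.{u, v} {R : Type*} [CommRing R] [IsDomain R] [IsDiscreteValuationRing R]
    {P : Type u} [Group P] [Fintype P]
    [MulSemiringAction P R] [FaithfulSMul P R] {S' : Type*} [CommRing S'] [IsDomain S']
    [IsDiscreteValuationRing S']
    [MulSemiringAction P S'] {ι : R →+* S'} {φ : S' ≃+* S'} {n : ℕ} {θ : S'}
    (hU : UnramS P S' ι φ n θ) (hpow : ∀ τ : P, τ ^ n = 1) (hP : IsPGroup 2 P)
    (G : ℕ → Subgroup P) (hG : ∀ k τ, τ ∈ G k ↔ ∀ x : R, τ • x - x ∈ maximalIdeal R ^ (k + 1))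
    (L : ℕ) (hL : G L = ⊥)
    (V : Type v) [AddCommGroup V] [Module ℂ V] [FiniteDimensional ℂ V]
    (ρ : Representation ℂ P V) : ∃ z : ℕ, S G L ρ = (z : ℂ) := by
  classical
  obtain ⟨p, hp⟩ := IsDiscreteValuationRing.exists_irreducible R
  let Ω := FractionRing S'
  let : MulSemiringAction P Ω := IsFractionRing.mulSemiringAction P S' Ω
  have : SMulDistribClass P S' Ω := IsFractionRing.smulDistribClass P S' Ω
  have hsm : ∀ (τ : P) (s : S'), τ • algebraMap S' Ω s = algebraMap S' Ω (τ • s) := by
    intro τ s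
    exact (algebraMap.coe_smul' τ s Ω).symm
  have : FaithfulSMul P S' := by
    constructor
    intro a b hab
    apply FaithfulSMul.eq_of_smul_eq_smul (α := R)
    intro r
    apply hU.inj
    rw [← hU.smul_ι, ← hU.smul_ι, hab]
  have : FaithfulSMul P Ω := IsFractionRing.faithfulSMul P S' Ω
  set w : Valuation Ω ℤᵐ⁰ := wS S' with hw
  set π : Ω := algebraMap S' Ω (ι p) with hπ
  have hinvP : ∀ (τ : P) (x : Ω), w (τ • x) = w x := by
    intro τ x
    exact wS_equiv' (MulSemiringAction.toRingEquiv P Ω τ) (MulSemiringAction.toRingEquiv P S' τ)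
      (fun s => hsm τ s) x
  have hB : Base P w π := by
    refine ⟨hinvP, wS_unif (hU.irr hp), ?_⟩
    intro x hx
    obtain ⟨s, rfl⟩ := exists_lift hx
    obtain ⟨s', hs', hss⟩ := hU.res s
    refine ⟨algebraMap S' Ω s', ?_, ?_⟩
    · intro τ
      rw [hsm, hs']
    · rw [← map_sub, hw, wS_lt_one_iff]
      exact hss
  let Φ : Ω ≃+* Ω := IsFractionRing.ringEquivOfRingEquiv φ
  have hΦ : ∀ s : S', Φ (algebraMap S' Ω s) = algebraMap S' Ω (φ s) := by
    intro s
    exact IsFractionRing.ringEquivOfRingEquiv_algebraMap φ s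
  have hΦiter : ∀ (r : ℕ) (s : S'), (Φ : Ω → Ω)^[r] (algebraMap S' Ω s) =
      algebraMap S' Ω ((φ : S' → S')^[r] s) := by
    intro r s
    induction r with
    | zero => rfl
    | succ r ih => rw [Function.iterate_succ_apply', Function.iterate_succ_apply', ih, hΦ]
  have hΦval : ∀ x, w (Φ x) = w x := fun x => wS_equiv' Φ φ hΦ x
  have hinj : Function.Injective (algebraMap S' Ω) := FaithfulSMul.algebraMap_injective S' Ω
  have hE : Ext P w π Φ n (algebraMap S' Ω θ) := by
    constructor
    · intro τ x
      obtain ⟨a, b, _, rfl⟩ := IsFractionRing.div_surjective S' x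
      have hdiv : ∀ (x y : Ω), τ • (x / y) = τ • x / τ • y := by
        intro x y
        rw [div_eq_mul_inv, smul_mul', smul_inv'', div_eq_mul_inv]
      rw [hdiv, map_div₀, map_div₀, hdiv, hsm, hsm, hΦ, hΦ, hΦ, hΦ, hsm, hsm, hU.comm, hU.comm]
    · exact hΦval
    · rw [hπ, hΦ, hU.φι]
    · intro x
      obtain ⟨a, b, _, rfl⟩ := IsFractionRing.div_surjective S' x
      have hdiv : ∀ (r : ℕ) (x y : Ω), (Φ : Ω → Ω)^[r] (x / y) =
          (Φ : Ω → Ω)^[r] x / (Φ : Ω → Ω)^[r] y := by
        intro r x y
        induction r with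
        | zero => rfl
        | succ r ih =>
          rw [Function.iterate_succ_apply', Function.iterate_succ_apply',
            Function.iterate_succ_apply', ih, map_div₀]
      rw [hdiv, hΦiter, hΦiter, hU.pow, hU.pow]
    · exact hpow
    · intro τ
      rw [hsm, hU.fix]
    · exact wS_le_one θ
    · simp only [hΦiter]
      rw [← map_sum, hU.tr, map_one]
    · intro m t hm ht
      -- lift the parameters
      have hlift : ∀ r, ∃ s : S', algebraMap S' Ω s = t r := fun r => exists_lift (ht r).1.le
      choose t' ht' using hlift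
      have ht'm : ∀ r, t' r ∈ maximalIdeal S' := by
        intro r
        rw [← wS_lt_one_iff, ht']
        exact (ht r).1
      -- the polynomial
      set q : Polynomial S' := X ^ m - ∏ r ∈ Ico 1 m, (X + C (t' r)) with hq
      have hmon : q.Monic := by
        apply monic_X_pow_sub
        have hd : (∏ r ∈ Ico 1 m, (X + C (t' r))).degree = ((m - 1 : ℕ) : WithBot ℕ) := by
          rw [degree_prod]
          simp
        have hd2 : (m - 1 : ℕ) < m := by omega
        rw [hd]
        exact_mod_cast hd2
      -- reduction modulo the maximal ideal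
      have hred : q.map (residue S') = X ^ m - X ^ (m - 1) := by
        rw [hq, Polynomial.map_sub, Polynomial.map_pow, map_X, Polynomial.map_prod]
        have h5 : ∀ r ∈ Ico 1 m, (X + C (t' r)).map (residue S') = X := by
          intro r _
          rw [Polynomial.map_add, map_X, map_C, (residue_eq_zero_iff _).2 (ht'm r), C_0, add_zero]
        rw [Finset.prod_congr rfl h5, Finset.prod_const, Nat.card_Ico]
      have h1 : q.eval 1 ∈ maximalIdeal S' := by
        rw [← residue_eq_zero_iff, ← eval₂_at_apply, ← eval_map, hred, map_one]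
        simp
      have h2 : residue S' (q.derivative.eval 1) = 1 := by
        rw [← eval₂_at_apply, ← eval_map, ← derivative_map, hred, map_one]
        simp only [derivative_sub, derivative_X_pow, eval_sub, eval_mul, eval_pow,
          eval_X, one_pow, mul_one]
        rw [Nat.cast_sub hm]
        simp
      have h3 : IsUnit (Ideal.Quotient.mk (maximalIdeal S') (q.derivative.eval 1)) := by
        have : Ideal.Quotient.mk (maximalIdeal S') (q.derivative.eval 1) = 1 := h2
        rw [this]
        exact isUnit_one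
      obtain ⟨a, ha1, ha2⟩ := hU.hens.is_henselian q hmon 1 h1 h3
      have hZ1 : w (algebraMap S' Ω a - 1) < 1 := by
        rw [← map_one (algebraMap S' Ω), ← map_sub, hw, wS_lt_one_iff]
        exact ha2
      have hZ2 : (algebraMap S' Ω a) ^ m = ∏ r ∈ Ico 1 m, (algebraMap S' Ω a + t r) := by
        have h6 : q.eval a = 0 := ha1
        rw [hq, eval_sub, eval_pow, eval_X, eval_prod] at h6
        simp only [eval_add, eval_X, eval_C] at h6
        have h7 := congrArg (algebraMap S' Ω) h6
        rw [map_sub, map_pow, map_prod, map_zero] at h7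
        simp only [map_add, ht'] at h7
        exact sub_eq_zero.1 h7
      refine ⟨algebraMap S' Ω a, ?_, hZ1, hZ2⟩
      apply root_unique (Φ (algebraMap S' Ω a)) (algebraMap S' Ω a) _ hZ1 t
        (fun r => (ht r).1) hm _ hZ2
      · have e : Φ (algebraMap S' Ω a) - 1 = Φ (algebraMap S' Ω a - 1) := by
          rw [map_sub, map_one]
        rw [e, hΦval]
        exact hZ1
      · have h8 := congrArg Φ hZ2
        rw [map_pow, map_prod] at h8
        simp only [map_add, (ht _).2] at h8
        exact h8
  -- compare the filtrations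
  have hfilt : ∀ k, Rk hB k = G k := by
    intro k
    ext τ
    rw [mem_Rk, hG]
    constructor
    · intro h x
      have h1 := hB.val_smul_sub_le (⊥ : Subgroup P) τ (c := algebraMap S' Ω (ι x)) (by
        intro σ hσ
        rw [Subgroup.mem_bot] at hσ
        rw [hσ, one_smul]) (wS_le_one _)
      have h2 : nm (⊥ : Subgroup P) π = π := by
        rw [nm_def, Fintype.prod_unique]
        have h3 : ((default : (⊥ : Subgroup P)) : P) = 1 := (Subgroup.mem_bot).1 (Subtype.prop _)
        rw [h3, one_smul]
      rw [h2] at h1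
      have h4 := h1.trans h
      rw [hsm, hU.smul_ι, ← map_sub, ← map_sub] at h4
      apply hU.mem_pow
      rw [← wS_le_iff]
      exact_mod_cast h4
    · intro h
      have h1 := h p
      have h2 : ι (τ • p - p) ∈ maximalIdeal S' ^ (k + 1) := by
        rw [← hU.max, ← Ideal.map_pow]
        exact Ideal.mem_map_of_mem _ h1
      rw [← wS_le_iff] at h2
      rw [hπ, hsm, hU.smul_ι, ← map_sub, ← map_sub]
      exact_mod_cast h2
  have hfun : Rk hB = G := funext hfilt
  have := main_ext hE hB hP (L := L) (by rw [hfun, hL]) V ρ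
  rw [hfun] at this
  exact this

end Pool.Agent.Helper13.Swan
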