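import Pool.Agent.Helper13.Swan.Unram1
import Pool.Agent.Helper13.Swan.Complete

set_option autoImplicit false

namespace Pool.Agent.Helper13.Swan

open Finset Polynomial IsLocalRing

section lifts

variable {R : Type*} [CommRing R] [IsLocalRing R] {P : Type*} [Group P] [MulSemiringAction P R]

/-- Residue classes have invariant representatives. -/
theorem exists_fixed_lift [Fintype P] (hP : IsPGroup 2 P) [Finite (ResidueField R)]
    [CharP (ResidueField R) 2]
    (htriv : ∀ (τ : P) (x : R), τ • x - x ∈ maximalIdeal R) (c : ResidueField R) :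
    ∃ r : R, (∀ τ : P, τ • r = r) ∧ residue R r = c := by
  classical
  obtain ⟨a, ha⟩ := IsPGroup.iff_card.1 hP
  -- the power map is surjective on the residue field
  have hinj : Function.Injective (fun x : ResidueField R => x ^ (2 ^ a)) := by
    intro x y hxy
    have h1 : (x - y) ^ (2 ^ a) = 0 := by
      rw [sub_pow_char_pow]
      exact sub_eq_zero.2 hxy
    exact sub_eq_zero.1 ((pow_eq_zero_iff (by positivity)).1 h1)
  obtain ⟨d, hd⟩ := (Finite.injective_iff_surjective.1 hinj) c
  obtain ⟨x, rfl⟩ := residue_surjective d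
  refine ⟨∏ τ : P, τ • x, ?_, ?_⟩
  · intro σ
    rw [smul_prod']
    apply Fintype.prod_equiv (Equiv.mulLeft σ)
    intro τ
    simp [mul_smul]
  · rw [map_prod]
    have h1 : ∀ τ : P, residue R (τ • x) = residue R x := by
      intro τ
      rw [← sub_eq_zero, ← map_sub, residue_eq_zero_iff]
      exact htriv τ x
    simp only [h1, Finset.prod_const, Finset.card_univ]
    rw [← Nat.card_eq_fintype_card, ha]
    exact hd

/-- Lifting polynomials with invariant coefficients. -/
theorem exists_poly_lift
    (hlift : ∀ c : ResidueField R, ∃ r : R, (∀ τ : P, τ • r = r) ∧ residue R r = c)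
    (g : Polynomial (ResidueField R)) :
    ∃ f : Polynomial R, f.map (residue R) = g ∧
      (∀ τ : P, f.map (MulSemiringAction.toRingHom P R τ) = f) ∧ f.degree ≤ g.degree := by
  classical
  choose l hl1 hl2 using hlift
  refine ⟨∑ i ∈ g.support, C (l (g.coeff i)) * X ^ i, ?_, ?_, ?_⟩
  · rw [Polynomial.map_sum]
    conv_rhs => rw [g.as_sum_support_C_mul_X_pow]
    apply Finset.sum_congr rfl
    intro i _
    rw [Polynomial.map_mul, map_C, Polynomial.map_pow, map_X, hl2]
  · intro τ
    rw [Polynomial.map_sum]
    apply Finset.sum_congr rfl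
    intro i _
    rw [Polynomial.map_mul, map_C, Polynomial.map_pow, map_X, MulSemiringAction.toRingHom_apply,
      hl1]
  · rw [degree_le_iff_coeff_zero]
    intro m hm
    rw [finsetSum_coeff]
    apply Finset.sum_eq_zero
    intro i hi
    rw [coeff_C_mul, coeff_X_pow, if_neg, mul_zero]
    intro h
    rw [← h] at hi
    rw [mem_support_iff] at hi
    exact hi (coeff_eq_zero_of_degree_lt hm)

theorem exists_monic_lift
    (hlift : ∀ c : ResidueField R, ∃ r : R, (∀ τ : P, τ • r = r) ∧ residue R r = c)
    (g : Polynomial (ResidueField R)) (hg : g.Monic) :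
    ∃ f : Polynomial R, f.map (residue R) = g ∧ f.Monic ∧
      (∀ τ : P, f.map (MulSemiringAction.toRingHom P R τ) = f) ∧ f.natDegree = g.natDegree := by
  obtain ⟨f0, h1, h2, h3⟩ := exists_poly_lift hlift (g - X ^ g.natDegree)
  have hlt : f0.degree < (g.natDegree : WithBot ℕ) := by
    refine lt_of_le_of_lt h3 ?_
    have h4 : (g - X ^ g.natDegree).degree < g.degree := by
      apply degree_sub_lt_left
      · rw [degree_X_pow, degree_eq_natDegree hg.ne_zero]
      · exact hg.ne_zero
      · rw [hg.leadingCoeff, (monic_X_pow _).leadingCoeff]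
    rwa [degree_eq_natDegree hg.ne_zero] at h4
  refine ⟨X ^ g.natDegree + f0, ?_, monic_X_pow_add hlt, ?_, ?_⟩
  · rw [Polynomial.map_add, Polynomial.map_pow, map_X, h1]
    ring
  · intro τ
    rw [Polynomial.map_add, Polynomial.map_pow, map_X, h2]
  · rw [add_comm, natDegree_add_eq_right_of_degree_lt]
    · exact natDegree_X_pow _
    · rwa [degree_X_pow]

end lifts

/-- Irreducible monic polynomials of every degree over a finite field. -/
theorem exists_irreducible_degree (k : Type*) [Field k] [Finite k] (p : ℕ) [Fact p.Prime]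
    [CharP k p] (n : ℕ) [NeZero n] :
    ∃ g : Polynomial k, g.Monic ∧ Irreducible g ∧ g.natDegree = n := by
  obtain ⟨α, hα⟩ := Field.exists_primitive_element k (FiniteField.Extension k p n)
  have hint : IsIntegral k α := Algebra.IsIntegral.isIntegral α
  refine ⟨minpoly k α, minpoly.monic hint, minpoly.irreducible hint, ?_⟩
  rw [(Field.primitive_element_iff_minpoly_natDegree_eq k α).1 hα,
    FiniteField.finrank_extension]

/-- The sum of the `q^r`-powers does not vanish identically. -/
theorem exists_sum_pow_ne_zero (l : Type*) [Field l] [Finite l] {q n : ℕ} (hq : 1 < q)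
    (hn : 0 < n) (hcard : Nat.card l = q ^ n) : ∃ x : l, ∑ r ∈ range n, x ^ (q ^ r) ≠ 0 := by
  classical
  have := Fintype.ofFinite l
  by_contra hc
  push Not at hc
  set g : Polynomial l := ∑ r ∈ range n, X ^ (q ^ r) with hg
  have hd : g.natDegree ≤ q ^ (n - 1) := by
    rw [hg]
    apply natDegree_sum_le_of_forall_le
    intro r hr
    rw [mem_range] at hr
    rw [natDegree_X_pow]
    exact Nat.pow_le_pow_right (by omega) (by omega)
  have h0 : g = 0 := by
    apply eq_zero_of_natDegree_lt_card_of_eval_eq_zero g (f := (id : l → l))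
      Function.injective_id
    · intro x
      rw [hg, eval_finsetSum]
      simp only [eval_pow, eval_X, id]
      exact hc x
    · refine lt_of_le_of_lt hd ?_
      rw [← Nat.card_eq_fintype_card, hcard]
      exact Nat.pow_lt_pow_right hq (by omega)
  have h1 : g.coeff 1 = 1 := by
    rw [hg, finsetSum_coeff]
    rw [Finset.sum_eq_single 0]
    · simp
    · intro r _ hr
      rw [coeff_X_pow, if_neg]
      intro h
      have : 1 < q ^ r := Nat.one_lt_pow hr hq
      omega
    · intro h
      rw [mem_range] at h
      exact absurd hn h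
  rw [h0, coeff_zero] at h1
  exact zero_ne_one h1

end Pool.Agent.Helper13.Swan
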