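import Pool.Agent.Helper13.Swan.Unram2

set_option autoImplicit false

namespace Pool.Agent.Helper13.Swan

open Finset Polynomial IsLocalRing

section construct

variable {R : Type*} [CommRing R] [IsLocalRing R] (f : Polynomial R)

/-- Reduction modulo the maximal ideal. -/
noncomputable def psi : AdjoinRoot f →+* AdjoinRoot (f.map (residue R)) :=
  AdjoinRoot.map (residue R) f (f.map (residue R)) dvd_rfl

theorem psi_mk (p : Polynomial R) :
    psi f (AdjoinRoot.mk f p) = AdjoinRoot.mk (f.map (residue R)) (p.map (residue R)) := by
  unfold psi AdjoinRoot.map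
  rw [AdjoinRoot.lift_mk]
  induction p using Polynomial.induction_on' with
  | add p q hp hq => rw [eval₂_add, hp, hq, Polynomial.map_add, map_add]
  | monomial n a =>
    rw [eval₂_monomial, map_monomial, ← C_mul_X_pow_eq_monomial, map_mul, map_pow]
    rfl

theorem psi_surjective : Function.Surjective (psi f) := by
  intro x
  induction x using AdjoinRoot.induction_on with
  | ih p =>
    obtain ⟨q, rfl⟩ := Polynomial.map_surjective _ residue_surjective p
    exact ⟨AdjoinRoot.mk f q, psi_mk f q⟩

theorem psi_ker : RingHom.ker (psi f) = (maximalIdeal R).map (AdjoinRoot.of f) := by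
  apply le_antisymm
  · intro x hx
    rw [RingHom.mem_ker] at hx
    induction x using AdjoinRoot.induction_on with
    | ih p =>
      rw [psi_mk, AdjoinRoot.mk_eq_zero] at hx
      obtain ⟨g, hg⟩ := hx
      obtain ⟨g', rfl⟩ := Polynomial.map_surjective _ residue_surjective g
      have h1 : AdjoinRoot.mk f p = AdjoinRoot.mk f (p - f * g') := by
        rw [map_sub, map_mul, AdjoinRoot.mk_self, zero_mul, sub_zero]
      rw [h1]
      have h2 : p - f * g' ∈ (maximalIdeal R).map (C : R →+* Polynomial R) := by
        rw [Ideal.mem_map_C_iff]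
        intro m
        rw [← residue_eq_zero_iff, ← coeff_map, Polynomial.map_sub, Polynomial.map_mul, ← hg,
          sub_self, coeff_zero]
      have h3 : AdjoinRoot.mk f (p - f * g') ∈
          ((maximalIdeal R).map (C : R →+* Polynomial R)).map (AdjoinRoot.mk f) :=
        Ideal.mem_map_of_mem _ h2
      rw [Ideal.map_map] at h3
      exact h3
  · rw [Ideal.map_le_iff_le_comap]
    intro r hr
    rw [Ideal.mem_comap, RingHom.mem_ker]
    have h1 : AdjoinRoot.of f r = AdjoinRoot.mk f (C r) := rfl
    rw [h1, psi_mk, map_C, (residue_eq_zero_iff r).2 hr, C_0, map_zero]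

theorem map_isMaximal (hirr : Irreducible (f.map (residue R))) :
    ((maximalIdeal R).map (AdjoinRoot.of f)).IsMaximal := by
  have : Fact (Irreducible (f.map (residue R))) := ⟨hirr⟩
  rw [← psi_ker]
  exact RingHom.ker_isMaximal_of_surjective _ (psi_surjective f)

omit [IsLocalRing R] in
theorem finite_adjoinRoot (hf : f.Monic) : Module.Finite R (AdjoinRoot f) :=
  (AdjoinRoot.powerBasis' hf).finite

theorem isLocal_adjoinRoot (hf : f.Monic) (hirr : Irreducible (f.map (residue R))) :
    IsLocalRing (AdjoinRoot f) := by
  have := finite_adjoinRoot f hf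
  exact isLocal_of_map_maximal (R := R) (S := AdjoinRoot f) (map_isMaximal f hirr)

end construct

section dvr

variable {R : Type*} [CommRing R] [IsDomain R] [IsDiscreteValuationRing R] (f : Polynomial R)

theorem isDomain_adjoinRoot (hf : f.Monic) (hirr : Irreducible (f.map (residue R))) :
    IsDomain (AdjoinRoot f) := by
  apply AdjoinRoot.isDomain_of_prime
  have h1 := Monic.irreducible_of_irreducible_map (residue R) f hf hirr
  exact h1.prime

theorem of_injective (hf : f.Monic) (hirr : Irreducible (f.map (residue R))) :
    Function.Injective (AdjoinRoot.of f) := by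
  apply AdjoinRoot.of.injective_of_degree_ne_zero
  intro h
  have h1 : (f.map (residue R)).degree = 0 := by
    rw [hf.degree_map]; exact h
  exact hirr.not_isUnit (isUnit_iff_degree_eq_zero.2 h1)

theorem dvr_adjoinRoot (hf : f.Monic) (hirr : Irreducible (f.map (residue R)))
    [IsDomain (AdjoinRoot f)] : IsDiscreteValuationRing (AdjoinRoot f) := by
  have := finite_adjoinRoot f hf
  have := isLocal_adjoinRoot f hf hirr
  have hnoeth : IsNoetherianRing (AdjoinRoot f) := IsNoetherianRing.of_finite R (AdjoinRoot f)
  obtain ⟨p, hp⟩ := IsDiscreteValuationRing.exists_irreducible R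
  have hmax : maximalIdeal (AdjoinRoot f) = Ideal.span {AdjoinRoot.of f p} := by
    rw [← eq_maximalIdeal (map_isMaximal f hirr), hp.maximalIdeal_eq, Ideal.map_span,
      Set.image_singleton]
  have hprin : (maximalIdeal (AdjoinRoot f)).IsPrincipal := ⟨_, hmax⟩
  have hpir : IsPrincipalIdealRing (AdjoinRoot f) :=
    ((tfae_of_isNoetherianRing_of_isLocalRing_of_isDomain (AdjoinRoot f)).out 0 4).2 hprin
  exact { not_a_field' := by
            rw [hmax]
            intro h
            rw [Ideal.span_singleton_eq_bot] at h
            exact hp.ne_zero (of_injective f hf hirr (by rw [h, map_zero])) }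

end dvr

end Pool.Agent.Helper13.Swan
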