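import Pool.Agent.Helper13.Swan.Unram3

set_option autoImplicit false

namespace Pool.Agent.Helper13.Swan

open Finset Polynomial IsLocalRing

section action

variable {R : Type*} [CommRing R] {P : Type*} [Group P] [MulSemiringAction P R]
  (f : Polynomial R)
  (hfix : ∀ τ : P, f.map (MulSemiringAction.toRingHom P R τ) = f)

/-- The action on `R[X]/(f)`, fixing the root. -/
noncomputable def actHom (τ : P) : AdjoinRoot f →+* AdjoinRoot f :=
  AdjoinRoot.map (MulSemiringAction.toRingHom P R τ) f f (by rw [hfix])

theorem actHom_of (τ : P) (r : R) :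
    actHom f hfix τ (AdjoinRoot.of f r) = AdjoinRoot.of f (τ • r) := by
  unfold actHom
  rw [AdjoinRoot.map_of]
  rfl

theorem actHom_root (τ : P) : actHom f hfix τ (AdjoinRoot.root f) = AdjoinRoot.root f := by
  unfold actHom
  rw [AdjoinRoot.map_root]

theorem actHom_mk (τ : P) (p : Polynomial R) :
    actHom f hfix τ (AdjoinRoot.mk f p) =
      AdjoinRoot.mk f (p.map (MulSemiringAction.toRingHom P R τ)) := by
  induction p using Polynomial.induction_on' with
  | add p q hp hq => rw [map_add, map_add, hp, hq, Polynomial.map_add, map_add]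
  | monomial n a =>
    rw [map_monomial, ← C_mul_X_pow_eq_monomial, ← C_mul_X_pow_eq_monomial, map_mul, map_pow,
      map_mul, map_pow, map_mul, map_pow, AdjoinRoot.mk_X, AdjoinRoot.mk_C, actHom_root, actHom_of,
      AdjoinRoot.mk_C]
    rfl

/-- The action as a `MulSemiringAction`. -/
@[instance_reducible]
noncomputable def actS : MulSemiringAction P (AdjoinRoot f) where
  smul τ x := actHom f hfix τ x
  one_smul := by
    intro x
    change actHom f hfix 1 x = x
    induction x using AdjoinRoot.induction_on with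
    | ih p =>
      rw [actHom_mk]
      congr 1
      ext i
      rw [coeff_map, MulSemiringAction.toRingHom_apply, one_smul]
  mul_smul := by
    intro σ τ x
    change actHom f hfix (σ * τ) x = actHom f hfix σ (actHom f hfix τ x)
    induction x using AdjoinRoot.induction_on with
    | ih p =>
      rw [actHom_mk, actHom_mk, actHom_mk]
      congr 1
      ext i
      simp only [coeff_map, MulSemiringAction.toRingHom_apply, mul_smul]
  smul_zero := fun τ => map_zero (actHom f hfix τ)
  smul_add := fun τ => map_add (actHom f hfix τ)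
  smul_one := fun τ => map_one (actHom f hfix τ)
  smul_mul := fun τ => map_mul (actHom f hfix τ)

end action

section finitefield

variable {k : Type*} [Field k] [Finite k] {g : Polynomial k}

theorem ff_finite (hirr : Irreducible g) : Finite (AdjoinRoot g) := by
  have : Fact (Irreducible g) := ⟨hirr⟩
  have hfd : Module.Finite k (AdjoinRoot g) := (AdjoinRoot.powerBasis hirr.ne_zero).finite
  exact Module.finite_of_finite k

omit [Finite k] in
theorem ff_card (hirr : Irreducible g) :
    Nat.card (AdjoinRoot g) = Nat.card k ^ g.natDegree := by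
  have : Fact (Irreducible g) := ⟨hirr⟩
  have hfd : Module.Finite k (AdjoinRoot g) := (AdjoinRoot.powerBasis hirr.ne_zero).finite
  have h1 : Module.finrank k (AdjoinRoot g) = g.natDegree := by
    rw [(AdjoinRoot.powerBasis hirr.ne_zero).finrank, AdjoinRoot.powerBasis_dim]
  rw [Module.natCard_eq_pow_finrank (K := k), h1]

theorem ff_frob (hirr : Irreducible g) : ∃ Fr : AdjoinRoot g →+* AdjoinRoot g,
    (∀ x, Fr x = x ^ Nat.card k) ∧ ∀ c, Fr (AdjoinRoot.of g c) = AdjoinRoot.of g c := by
  have : Fact (Irreducible g) := ⟨hirr⟩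
  have : Fintype k := Fintype.ofFinite k
  refine ⟨(FiniteField.frobeniusAlgHom k (AdjoinRoot g) : AdjoinRoot g →+* AdjoinRoot g), ?_, ?_⟩
  · intro x
    rw [Nat.card_eq_fintype_card]
    rfl
  · intro c
    exact (FiniteField.frobeniusAlgHom k (AdjoinRoot g)).commutes c

theorem ff_root_pow (hirr : Irreducible g) :
    eval₂ (AdjoinRoot.of g) (AdjoinRoot.root g ^ Nat.card k) g = 0 := by
  obtain ⟨Fr, h1, h2⟩ := ff_frob hirr
  have h3 := congrArg Fr (AdjoinRoot.eval₂_root g)
  rw [map_zero, hom_eval₂, h1] at h3
  rw [← h3]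
  congr 1
  ext c
  exact (h2 c).symm

theorem ff_sep (hirr : Irreducible g) {x : AdjoinRoot g} (hx : eval₂ (AdjoinRoot.of g) x g = 0) :
    eval₂ (AdjoinRoot.of g) x g.derivative ≠ 0 := by
  have : Fact (Irreducible g) := ⟨hirr⟩
  have hsep : g.Separable := PerfectField.separable_of_irreducible hirr
  exact hsep.eval₂_derivative_ne_zero (AdjoinRoot.of g) hx

end finitefield

/-- Existence of the unramified extension data. -/
theorem exists_unram.{u} {R : Type u} [CommRing R] [IsDomain R] [IsDiscreteValuationRing R]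
    [IsAdicComplete (maximalIdeal R) R] [Finite (ResidueField R)] [CharP (ResidueField R) 2]
    {P : Type*} [Group P] [Fintype P] [MulSemiringAction P R] (hP : IsPGroup 2 P)
    (htriv : ∀ (τ : P) (x : R), τ • x - x ∈ maximalIdeal R) (n : ℕ) [NeZero n] :
    ∃ (S : Type u) (_ : CommRing S) (_ : IsDomain S) (_ : IsDiscreteValuationRing S)
      (_ : MulSemiringAction P S) (ι : R →+* S) (φ : S ≃+* S) (θ : S), UnramS P S ι φ n θ := by
  classical
  have hn : 0 < n := Nat.pos_of_ne_zero (NeZero.ne n)
  have hlift := exists_fixed_lift hP htriv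
  have : Fact (Nat.Prime 2) := ⟨Nat.prime_two⟩
  obtain ⟨g, hgm, hgirr, hgn⟩ := exists_irreducible_degree (ResidueField R) 2 n
  obtain ⟨f, hfg, hfm, hfix, hfn⟩ := exists_monic_lift hlift g hgm
  have hirr : Irreducible (f.map (residue R)) := by rw [hfg]; exact hgirr
  have i1 := isDomain_adjoinRoot f hfm hirr
  have i2 := dvr_adjoinRoot f hfm hirr
  have hfin := finite_adjoinRoot f hfm
  let act : MulSemiringAction P (AdjoinRoot f) := actS f hfix
  have hact : ∀ (τ : P) (x : AdjoinRoot f), τ • x = actHom f hfix τ x := fun τ x => rfl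
  have hfact : Fact (Irreducible (f.map (residue R))) := ⟨hirr⟩
  set l := AdjoinRoot (f.map (residue R)) with hl
  have hmax : (maximalIdeal R).map (AdjoinRoot.of f) = maximalIdeal (AdjoinRoot f) :=
    eq_maximalIdeal (map_isMaximal f hirr)
  have hker : ∀ x : AdjoinRoot f, psi f x = 0 ↔ x ∈ maximalIdeal (AdjoinRoot f) := by
    intro x
    rw [← hmax, ← psi_ker, RingHom.mem_ker]
  -- completeness and Hensel
  have hcomp : IsAdicComplete ((maximalIdeal R).map (algebraMap R (AdjoinRoot f))) (AdjoinRoot f) :=
    adicComplete_of_finite (maximalIdeal R) inferInstance (map_isMaximal f hirr).ne_top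
  have hcomp' : IsAdicComplete (maximalIdeal (AdjoinRoot f)) (AdjoinRoot f) := by
    have e : (maximalIdeal R).map (algebraMap R (AdjoinRoot f)) = maximalIdeal (AdjoinRoot f) :=
      hmax
    rwa [e] at hcomp
  have hhens : HenselianRing (AdjoinRoot f) (maximalIdeal (AdjoinRoot f)) := inferInstance
  -- cardinalities
  set q := Nat.card (ResidueField R) with hq
  have hq1 : 1 < q := Finite.one_lt_card
  have hlfin : Finite l := ff_finite hirr
  have hcard : Nat.card l = q ^ n := by
    have h1 := ff_card hirr
    rwa [show (f.map (residue R)).natDegree = n by rw [hfg, hgn]] at h1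
  -- the Frobenius of `l`
  obtain ⟨Fr, hFr, hFrof⟩ := ff_frob hirr
  set x0 : l := AdjoinRoot.root (f.map (residue R)) with hx0
  have hxq : eval₂ (AdjoinRoot.of (f.map (residue R))) (x0 ^ q) (f.map (residue R)) = 0 :=
    ff_root_pow hirr
  -- evaluation of polynomials and reduction
  have hpsi_of : ∀ r : R, psi f (AdjoinRoot.of f r) =
      AdjoinRoot.of (f.map (residue R)) (residue R r) := by
    intro r
    unfold psi
    rw [AdjoinRoot.map_of]
  have hpsi_root : psi f (AdjoinRoot.root f) = x0 := by
    unfold psi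
    rw [AdjoinRoot.map_root]
  have hpsi_eval : ∀ (p : Polynomial R) (x : AdjoinRoot f),
      psi f ((p.map (AdjoinRoot.of f)).eval x) =
        eval₂ (AdjoinRoot.of (f.map (residue R))) (psi f x) (p.map (residue R)) := by
    intro p x
    rw [eval_map, hom_eval₂, eval₂_map]
    congr 1
    ext r
    exact hpsi_of r
  set X0 : AdjoinRoot f := AdjoinRoot.root f with hX0
  -- the root β
  have hFm : (f.map (AdjoinRoot.of f)).Monic := hfm.map _
  have hβex : ∃ β : AdjoinRoot f, (f.map (AdjoinRoot.of f)).IsRoot β ∧
      β - X0 ^ q ∈ maximalIdeal (AdjoinRoot f) := by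
    apply hhens.is_henselian _ hFm
    · rw [← hker, hpsi_eval, map_pow, hpsi_root, hxq]
    · have h1 : (f.map (AdjoinRoot.of f)).derivative.eval (X0 ^ q) ∉
          maximalIdeal (AdjoinRoot f) := by
        rw [← hker, derivative_map, hpsi_eval, map_pow, hpsi_root, ← derivative_map]
        exact ff_sep hirr hxq
      have h2 : IsUnit ((f.map (AdjoinRoot.of f)).derivative.eval (X0 ^ q)) := by
        by_contra hc
        exact h1 hc
      exact h2.map _
  obtain ⟨β, hβ1, hβ2⟩ := hβex
  have hβpsi : psi f β = x0 ^ q := by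
    rw [← hker, map_sub, map_pow, hpsi_root] at hβ2
    exact sub_eq_zero.1 hβ2
  -- uniqueness of roots with given reduction
  have huniq : ∀ a b : AdjoinRoot f, (f.map (AdjoinRoot.of f)).eval a = 0 →
      (f.map (AdjoinRoot.of f)).eval b = 0 → psi f a = psi f b → a = b := by
    intro a b ha hb hab
    apply hensel_unique ha hb
    · rw [← hker, map_sub, hab, sub_self]
    · by_contra hc
      have h1 : (f.map (AdjoinRoot.of f)).derivative.eval a ∈ maximalIdeal (AdjoinRoot f) := hc
      rw [← hker, derivative_map, hpsi_eval, ← derivative_map] at h1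
      refine ff_sep hirr ?_ h1
      rw [← hpsi_eval, ha, map_zero]
  -- the lift of Frobenius
  let Φ : AdjoinRoot f →+* AdjoinRoot f := AdjoinRoot.lift (AdjoinRoot.of f) β (by
    rw [← eval_map]; exact hβ1)
  have hΦof : ∀ r, Φ (AdjoinRoot.of f r) = AdjoinRoot.of f r := fun r => AdjoinRoot.lift_of _
  have hΦroot : Φ X0 = β := AdjoinRoot.lift_root _
  have hΦpsi : ∀ s, psi f (Φ s) = psi f s ^ q := by
    have h1 : (psi f).comp Φ = Fr.comp (psi f) := by
      apply AdjoinRoot.ringHom_ext
      · ext r
        simp only [RingHom.comp_apply]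
        rw [hΦof, hpsi_of]
        exact (hFrof _).symm
      · simp only [RingHom.comp_apply]
        rw [hΦroot, hβpsi, hpsi_root]
        exact (hFr x0).symm
    intro s
    have h2 := DFunLike.congr_fun h1 s
    simp only [RingHom.comp_apply] at h2
    rw [h2]
    exact hFr _
  have hΦeval : ∀ x, (f.map (AdjoinRoot.of f)).eval x = 0 →
      (f.map (AdjoinRoot.of f)).eval (Φ x) = 0 := by
    intro x hx
    have h1 : Φ ((f.map (AdjoinRoot.of f)).eval x) = (f.map (AdjoinRoot.of f)).eval (Φ x) := by
      rw [eval_map, eval_map, hom_eval₂]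
      congr 1
      ext r
      exact hΦof r
    rw [← h1, hx, map_zero]
  have hroot0 : (f.map (AdjoinRoot.of f)).eval X0 = 0 := by
    rw [eval_map]
    exact AdjoinRoot.eval₂_root f
  have hiter_eval : ∀ r : ℕ, (f.map (AdjoinRoot.of f)).eval ((Φ : AdjoinRoot f → AdjoinRoot f)^[r] X0)
      = 0 := by
    intro r
    induction r with
    | zero => exact hroot0
    | succ r ih => rw [Function.iterate_succ_apply']; exact hΦeval _ ih
  have hiter_psi : ∀ (r : ℕ) (s : AdjoinRoot f),
      psi f ((Φ : AdjoinRoot f → AdjoinRoot f)^[r] s) = psi f s ^ (q ^ r) := by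
    intro r s
    induction r with
    | zero => simp
    | succ r ih =>
      rw [Function.iterate_succ_apply', hΦpsi, ih, ← pow_mul, pow_succ]
  have hpowcard : ∀ x : l, x ^ (q ^ n) = x := by
    intro x
    have := Fintype.ofFinite l
    rw [← hcard, Nat.card_eq_fintype_card]
    exact FiniteField.pow_card x
  have hΦn_root : (Φ : AdjoinRoot f → AdjoinRoot f)^[n] X0 = X0 := by
    apply huniq _ _ (hiter_eval n) hroot0
    rw [hiter_psi, hpowcard]
  have hΦn : ∀ s, (Φ : AdjoinRoot f → AdjoinRoot f)^[n] s = s := by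
    have h1 : Φ ^ n = RingHom.id _ := by
      apply AdjoinRoot.ringHom_ext
      · ext r
        simp only [RingHom.comp_apply, RingHom.id_apply]
        have h3 : ∀ j : ℕ, (Φ ^ j) (AdjoinRoot.of f r) = AdjoinRoot.of f r := by
          intro j
          induction j with
          | zero => rfl
          | succ j ih => rw [pow_succ, RingHom.mul_def, RingHom.comp_apply, hΦof, ih]
        exact h3 n
      · rw [RingHom.id_apply, RingHom.coe_pow]
        exact hΦn_root
    intro s
    have h2 := DFunLike.congr_fun h1 s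
    rw [RingHom.coe_pow] at h2
    exact h2
  have hbij : Function.Bijective Φ := by
    obtain ⟨m, rfl⟩ : ∃ m, n = m + 1 := ⟨n - 1, by omega⟩
    constructor
    · intro a b hab
      rw [← hΦn a, ← hΦn b, Function.iterate_succ_apply, Function.iterate_succ_apply, hab]
    · intro b
      refine ⟨(Φ : AdjoinRoot f → AdjoinRoot f)^[m] b, ?_⟩
      rw [← Function.iterate_succ_apply' (Φ : AdjoinRoot f → AdjoinRoot f)]
      exact hΦn b
  let φ : AdjoinRoot f ≃+* AdjoinRoot f := RingEquiv.ofBijective Φ hbij
  have hφΦ : (φ : AdjoinRoot f → AdjoinRoot f) = Φ := rfl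
  -- the action of `P`
  have hactpsi : ∀ (τ : P) s, psi f (actHom f hfix τ s) = psi f s := by
    intro τ
    have h1 : (psi f).comp (actHom f hfix τ) = psi f := by
      apply AdjoinRoot.ringHom_ext
      · ext r
        simp only [RingHom.comp_apply]
        rw [actHom_of, hpsi_of, hpsi_of]
        congr 1
        rw [← sub_eq_zero, ← map_sub, residue_eq_zero_iff]
        exact htriv τ r
      · simp only [RingHom.comp_apply]
        rw [actHom_root]
    intro s
    exact DFunLike.congr_fun h1 s
  have hactβ : ∀ τ : P, actHom f hfix τ β = β := by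
    intro τ
    apply huniq
    · have h1 : actHom f hfix τ ((f.map (AdjoinRoot.of f)).eval β) =
          (f.map (AdjoinRoot.of f)).eval (actHom f hfix τ β) := by
        have h3 : f.map (AdjoinRoot.of f) =
            (f.map (MulSemiringAction.toRingHom P R τ)).map (AdjoinRoot.of f) := by rw [hfix]
        conv_rhs => rw [h3]
        rw [eval_map, eval_map, hom_eval₂, eval₂_map]
        congr 1
        ext r
        exact actHom_of f hfix τ r
      have h2 : (f.map (AdjoinRoot.of f)).eval β = 0 := hβ1
      rw [← h1, h2, map_zero]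
    · exact hβ1
    · exact hactpsi τ β
  have hcomm : ∀ (τ : P) (s : AdjoinRoot f), Φ (actHom f hfix τ s) = actHom f hfix τ (Φ s) := by
    intro τ
    have h1 : Φ.comp (actHom f hfix τ) = (actHom f hfix τ).comp Φ := by
      apply AdjoinRoot.ringHom_ext
      · ext r
        simp only [RingHom.comp_apply]
        rw [actHom_of, hΦof, hΦof, actHom_of]
      · simp only [RingHom.comp_apply]
        rw [actHom_root, ← hX0, hΦroot, hactβ]
    intro s
    exact DFunLike.congr_fun h1 s
  have hcomm_iter : ∀ (τ : P) (r : ℕ) (s : AdjoinRoot f),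
      (Φ : AdjoinRoot f → AdjoinRoot f)^[r] (actHom f hfix τ s) =
        actHom f hfix τ ((Φ : AdjoinRoot f → AdjoinRoot f)^[r] s) := by
    intro τ r s
    induction r with
    | zero => rfl
    | succ r ih =>
      rw [Function.iterate_succ_apply', Function.iterate_succ_apply', ih, hcomm]
  -- invariant representatives
  have hres : ∀ x : l, ∃ s' : AdjoinRoot f, (∀ τ : P, actHom f hfix τ s' = s') ∧ psi f s' = x := by
    intro x
    induction x using AdjoinRoot.induction_on with
    | ih p =>
      obtain ⟨p', hp1, hp2, _⟩ := exists_poly_lift (P := P) hlift p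
      refine ⟨AdjoinRoot.mk f p', ?_, ?_⟩
      · intro τ
        rw [actHom_mk, hp2]
      · rw [psi_mk, hp1]
  -- the trace one element
  obtain ⟨x1, hx1⟩ := exists_sum_pow_ne_zero l hq1 hn hcard
  obtain ⟨s1, hs1, hs1'⟩ := hres x1
  set t := ∑ r ∈ range n, (Φ : AdjoinRoot f → AdjoinRoot f)^[r] s1 with ht
  have htpsi : psi f t ≠ 0 := by
    rw [ht, map_sum]
    simp only [hiter_psi, hs1']
    exact hx1
  have htunit : IsUnit t := by
    by_contra hc
    exact htpsi ((hker t).2 hc)
  obtain ⟨u, hu⟩ := htunit
  have htu : t * (↑u⁻¹ : AdjoinRoot f) = 1 := by rw [← hu]; exact u.mul_inv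
  have hΦt : Φ t = t := by
    rw [ht, map_sum]
    simp only [← Function.iterate_succ_apply' (Φ : AdjoinRoot f → AdjoinRoot f)]
    apply sum_range_shift (fun r => (Φ : AdjoinRoot f → AdjoinRoot f)^[r] s1)
    rw [hΦn]
    rfl
  have hΦu : Φ (↑u⁻¹ : AdjoinRoot f) = (↑u⁻¹ : AdjoinRoot f) := by
    have h1 := congrArg Φ htu
    rw [map_mul, map_one, hΦt] at h1
    exact (mul_left_cancel₀ (by
      intro h0
      rw [h0, zero_mul] at htu
      exact zero_ne_one htu) (htu.trans h1.symm)).symm
  have hactt : ∀ τ : P, actHom f hfix τ t = t := by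
    intro τ
    rw [ht, map_sum]
    apply Finset.sum_congr rfl
    intro r _
    rw [← hcomm_iter, hs1]
  have hactu : ∀ τ : P, actHom f hfix τ (↑u⁻¹ : AdjoinRoot f) = (↑u⁻¹ : AdjoinRoot f) := by
    intro τ
    have h1 := congrArg (actHom f hfix τ) htu
    rw [map_mul, map_one, hactt] at h1
    exact (mul_left_cancel₀ (by
      intro h0
      rw [h0, zero_mul] at htu
      exact zero_ne_one htu) (htu.trans h1.symm)).symm
  refine ⟨AdjoinRoot f, inferInstance, i1, i2, act, AdjoinRoot.of f, φ, s1 * (↑u⁻¹ : AdjoinRoot f), ?_⟩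
  constructor
  · intro τ r
    rw [hact, actHom_of]
  · exact hΦof
  · intro τ s
    exact hcomm τ s
  · intro s
    exact hΦn s
  · exact hmax
  · intro s
    obtain ⟨s', h1, h2⟩ := hres (psi f s)
    refine ⟨s', fun τ => h1 τ, ?_⟩
    rw [← hker, map_sub, h2, sub_self]
  · intro τ
    rw [hact, map_mul, hs1, hactu]
  · have h1 : ∀ r : ℕ, (φ : AdjoinRoot f → AdjoinRoot f)^[r] (s1 * (↑u⁻¹ : AdjoinRoot f)) =
        (Φ : AdjoinRoot f → AdjoinRoot f)^[r] s1 * (↑u⁻¹ : AdjoinRoot f) := by
      intro r
      rw [hφΦ]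
      induction r with
      | zero => rfl
      | succ r ih =>
        rw [Function.iterate_succ_apply', Function.iterate_succ_apply', ih, map_mul, hΦu]
    simp only [h1]
    rw [← Finset.sum_mul, ← ht, htu]
  · exact hhens

end Pool.Agent.Helper13.Swan
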