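import Mathlib

set_option autoImplicit false

namespace Pool.Agent.Helper13.Swan

open WithZero Finset

/-- `ex k` is the value of an element of additive valuation `k`. -/
noncomputable def ex (k : ℤ) : ℤᵐ⁰ := WithZero.exp (-k)

theorem ex_zero : ex 0 = 1 := by simp [ex]

theorem ex_add (a b : ℤ) : ex (a + b) = ex a * ex b := by
  unfold ex
  rw [← WithZero.exp_add]
  congr 1
  ring

theorem ex_ne_zero (a : ℤ) : ex a ≠ 0 := WithZero.exp_ne_zero

theorem ex_pos (a : ℤ) : 0 < ex a := WithZero.exp_pos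

theorem ex_le_ex {a b : ℤ} : ex a ≤ ex b ↔ b ≤ a := by
  unfold ex
  rw [WithZero.exp_le_exp]
  omega

theorem ex_lt_ex {a b : ℤ} : ex a < ex b ↔ b < a := by
  unfold ex
  rw [WithZero.exp_lt_exp]
  omega

theorem ex_inj {a b : ℤ} : ex a = ex b ↔ a = b := by
  unfold ex
  rw [WithZero.exp_inj]
  omega

theorem exists_ex {x : ℤᵐ⁰} (hx : x ≠ 0) : ∃ k : ℤ, x = ex k := by
  refine ⟨-WithZero.log x, ?_⟩
  unfold ex
  rw [neg_neg, WithZero.exp_log hx]

theorem ex_pow (k : ℤ) (n : ℕ) : ex k ^ n = ex (n * k) := by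
  induction n with
  | zero => simp [ex_zero]
  | succ n ih =>
    rw [pow_succ, ih, ← ex_add]
    congr 1
    push_cast
    ring

theorem ex_neg (k : ℤ) : ex (-k) = (ex k)⁻¹ := by
  have : ex (-k) * ex k = 1 := by rw [← ex_add, neg_add_cancel, ex_zero]
  exact eq_inv_of_mul_eq_one_left this

theorem ex_sub (a b : ℤ) : ex (a - b) = ex a / ex b := by
  rw [sub_eq_add_neg, ex_add, ex_neg, div_eq_mul_inv]

theorem prod_ex {ι : Type*} (s : Finset ι) (f : ι → ℤ) :
    ∏ i ∈ s, ex (f i) = ex (∑ i ∈ s, f i) := by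
  classical
  induction s using Finset.induction_on with
  | empty => simp [ex_zero]
  | insert a s ha ih => rw [Finset.prod_insert ha, Finset.sum_insert ha, ih, ex_add]

theorem lt_ex_iff {x : ℤᵐ⁰} {k : ℤ} : x < ex k ↔ x ≤ ex (k + 1) := by
  by_cases hx : x = 0
  · subst hx
    simp [ex_pos, (ex_pos _).le]
  · obtain ⟨m, rfl⟩ := exists_ex hx
    rw [ex_lt_ex, ex_le_ex]
    omega

theorem lt_one_iff {x : ℤᵐ⁰} : x < 1 ↔ x ≤ ex 1 := by
  rw [← ex_zero, lt_ex_iff]
  simp

theorem eq_zero_of_forall_le {x : ℤᵐ⁰} (h : ∀ n : ℕ, x ≤ ex n) : x = 0 := by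
  by_contra hx
  obtain ⟨m, rfl⟩ := exists_ex hx
  have := h (m.toNat + 1)
  rw [ex_le_ex] at this
  push_cast at this
  omega

/-- If `x` is below `max a (ex n)` for all `n` then `x ≤ a`. -/
theorem le_of_forall_le_max {x a : ℤᵐ⁰} (h : ∀ n : ℕ, x ≤ max a (ex n)) : x ≤ a := by
  by_cases hx : x = 0
  · rw [hx]; exact zero_le
  · obtain ⟨m, hm⟩ := exists_ex hx
    have := h (m.toNat + 1)
    rcases le_max_iff.1 this with h1 | h1
    · exact h1
    · exfalso
      rw [hm, ex_le_ex] at h1
      push_cast at h1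
      omega

section action

variable {Ω : Type*} [Field Ω] {P : Type*} [Group P] [MulSemiringAction P Ω]

/-- The standing hypotheses: a finite group acting on a discretely valued field, preserving the
valuation, such that every residue class contains an invariant element. -/
structure Base (P : Type*) [Group P] [MulSemiringAction P Ω] (w : Valuation Ω ℤᵐ⁰) (π : Ω) :
    Prop where
  inv : ∀ (τ : P) (x : Ω), w (τ • x) = w x
  unif : w π = ex 1
  res : ∀ x, w x ≤ 1 → ∃ y, (∀ τ : P, τ • y = y) ∧ w (x - y) < 1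

/-- `x` is fixed by the subgroup `Q`. -/
def Fx (Q : Subgroup P) (x : Ω) : Prop := ∀ τ ∈ Q, τ • x = x

theorem Fx.mul {Q : Subgroup P} {x y : Ω} (hx : Fx Q x) (hy : Fx Q y) : Fx Q (x * y) := by
  intro τ hτ
  rw [smul_mul', hx τ hτ, hy τ hτ]

theorem Fx.add {Q : Subgroup P} {x y : Ω} (hx : Fx Q x) (hy : Fx Q y) : Fx Q (x + y) := by
  intro τ hτ
  rw [smul_add, hx τ hτ, hy τ hτ]

theorem Fx.sub {Q : Subgroup P} {x y : Ω} (hx : Fx Q x) (hy : Fx Q y) : Fx Q (x - y) := by
  intro τ hτ
  rw [smul_sub, hx τ hτ, hy τ hτ]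

theorem Fx.neg {Q : Subgroup P} {x : Ω} (hx : Fx Q x) : Fx Q (-x) := by
  intro τ hτ
  rw [smul_neg, hx τ hτ]

theorem Fx.one {Q : Subgroup P} : Fx Q (1 : Ω) := by
  intro τ _
  rw [smul_one]

theorem Fx.inv {Q : Subgroup P} {x : Ω} (hx : Fx Q x) : Fx Q x⁻¹ := by
  intro τ hτ
  rw [smul_inv'', hx τ hτ]

theorem Fx.div {Q : Subgroup P} {x y : Ω} (hx : Fx Q x) (hy : Fx Q y) : Fx Q (x / y) := by
  rw [div_eq_mul_inv]; exact hx.mul hy.inv

theorem Fx.pow {Q : Subgroup P} {x : Ω} (hx : Fx Q x) (n : ℕ) : Fx Q (x ^ n) := by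
  intro τ hτ
  rw [smul_pow', hx τ hτ]

theorem Fx.mono {Q Q' : Subgroup P} (h : Q' ≤ Q) {x : Ω} (hx : Fx Q x) : Fx Q' x :=
  fun τ hτ => hx τ (h hτ)

/-- The norm for a subgroup. -/
noncomputable def nm [Fintype P] (Q : Subgroup P) (x : Ω) : Ω := by
  classical
  exact ∏ τ : Q, (τ : P) • x

variable [Fintype P]

theorem nm_def (Q : Subgroup P) [Fintype Q] (x : Ω) : nm Q x = ∏ τ : Q, (τ : P) • x := by
  unfold nm
  refine Finset.prod_congr (Finset.ext fun x => ?_) (fun _ _ => rfl)
  simp only [Finset.mem_univ]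

theorem nm_fixed (Q : Subgroup P) (x : Ω) : Fx Q (nm Q x) := by
  classical
  intro σ hσ
  rw [nm_def, smul_prod']
  apply Fintype.prod_equiv (Equiv.mulLeft (⟨σ, hσ⟩ : Q))
  intro τ
  simp [mul_smul]

theorem nm_mul (Q : Subgroup P) (x y : Ω) : nm Q (x * y) = nm Q x * nm Q y := by
  classical
  rw [nm_def, nm_def, nm_def, ← Finset.prod_mul_distrib]
  apply Finset.prod_congr rfl
  intro τ _
  rw [smul_mul']

theorem nm_inv (Q : Subgroup P) (x : Ω) : nm Q x⁻¹ = (nm Q x)⁻¹ := by
  classical
  rw [nm_def, nm_def, ← Finset.prod_inv_distrib]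
  apply Finset.prod_congr rfl
  intro τ _
  rw [smul_inv'']

theorem nm_div (Q : Subgroup P) (x y : Ω) : nm Q (x / y) = nm Q x / nm Q y := by
  rw [div_eq_mul_inv, nm_mul, nm_inv, div_eq_mul_inv]

theorem nm_smul_mem (Q : Subgroup P) {σ : P} (hσ : σ ∈ Q) (x : Ω) : nm Q (σ • x) = nm Q x := by
  classical
  rw [nm_def, nm_def]
  apply Fintype.prod_equiv (Equiv.mulRight (⟨σ, hσ⟩ : Q))
  intro τ
  simp [mul_smul]

/-- Norms commute with elements normalising the subgroup. -/
theorem smul_nm (Q : Subgroup P) {σ : P} (hσ : ∀ τ ∈ Q, σ * τ * σ⁻¹ ∈ Q)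
    (hσ' : ∀ τ ∈ Q, σ⁻¹ * τ * σ ∈ Q) (x : Ω) : σ • nm Q x = nm Q (σ • x) := by
  classical
  rw [nm_def, nm_def, smul_prod']
  let e : Q ≃ Q :=
    { toFun := fun τ => ⟨σ * τ * σ⁻¹, hσ τ τ.2⟩
      invFun := fun τ => ⟨σ⁻¹ * τ * σ, hσ' τ τ.2⟩
      left_inv := fun τ => by ext; simp [mul_assoc]
      right_inv := fun τ => by ext; simp [mul_assoc] }
  apply Fintype.prod_equiv e
  intro τ
  simp only [e, Equiv.coe_fn_mk]
  rw [smul_smul, smul_smul]
  congr 1
  group

theorem nm_ne_zero (Q : Subgroup P) {x : Ω} (hx : x ≠ 0) : nm Q x ≠ 0 := by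
  classical
  rw [nm_def, Finset.prod_ne_zero_iff]
  intro τ _
  rwa [smul_ne_zero_iff_ne]

namespace Base

variable {w : Valuation Ω ℤᵐ⁰} {π : Ω} (hB : Base P w π)

include hB

omit [Fintype P] in
theorem pi_ne : π ≠ 0 := by
  intro h
  have := hB.unif
  rw [h, map_zero] at this
  exact ex_ne_zero 1 this.symm

theorem val_nm (Q : Subgroup P) (x : Ω) : w (nm Q x) = w x ^ Nat.card Q := by
  classical
  rw [nm_def, map_prod]
  simp only [hB.inv]
  rw [Finset.prod_const, Finset.card_univ, Nat.card_eq_fintype_card]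

theorem val_nm_pi (Q : Subgroup P) : w (nm Q π) = ex (Nat.card Q) := by
  rw [hB.val_nm, hB.unif, ex_pow, mul_one]

/-- Total ramification: the value group of the fixed field of `Q` has index `|Q|`. -/
theorem val_fixed [FaithfulSMul P Ω] (Q : Subgroup P) {y : Ω} (hy : Fx Q y) (hy0 : y ≠ 0) :
    ∃ k : ℤ, w y = ex (Nat.card Q * k) := by
  classical
  have hcard0 : 0 < Nat.card Q := Nat.card_pos
  -- minimal positive valuation
  have hex : ∃ e : ℕ, 0 < e ∧ ∃ t : Ω, Fx Q t ∧ w t = ex e :=
    ⟨Nat.card Q, hcard0, nm Q π, nm_fixed Q π, hB.val_nm_pi Q⟩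
  obtain ⟨he0, t, ht, hwt⟩ := Nat.find_spec hex
  have hmin : ∀ m : ℕ, 0 < m → m < Nat.find hex → ¬ ∃ t : Ω, Fx Q t ∧ w t = ex m := by
    intro m hm hlt hc
    exact Nat.find_min hex hlt ⟨hm, hc⟩
  set e := Nat.find hex with he
  have ht0 : t ≠ 0 := by
    intro h
    rw [h, map_zero] at hwt
    exact ex_ne_zero _ hwt.symm
  -- all valuations are multiples of `e`
  have hmul : ∀ y : Ω, Fx Q y → y ≠ 0 → ∃ k : ℤ, w y = ex (e * k) := by
    intro y hy hy0
    have hwy : w y ≠ 0 := (Valuation.ne_zero_iff w).2 hy0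
    obtain ⟨m, hm⟩ := exists_ex hwy
    refine ⟨m / e, ?_⟩
    have hr0 : 0 ≤ m % e := Int.emod_nonneg _ (by exact_mod_cast he0.ne')
    have hr1 : m % e < e := Int.emod_lt_of_pos _ (by exact_mod_cast he0)
    have hdm : (e : ℤ) * (m / e) + m % e = m := Int.mul_ediv_add_emod m e
    by_cases hr : m % e = 0
    · rw [hm]
      congr 1
      omega
    · exfalso
      apply hmin (m % e).toNat (by omega) (by omega)
      refine ⟨y / t ^ (m / e), ?_, ?_⟩
      · apply hy.div
        intro τ hτ
        have h5 := map_zpow₀ (MulSemiringAction.toRingHom P Ω τ) t (m / e)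
        rw [MulSemiringAction.toRingHom_apply, MulSemiringAction.toRingHom_apply, ht τ hτ] at h5
        exact h5
      · rw [map_div₀, map_zpow₀, hwt, hm]
        have h1 : ex (e : ℤ) ^ (m / e) = ex (e * (m / e)) := by
          unfold ex
          rw [← WithZero.exp_zsmul, smul_eq_mul]
          congr 1
          ring
        rw [h1, ← ex_sub]
        congr 1
        rw [Int.toNat_of_nonneg hr0]
        omega
  -- `e` divides the order of `Q`
  obtain ⟨k, hk⟩ := hmul (nm Q π) (nm_fixed Q π) (nm_ne_zero Q hB.pi_ne)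
  rw [hB.val_nm_pi Q, ex_inj] at hk
  -- it suffices to show that `|Q| ≤ e`
  have hle : Nat.card Q ≤ e := by
    by_contra hlt
    push Not at hlt
    let F := FixedPoints.subfield Q Ω
    have hFmem : ∀ x : Ω, x ∈ F ↔ Fx Q x := by
      intro x
      constructor
      · intro h τ hτ
        exact h ⟨τ, hτ⟩
      · intro h τ
        exact h τ τ.2
    let Tr : Ω → Ω := fun z => ∑ τ : Q, (τ : P) • z
    have hTrF : ∀ z, Tr z ∈ F := by
      intro z
      rw [hFmem]
      intro σ hσ
      simp only [Tr]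
      rw [Finset.smul_sum]
      apply Fintype.sum_equiv (Equiv.mulLeft (⟨σ, hσ⟩ : Q))
      intro τ
      simp [mul_smul]
    have hTradd : ∀ x y, Tr (x + y) = Tr x + Tr y := by
      intro x y
      simp only [Tr]
      rw [← Finset.sum_add_distrib]
      simp only [smul_add]
    have hTrmul : ∀ c ∈ F, ∀ x, Tr (c * x) = c * Tr x := by
      intro c hc x
      simp only [Tr]
      rw [Finset.mul_sum]
      apply Finset.sum_congr rfl
      intro τ _
      rw [smul_mul', (hFmem c).1 hc τ τ.2]
    have : FaithfulSMul Q Ω := ⟨fun {a b} h => by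
      apply Subtype.ext
      exact FaithfulSMul.eq_of_smul_eq_smul (α := Ω) (fun x => h x)⟩
    have hfr : Module.finrank F Ω = Nat.card Q := by
      rw [Nat.card_eq_fintype_card]
      exact FixedPoints.finrank_eq_card Q Ω
    have : FiniteDimensional F Ω := FiniteDimensional.of_finrank_pos (by rw [hfr]; exact hcard0)
    let Ψ : Ω →ₗ[F] (Fin e → F) :=
      { toFun := fun y a => ⟨Tr (y * π ^ (a : ℕ)), hTrF _⟩
        map_add' := by
          intro x y
          ext a
          simp only [add_mul, hTradd, Pi.add_apply]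
          rfl
        map_smul' := by
          intro c x
          ext a
          simp only [RingHom.id_apply, Pi.smul_apply, smul_eq_mul]
          have : (c • x) * π ^ (a : ℕ) = (c : Ω) * (x * π ^ (a : ℕ)) := by
            rw [Subfield.smul_def, smul_eq_mul, mul_assoc]
          rw [this, hTrmul c c.2]
          rfl }
    have hker : ∃ y : Ω, y ≠ 0 ∧ Ψ y = 0 := by
      by_contra hc
      push Not at hc
      have hinj : Function.Injective Ψ := by
        rw [injective_iff_map_eq_zero]
        intro y hy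
        by_contra hy0
        exact hc y hy0 hy
      have h1 := LinearMap.finrank_le_finrank_of_injective hinj
      rw [hfr, Module.finrank_fin_fun] at h1
      omega
    obtain ⟨y, hy0, hΨ⟩ := hker
    have hΨ' : ∀ a : ℕ, a < e → Tr (y * π ^ a) = 0 := by
      intro a ha
      have := congrFun hΨ ⟨a, ha⟩
      have h2 := congrArg Subtype.val this
      exact h2
    have hwTr : ∀ z, w (Tr z) ≤ w z := by
      intro z
      apply w.map_sum_le
      intro τ _
      rw [hB.inv]
    -- approximation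
    have happ : ∀ a : ℕ, a ≤ e → ∀ x, w x ≤ 1 → ∃ z, Tr (y * z) = 0 ∧ w (x - z) ≤ ex a := by
      intro a
      induction a with
      | zero =>
        intro _ x hx
        refine ⟨0, by simp [Tr], ?_⟩
        rw [sub_zero]
        simpa [ex_zero] using hx
      | succ a ih =>
        intro ha x hx
        obtain ⟨z, hz, hxz⟩ := ih (by omega) x hx
        have h1 : w ((x - z) / π ^ a) ≤ 1 := by
          rw [map_div₀, map_pow, hB.unif, ex_pow, mul_one]
          exact div_le_one_of_le₀ hxz zero_le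
        obtain ⟨f, hf, hf1⟩ := hB.res _ h1
        refine ⟨z + f * π ^ a, ?_, ?_⟩
        · rw [mul_add, hTradd, hz, zero_add]
          have : y * (f * π ^ a) = f * (y * π ^ a) := by ring
          rw [this, hTrmul f ((hFmem f).2 (fun τ _ => hf τ)), hΨ' a (by omega), mul_zero]
        · have hpa : π ^ a ≠ 0 := pow_ne_zero _ hB.pi_ne
          have e1 : x - (z + f * π ^ a) = ((x - z) / π ^ a - f) * π ^ a := by
            field_simp
            ring
          rw [e1, map_mul, map_pow, hB.unif, ex_pow, mul_one]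
          rw [lt_one_iff] at hf1
          push_cast
          rw [add_comm, ex_add]
          gcongr
    have hA : ∀ n : ℕ, ∀ x, w x ≤ 1 → w (Tr (y * x)) ≤ w y * ex n := by
      intro n
      induction n with
      | zero =>
        intro x hx
        refine (hwTr _).trans ?_
        rw [map_mul]
        simp only [Nat.cast_zero, ex_zero]
        gcongr
      | succ n ih =>
        intro x hx
        obtain ⟨z, hz, hxz⟩ := happ e le_rfl x hx
        have h1 : w ((x - z) / t) ≤ 1 := by
          rw [map_div₀, hwt]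
          exact div_le_one_of_le₀ hxz zero_le
        have e1 : y * x = y * z + t * (y * ((x - z) / t)) := by
          field_simp
          ring
        rw [e1, hTradd, hz, zero_add, hTrmul t ((hFmem t).2 ht), map_mul, hwt]
        have h2 := ih _ h1
        calc ex e * w (Tr (y * ((x - z) / t))) ≤ ex 1 * (w y * ex n) := by
              apply mul_le_mul' _ h2
              rw [ex_le_ex]
              exact_mod_cast he0
          _ = w y * ex ((n + 1 : ℕ) : ℤ) := by
              push_cast
              rw [ex_add, mul_comm (ex 1), mul_assoc]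
    have hint : ∀ x, w x ≤ 1 → Tr (y * x) = 0 := by
      intro x hx
      have hwy : w y ≠ 0 := (Valuation.ne_zero_iff w).2 hy0
      have : w (Tr (y * x)) / w y = 0 := by
        apply eq_zero_of_forall_le
        intro n
        rw [div_le_iff₀ (zero_lt_iff.2 hwy)]
        exact (hA n x hx).trans_eq (mul_comm _ _)
      have h2 : w (Tr (y * x)) = 0 := by
        rcases div_eq_zero_iff.1 this with h | h
        · exact h
        · exact absurd h hwy
      exact (Valuation.zero_iff w).1 h2
    have hall : ∀ z, Tr z = 0 := by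
      intro z
      by_cases hz : z = 0
      · subst hz; simp [Tr]
      · have hwz : w (z / y) ≠ 0 := (Valuation.ne_zero_iff w).2 (div_ne_zero hz hy0)
        obtain ⟨m, hm⟩ := exists_ex hwz
        have h1 : w (t ^ m.natAbs * (z / y)) ≤ 1 := by
          rw [map_mul, map_pow, hwt, hm, ex_pow, ← ex_add, ← ex_zero, ex_le_ex]
          have : (m.natAbs : ℤ) * e ≥ m.natAbs := by
            have h3 : (1 : ℤ) ≤ e := by exact_mod_cast he0
            nlinarith
          omega
        have h2 := hint _ h1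
        have e1 : y * (t ^ m.natAbs * (z / y)) = t ^ m.natAbs * z := by
          field_simp
        rw [e1, hTrmul _ ((hFmem _).2 (ht.pow _))] at h2
        rcases mul_eq_zero.1 h2 with h3 | h3
        · exact absurd h3 (pow_ne_zero _ ht0)
        · exact h3
    -- contradiction with independence of characters
    have hli := linearIndependent_monoidHom Ω Ω
    let χ : Q → (Ω →* Ω) := fun τ => (MulSemiringAction.toRingHom P Ω (τ : P) : Ω →* Ω)
    have hχinj : Function.Injective χ := by
      intro a b hab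
      apply Subtype.ext
      apply FaithfulSMul.eq_of_smul_eq_smul (α := Ω)
      intro x
      exact DFunLike.congr_fun hab x
    have hli2 := hli.comp χ hχinj
    rw [Fintype.linearIndependent_iff] at hli2
    have h1 := hli2 (fun _ => 1) (by
      ext x
      simp only [Finset.sum_apply, Pi.smul_apply, smul_eq_mul, one_mul, Function.comp]
      exact hall x) ⟨1, Q.one_mem⟩
    exact one_ne_zero h1
  have heq : (Nat.card Q : ℤ) = e := by
    have hk1 : (1 : ℤ) ≤ k := by
      by_contra hc
      push Not at hc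
      have h3 : (0 : ℤ) < e := by exact_mod_cast he0
      have h4 : (0 : ℤ) < Nat.card Q := by exact_mod_cast hcard0
      nlinarith
    have h3 : (0 : ℤ) < e := by exact_mod_cast he0
    have h4 : (Nat.card Q : ℤ) ≤ e := by exact_mod_cast hle
    nlinarith
  obtain ⟨l, hl⟩ := hmul y hy hy0
  exact ⟨l, by rw [hl, heq]⟩

end Base

end action

end Pool.Agent.Helper13.Swan
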